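import Pool.Agent.R502.BL.Setup

/-! Conversions between sets of reals and the counting functions of the proof. -/

set_option autoImplicit false
set_option maxHeartbeats 4000000

namespace Pool.Agent.R502.BL
open Finset Filter

lemma N_eq {k l : ℕ} {x y : ℝ} (hy : y ≤ x) (hy0 : 0 ≤ y) :
    ({p : ℕ | p.Prime ∧ x - y < p ∧ (p : ℝ) ≤ x ∧ p ≡ l [MOD k]}).ncard = pc k ⌊x - y⌋₊ ⌊x⌋₊ l := by
  classical
  unfold pc
  rw [← Set.ncard_coe_finset]
  congr 1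
  ext p
  rw [Set.mem_setOf_eq, mem_coe, mem_filter, mem_Ioc, Nat.floor_lt (by linarith), Nat.le_floor_iff (by linarith)]
  tauto

lemma ncard_le_of_sub {S : Set ℕ} {F : Finset ℕ} (h : ∀ l ∈ S, l ∈ F) : (S.ncard : ℝ) ≤ F.card := by
  rw [← Set.ncard_coe_finset F]
  exact_mod_cast Set.ncard_le_ncard (fun l hl => mem_coe.2 (h l hl)) F.finite_toSet

lemma mem_exc {ε t : ℝ} {k l : ℕ} {x y : ℝ} : l ∈ exc ε t k x y ↔ l < k ∧ l.Coprime k ∧
    (2 + ε) * y / (Nat.totient k * Real.log (y / (k : ℝ) ^ t)) < (pc k ⌊x - y⌋₊ ⌊x⌋₊ l : ℝ) := by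
  unfold exc
  rw [mem_filter, mem_range]

end Pool.Agent.R502.BL
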