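import Pool.Agent.R502.BL.Main
import Pool.Agent.R502.BL.Conv

/-! Every modulus: the statements of the hand-in. -/

set_option autoImplicit false
set_option maxHeartbeats 4000000

namespace Pool.Agent.R502.BL
open Finset Filter

theorem all1 (ε A : ℝ) (hε : 0 < ε) : ∀ᶠ k : ℕ in atTop, ∀ t : ℝ, 0 ≤ t → t ≤ 1 →
    ∀ x y : ℝ, (k : ℝ) ^ (1 + ε) ≤ y → y ≤ (k : ℝ) ^ A → y ≤ x →
    ((exc ε t k x y).card : ℝ) ≤ (k : ℝ) ^ (2 - 2 * t + ε) + (k : ℝ) ^ (2 + ε) / y := by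
  have h0 : 0 < min ε 1 := lt_min hε one_pos
  filter_upwards [main (min ε 1) A h0 (min_le_right _ _), eventually_gt_atTop 1] with k hk hk1 t ht0 ht1 x y hy1 hy2 hyx
  have hk1r : (1 : ℝ) < k := by exact_mod_cast hk1
  have hk0 : (0 : ℝ) < k := by linarith
  have hle : min ε 1 ≤ ε := min_le_left _ _
  have hy0 : 0 < y := lt_of_lt_of_le (Real.rpow_pos_of_pos hk0 _) hy1
  have h := hk t ht0 ht1 x y ((Real.rpow_le_rpow_of_exponent_le hk1r.le (by linarith)).trans hy1) hy2 hyx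
  have hsub : exc ε t k x y ⊆ exc (min ε 1) t k x y := by
    intro l hl
    rw [mem_exc] at hl ⊢
    refine ⟨hl.1, hl.2.1, lt_of_le_of_lt ?_ hl.2.2⟩
    have hlog : 0 ≤ Real.log (y / (k : ℝ) ^ t) := by
      apply Real.log_nonneg
      rw [le_div_iff₀ (Real.rpow_pos_of_pos hk0 _), one_mul]
      exact (Real.rpow_le_rpow_of_exponent_le hk1r.le (by linarith)).trans hy1
    gcongr
  have h2 : ((exc ε t k x y).card : ℝ) ≤ (exc (min ε 1) t k x y).card := by exact_mod_cast card_le_card hsub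
  refine h2.trans (h.trans ?_)
  have h3 := Real.rpow_le_rpow_of_exponent_le hk1r.le (by linarith : 2 - 2 * t + min ε 1 ≤ 2 - 2 * t + ε)
  have h4 := Real.rpow_le_rpow_of_exponent_le hk1r.le (by linarith : 2 + min ε 1 ≤ 2 + ε)
  have h5 : (k : ℝ) ^ (2 + min ε 1) / y ≤ (k : ℝ) ^ (2 + ε) / y := div_le_div_of_nonneg_right h4 hy0.le
  linarith

/-- the constant of the inequality is improved for all but few classes -/
theorem all2 (κ A : ℝ) (hκ : 0 < κ) : ∃ δ c : ℝ, 0 < δ ∧ 0 < c ∧ ∀ᶠ k : ℕ in atTop,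
    ∀ x y : ℝ, (k : ℝ) ^ (1 + κ) ≤ y → y ≤ (k : ℝ) ^ A → y ≤ x →
    ∀ S : Finset ℕ, (∀ l ∈ S, l < k ∧ l.Coprime k ∧
      (2 - δ) * y / (Nat.totient k * Real.log (y / k)) ≤ (pc k ⌊x - y⌋₊ ⌊x⌋₊ l : ℝ)) →
    (S.card : ℝ) ≤ (k : ℝ) ^ (1 - c) := by
  set B : ℝ := max A 1 with hB
  have hB1 : 1 ≤ B := le_max_right _ _
  have hAB : A ≤ B := le_max_left _ _
  set ε : ℝ := min (κ / 2) (1 / (8 * B)) with hε
  have hε0 : 0 < ε := lt_min (by positivity) (by positivity)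
  have hεκ : ε ≤ κ / 2 := min_le_left _ _
  have hεB : ε * B ≤ 1 / 8 := by
    calc ε * B ≤ 1 / (8 * B) * B := mul_le_mul_of_nonneg_right (min_le_right _ _) (by linarith)
      _ = 1 / 8 := by field_simp
  have hε8 : ε ≤ 1 / 8 := (le_mul_of_one_le_right hε0.le hB1).trans hεB
  set c : ℝ := min (1 / 8) (κ / 4) with hc
  have hc0 : 0 < c := lt_min (by norm_num) (by positivity)
  have hc8 : c ≤ 1 / 8 := min_le_left _ _
  have hcκ : c ≤ κ / 4 := min_le_right _ _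
  refine ⟨ε, c, hε0, hc0, ?_⟩
  have tc : Tendsto (fun q : ℕ => (q : ℝ)) atTop atTop := tendsto_natCast_atTop_atTop
  have f1 : ∀ᶠ x : ℝ in atTop, 2 ≤ x ^ (κ / 4) :=
    (tendsto_rpow_atTop (by positivity)).eventually_ge_atTop _
  have f2 : ∀ᶠ x : ℝ in atTop, 2 ≤ x ^ (1 / 4 : ℝ) :=
    (tendsto_rpow_atTop (by positivity)).eventually_ge_atTop _
  filter_upwards [all1 ε A hε0, eventually_ge_atTop 3, tc.eventually f1, tc.eventually f2] with k hk hk3 g1 g2 x y hy1 hy2 hyx S hS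
  have hk3r : (3 : ℝ) ≤ k := by exact_mod_cast hk3
  have hk0 : (0 : ℝ) < k := by linarith
  have hk1 : (1 : ℝ) ≤ k := by linarith
  have rp : ∀ a b : ℝ, a ≤ b → (k : ℝ) ^ a ≤ (k : ℝ) ^ b := fun a b h => Real.rpow_le_rpow_of_exponent_le hk1 h
  have rpp : ∀ a : ℝ, 0 < (k : ℝ) ^ a := fun a => Real.rpow_pos_of_pos hk0 a
  have rad : ∀ a b : ℝ, (k : ℝ) ^ a * (k : ℝ) ^ b = (k : ℝ) ^ (a + b) := fun a b => (Real.rpow_add hk0 a b).symm
  have hy0 : 0 < y := lt_of_lt_of_le (rpp _) hy1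
  set L := Real.log k with hL
  have hL0 : 0 < L := Real.log_pos (by linarith)
  have hlogy1 : (1 + κ) * L ≤ Real.log y := by
    have := Real.log_le_log (rpp _) hy1
    rwa [Real.log_rpow hk0] at this
  have hlogy2 : Real.log y ≤ A * L := by
    have := Real.log_le_log hy0 hy2
    rwa [Real.log_rpow hk0] at this
  have h1 := hk (3 / 4) (by norm_num) (by norm_num) x y ((rp _ _ (by linarith)).trans hy1) hy2 hyx
  have hφ : (0 : ℝ) < Nat.totient k := by exact_mod_cast Nat.totient_pos.2 (by omega)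
  have hsub : S ⊆ exc ε (3 / 4) k x y := by
    intro l hl
    obtain ⟨ha, hb, hc'⟩ := hS l hl
    rw [mem_exc]
    refine ⟨ha, hb, lt_of_lt_of_le ?_ hc'⟩
    have e1 : Real.log (y / (k : ℝ) ^ (3 / 4 : ℝ)) = Real.log y - 3 / 4 * L := by
      rw [Real.log_div hy0.ne' (rpp _).ne', Real.log_rpow hk0]
    have e2 : Real.log (y / k) = Real.log y - L := by rw [Real.log_div hy0.ne' hk0.ne']
    rw [e1, e2]
    set Y := Real.log y with hY
    have hκL : 0 < κ * L := by positivity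
    have p1 : 0 < Y - 3 / 4 * L := by linarith
    have p2 : 0 < Y - L := by linarith
    rw [div_lt_div_iff₀ (by positivity) (by positivity)]
    have h3 : (2 + ε) * (Y - L) < (2 - ε) * (Y - 3 / 4 * L) := by
      have h4 : ε * Y ≤ ε * (B * L) := mul_le_mul_of_nonneg_left
        (hlogy2.trans (mul_le_mul_of_nonneg_right hAB hL0.le)) hε0.le
      have h5 : ε * (B * L) ≤ 1 / 8 * L := by
        calc ε * (B * L) = (ε * B) * L := by ring
          _ ≤ 1 / 8 * L := mul_le_mul_of_nonneg_right hεB hL0.le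
      have h6 : 0 < ε * L := by positivity
      nlinarith
    calc (2 + ε) * y * (Nat.totient k * (Y - L)) = ((2 + ε) * (Y - L)) * (y * Nat.totient k) := by ring
      _ < ((2 - ε) * (Y - 3 / 4 * L)) * (y * Nat.totient k) := mul_lt_mul_of_pos_right h3 (by positivity)
      _ = (2 - ε) * y * (Nat.totient k * (Y - 3 / 4 * L)) := by ring
  have h2 : (S.card : ℝ) ≤ (exc ε (3 / 4) k x y).card := by exact_mod_cast card_le_card hsub
  have h3 : (k : ℝ) ^ (2 - 2 * (3 / 4 : ℝ) + ε) ≤ (k : ℝ) ^ (1 - c) / 2 := by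
    rw [le_div_iff₀ (by norm_num)]
    calc (k : ℝ) ^ (2 - 2 * (3 / 4 : ℝ) + ε) * 2 ≤ (k : ℝ) ^ (2 - 2 * (3 / 4 : ℝ) + ε) * (k : ℝ) ^ (1 / 4 : ℝ) :=
          mul_le_mul_of_nonneg_left g2 (rpp _).le
      _ = (k : ℝ) ^ (2 - 2 * (3 / 4 : ℝ) + ε + 1 / 4) := rad _ _
      _ ≤ (k : ℝ) ^ (1 - c) := rp _ _ (by linarith)
  have h4 : (k : ℝ) ^ (2 + ε) / y ≤ (k : ℝ) ^ (1 - c) / 2 := by
    rw [div_le_div_iff₀ hy0 (by norm_num)]
    calc (k : ℝ) ^ (2 + ε) * 2 ≤ (k : ℝ) ^ (2 + ε) * (k : ℝ) ^ (κ / 4) :=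
          mul_le_mul_of_nonneg_left g1 (rpp _).le
      _ = (k : ℝ) ^ (2 + ε + κ / 4) := rad _ _
      _ ≤ (k : ℝ) ^ ((1 - c) + (1 + κ)) := rp _ _ (by linarith)
      _ = (k : ℝ) ^ (1 - c) * (k : ℝ) ^ (1 + κ) := (rad _ _).symm
      _ ≤ (k : ℝ) ^ (1 - c) * y := mul_le_mul_of_nonneg_left hy1 (rpp _).le
  linarith

end Pool.Agent.R502.BL
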