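import Pool.Agent.R502.BL.Wt
import Pool.Agent.H510R2.Div

/-! The primes of an interval in the classes modulo `k`: all but few classes. -/

set_option autoImplicit false
set_option maxHeartbeats 4000000

namespace Pool.Agent.R502.BL
open Finset Filter

/-- the number of the primes `p ≡ l (mod k)` in `(u, v]` -/
def pc (k u v l : ℕ) : ℕ := ((Ioc u v).filter (fun p => p.Prime ∧ p ≡ l [MOD k])).card

lemma card_class (k R l : ℕ) (hk : 1 ≤ k) :
    (((Ioc 0 R).filter (fun p => p ≡ l [MOD k])).card : ℝ) ≤ (R : ℝ) / k + 1 := by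
  have h := Nat.Ioc_filter_modEq_card 0 R (r := k) (by omega) l
  have hk0 : (0 : ℝ) < k := by exact_mod_cast hk
  have h1 : (((((Ioc 0 R).filter (fun p => p ≡ l [MOD k])).card : ℤ) : ℚ) : ℝ) ≤ (R : ℝ) / k + 1 := by
    rw [h]
    push_cast
    apply max_le _ (by positivity)
    have h2 : ((⌊((R : ℚ) - l) / k⌋ : ℤ) : ℝ) ≤ ((R : ℝ) - l) / k := by
      have := Int.floor_le (((R : ℚ) - l) / k)
      have h3 : (((⌊((R : ℚ) - l) / k⌋ : ℤ) : ℚ) : ℝ) ≤ ((((R : ℚ) - l) / k : ℚ) : ℝ) := by exact_mod_cast this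
      push_cast at h3
      exact h3
    have h4 : ((0 : ℝ) - l) / k < ((⌊((0 : ℚ) - l) / k⌋ : ℤ) : ℝ) + 1 := by
      have := Int.lt_floor_add_one (((0 : ℚ) - l) / k)
      have h3 : ((((0 : ℚ) - l) / k : ℚ) : ℝ) < (((⌊((0 : ℚ) - l) / k⌋ : ℤ) : ℚ) + 1 : ℚ) := by exact_mod_cast this
      push_cast at h3
      exact h3
    have h5 : ((R : ℝ) - l) / k = R / k + (0 - l) / k := by ring
    simp only [Nat.cast_zero] at *
    linarith
  exact_mod_cast h1

lemma pc_le {k u v l R : ℕ} (hk : 1 ≤ k) (hl : l.Coprime k) {ρ : ℕ → ℝ}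
    (h0 : ∀ n : ℕ, 1 ≤ n → 0 ≤ th ρ k (R ^ 2) n)
    (h1 : ∀ n : ℕ, 1 ≤ n → (∀ p : ℕ, p.Prime → p ≤ R → p ∣ n → p ∣ k) → th ρ k (R ^ 2) n = 1) :
    (pc k u v l : ℝ) ≤ (R : ℝ) / k + 1 +
      ∑ n ∈ (Ioc u v).filter (fun n => n ≡ l [MOD k]), th ρ k (R ^ 2) n := by
  classical
  have e1 : (Ioc u v).filter (fun p => p.Prime ∧ p ≡ l [MOD k]) ⊆
      (Ioc 0 R).filter (fun p => p ≡ l [MOD k]) ∪
        ((Ioc u v).filter (fun n => n ≡ l [MOD k])).filter (fun n => n.Prime ∧ R < n) := by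
    intro p hp
    rw [mem_filter, mem_Ioc] at hp
    rw [mem_union, mem_filter, mem_filter, mem_filter, mem_Ioc, mem_Ioc]
    rcases le_or_gt p R with h | h
    · left
      exact ⟨⟨hp.2.1.pos, h⟩, hp.2.2⟩
    · right
      exact ⟨⟨hp.1, hp.2.2⟩, hp.2.1, h⟩
  have e2 := (card_le_card e1).trans (card_union_le _ _)
  have e3 : ((((Ioc u v).filter (fun n => n ≡ l [MOD k])).filter (fun n => n.Prime ∧ R < n)).card : ℝ) ≤
      ∑ n ∈ (Ioc u v).filter (fun n => n ≡ l [MOD k]), th ρ k (R ^ 2) n := by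
    rw [card_eq_sum_ones, Nat.cast_sum]
    refine le_trans (sum_le_sum (g := fun n => th ρ k (R ^ 2) n) ?_)
      (sum_le_sum_of_subset_of_nonneg (filter_subset _ _) ?_)
    · intro n hn
      rw [mem_filter, mem_filter, mem_Ioc] at hn
      rw [h1 n (by omega)]
      · simp
      · intro p hp hpR hpn
        exfalso
        have := (Nat.prime_dvd_prime_iff_eq hp hn.2.1).1 hpn
        omega
    · intro n hn _
      rw [mem_filter, mem_Ioc] at hn
      exact h0 n (by omega)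
  unfold pc
  have e4 := card_class k R l hk
  have e5 : (((Ioc u v).filter (fun p => p.Prime ∧ p ≡ l [MOD k])).card : ℝ) ≤
      (((Ioc 0 R).filter (fun p => p ≡ l [MOD k])).card : ℝ) +
      ((((Ioc u v).filter (fun n => n ≡ l [MOD k])).filter (fun n => n.Prime ∧ R < n)).card : ℝ) := by
    exact_mod_cast e2
  linarith

lemma th_sum (k D u v l : ℕ) (ρ : ℕ → ℝ) (hk : 1 ≤ k) :
    ∑ n ∈ (Ioc u v).filter (fun n => n ≡ l [MOD k]), th ρ k D n =
      EE ρ k D u v l + ((v : ℝ) - u) / k * ∑ d ∈ DD k D, ρ d / d := by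
  unfold th EE
  rw [sum_comm, mul_sum, ← sum_add_distrib]
  apply sum_congr rfl
  intro d hd
  have hd0 : (0 : ℝ) < d := by exact_mod_cast (mem_DD.1 hd).1.1
  have hk0 : (0 : ℝ) < k := by exact_mod_cast hk
  rw [← sum_filter, filter_filter, sum_const, nsmul_eq_mul]
  have e : (Ioc u v).filter (fun n => n ≡ l [MOD k] ∧ d ∣ n) = (Ioc u v).filter (fun n => d ∣ n ∧ n ≡ l [MOD k]) := by
    apply filter_congr
    intro n _
    rw [and_comm]
  rw [e]
  unfold cn
  field_simp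
  ring

end Pool.Agent.R502.BL
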