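import Pool.Agent.R502.BL.Chr
import Pool.Agent.R502.BL.Cls

/-! Blocks of moduli: a divisor sum as a sum of multiplicative convolutions. -/

set_option autoImplicit false
set_option maxHeartbeats 4000000

namespace Pool.Agent.R502.BL

open Finset

/-- the beginning of the block number `j` -/
def aj (D0 H j : ℕ) : ℕ := D0 + j * H

/-- the block -/
def Pj (D0 H j : ℕ) : Finset ℕ := Ioc (aj D0 H j) (aj D0 H j + H)

/-- the interval of the cofactors -/
def Ij (u v D0 H j : ℕ) : Finset ℕ := Ioc (u / aj D0 H j) (v / aj D0 H j)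

open Classical in
lemma cn_eq {q u v d l : ℕ} [NeZero q] (hd : 1 ≤ d) :
    cn q u v d l = ((Ioc (u / d) (v / d)).filter (fun r : ℕ => (d : ZMod q) * r = (l : ZMod q))).card := by
  unfold cn
  have h := mult_sum u v d hd (fun m => if m ≡ l [MOD q] then (1 : ℕ) else 0)
  rw [← sum_filter, ← sum_filter, filter_filter] at h
  simp only [sum_const, smul_eq_mul, mul_one] at h
  rw [h]
  have e : Ico (u / d + 1) (v / d + 1) = Ioc (u / d) (v / d) := by
    ext x
    rw [mem_Ico, mem_Ioc]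
    omega
  rw [e]
  congr 1
  apply filter_congr
  intro r _
  rw [← ZMod.natCast_eq_natCast_iff]
  push_cast
  rfl

open Classical in
/-- the counts over two sets differ little on average -/
lemma diff_counts {q : ℕ} [NeZero q] (A A' : Finset ℕ) (d : ℕ) :
    ∑ a : (ZMod q)ˣ, |(((A.filter (fun r : ℕ => (d : ZMod q) * r = a)).card : ℕ) : ℝ) -
      (((A'.filter (fun r : ℕ => (d : ZMod q) * r = a)).card : ℕ) : ℝ)| ≤
      ((A \ A').card : ℝ) + ((A' \ A).card : ℝ) := by
  have h1 : ∀ (B B' : Finset ℕ) (a : (ZMod q)ˣ), (((B.filter (fun r : ℕ => (d : ZMod q) * r = a)).card : ℕ) : ℝ) ≤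
      (((B'.filter (fun r : ℕ => (d : ZMod q) * r = a)).card : ℕ) : ℝ) +
      ((((B \ B').filter (fun r : ℕ => (d : ZMod q) * r = a)).card : ℕ) : ℝ) := by
    intro B B' a
    have : B.filter (fun r : ℕ => (d : ZMod q) * r = a) ⊆ B'.filter (fun r : ℕ => (d : ZMod q) * r = a) ∪
        (B \ B').filter (fun r : ℕ => (d : ZMod q) * r = a) := by
      intro r hr
      rw [mem_filter] at hr
      rw [mem_union, mem_filter, mem_filter, mem_sdiff]
      by_cases h : r ∈ B'
      · left; exact ⟨h, hr.2⟩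
      · right; exact ⟨⟨hr.1, h⟩, hr.2⟩
    exact_mod_cast (card_le_card this).trans (card_union_le _ _)
  have h2 : ∀ B : Finset ℕ, ∑ a : (ZMod q)ˣ, (((B.filter (fun r : ℕ => (d : ZMod q) * r = a)).card : ℕ) : ℝ) ≤
      (B.card : ℝ) := by
    intro B
    have h3 : ∑ a : (ZMod q)ˣ, (B.filter (fun r : ℕ => (d : ZMod q) * r = a)).card ≤ B.card := by
      rw [← card_biUnion]
      · apply card_le_card
        intro r hr
        rw [mem_biUnion] at hr
        obtain ⟨a, _, ha⟩ := hr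
        exact (mem_filter.1 ha).1
      · intro a _ b _ hab
        rw [Function.onFun, disjoint_left]
        intro r hr hr'
        apply hab
        rw [mem_filter] at hr hr'
        exact Units.ext (hr.2.symm.trans hr'.2)
    exact_mod_cast h3
  calc _ ≤ ∑ a : (ZMod q)ˣ, (((((A \ A').filter (fun r : ℕ => (d : ZMod q) * r = a)).card : ℕ) : ℝ) +
      ((((A' \ A).filter (fun r : ℕ => (d : ZMod q) * r = a)).card : ℕ) : ℝ)) := by
        apply sum_le_sum
        intro a _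
        have e1 := h1 A A' a
        have e2 := h1 A' A a
        have e3 : (0 : ℝ) ≤ ((((A \ A').filter (fun r : ℕ => (d : ZMod q) * r = a)).card : ℕ) : ℝ) := Nat.cast_nonneg _
        have e4 : (0 : ℝ) ≤ ((((A' \ A).filter (fun r : ℕ => (d : ZMod q) * r = a)).card : ℕ) : ℝ) := Nat.cast_nonneg _
        rw [abs_le]
        constructor <;> linarith
    _ ≤ _ := by
        rw [sum_add_distrib]
        exact add_le_add (h2 _) (h2 _)

lemma div_diff (w a d H : ℕ) (ha : 1 ≤ a) (had : a ≤ d) (hdH : d ≤ a + H) :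
    ((w / a : ℕ) : ℝ) - ((w / d : ℕ) : ℝ) ≤ (w : ℝ) * H / (a : ℝ) ^ 2 + 1 := by
  have ha0 : (0 : ℝ) < a := by exact_mod_cast ha
  have hd0 : (0 : ℝ) < d := by
    have : (a : ℝ) ≤ d := by exact_mod_cast had
    linarith
  have h1 : ((w / a : ℕ) : ℝ) ≤ (w : ℝ) / a := Nat.cast_div_le
  have h2 : (w : ℝ) / d < ((w / d : ℕ) : ℝ) + 1 := by
    rw [div_lt_iff₀ hd0]
    have := Nat.lt_div_mul_add (a := w) (b := d) (by omega)
    have h2 : (w : ℝ) < (w / d : ℕ) * d + d := by exact_mod_cast this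
    linarith
  have h3 : (w : ℝ) / a - (w : ℝ) / d ≤ (w : ℝ) * H / (a : ℝ) ^ 2 := by
    rw [div_sub_div _ _ ha0.ne' hd0.ne', div_le_div_iff₀ (by positivity) (by positivity)]
    have h4 : (d : ℝ) ≤ a + H := by exact_mod_cast hdH
    have h5 : (a : ℝ) ≤ d := by exact_mod_cast had
    have hw : (0 : ℝ) ≤ w := Nat.cast_nonneg w
    have hH : (0 : ℝ) ≤ H := Nat.cast_nonneg H
    calc ((w : ℝ) * d - a * w) * a ^ 2 = (w * (d - a)) * (a * a) := by ring
      _ ≤ (w * H) * (a * d) := by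
          apply mul_le_mul _ _ (by positivity) (by positivity)
          · apply mul_le_mul_of_nonneg_left _ hw
            linarith
          · exact mul_le_mul_of_nonneg_left h5 ha0.le
  linarith

/-- the count of the integers prime to `q` in an interval -/
lemma cop_count {q : ℕ} (hq : q.Prime) (s t : ℕ) (hst : s ≤ t) :
    |(((Ioc s t).filter (fun r => r.Coprime q)).card : ℝ) - ((t : ℝ) - s) * (Nat.totient q : ℝ) / q| ≤ 1 := by
  have hq1 : 1 ≤ q := hq.one_lt.le
  have hq0 : (0 : ℝ) < q := by exact_mod_cast hq1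
  have h1 : ((Ioc s t).filter (fun r => r.Coprime q)).card + ((Ioc s t).filter (fun r => q ∣ r)).card = t - s := by
    rw [← Nat.card_Ioc s t, ← card_filter_add_card_filter_not (s := Ioc s t) (fun r => r.Coprime q)]
    congr 2
    apply filter_congr
    intro r _
    rw [Nat.coprime_comm, Nat.Prime.coprime_iff_not_dvd hq, not_not]
  have h2 : ((Ioc s t).filter (fun r => q ∣ r)).card = t / q - s / q := by
    have h := mult_sum s t q hq1 (fun _ => (1 : ℕ))
    simp only [sum_const, smul_eq_mul, mul_one, Nat.card_Ico] at h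
    rw [h]
    omega
  have h3 := div_sub_le s t q hq1
  have hle : s / q ≤ t / q := Nat.div_le_div_right hst
  have h4 : (((Ioc s t).filter (fun r => r.Coprime q)).card : ℝ) + (((t / q : ℕ) : ℝ) - ((s / q : ℕ) : ℝ)) = (t : ℝ) - s := by
    have h5 : ((Ioc s t).filter (fun r => r.Coprime q)).card + (t / q - s / q) + s = t := by omega
    have h6 : (((Ioc s t).filter (fun r => r.Coprime q)).card : ℝ) + ((t / q - s / q : ℕ) : ℝ) + s = t := by
      exact_mod_cast h5
    rw [Nat.cast_sub hle] at h6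
    linarith
  have h5 : (Nat.totient q : ℝ) = q - 1 := by
    rw [Nat.totient_prime hq, Nat.cast_sub hq1, Nat.cast_one]
  have h6 : ((t : ℝ) - s) * (Nat.totient q : ℝ) / q = ((t : ℝ) - s) - ((t : ℝ) - s) / q := by
    rw [h5]; field_simp
  rw [h6, abs_le]
  rw [abs_le] at h3
  constructor <;> linarith

open Classical in
/-- the main part of the error term -/
noncomputable def YY {q : ℕ} [NeZero q] (α : ℕ → ℝ) (u v D0 H J : ℕ) (a : ZMod q) : ℝ :=
  ∑ j ∈ range J, (FF α (Pj D0 H j) (Ij u v D0 H j) a - cF q α (Pj D0 H j) (Ij u v D0 H j))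

/-- the error term over `(D0, D0 + J H]` -/
noncomputable def EB (q : ℕ) (α : ℕ → ℝ) (u v D0 H J l : ℕ) : ℝ :=
  ∑ d ∈ Ioc D0 (D0 + J * H), α d * ((cn q u v d l : ℝ) - ((v : ℝ) - u) / (d * q))

lemma sum_blocks (f : ℕ → ℝ) (D0 H J : ℕ) :
    ∑ d ∈ Ioc D0 (D0 + J * H), f d = ∑ j ∈ range J, ∑ d ∈ Pj D0 H j, f d := by
  induction J with
  | zero => simp
  | succ J ih =>
    rw [sum_range_succ, ← ih]
    unfold Pj aj
    have e : D0 + (J + 1) * H = D0 + J * H + H := by ring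
    rw [e, ← sum_union]
    · congr 1
      rw [Ioc_union_Ioc_eq_Ioc] <;> omega
    · rw [disjoint_left]
      intro x hx hx'
      rw [mem_Ioc] at hx hx'
      omega

lemma harm (J : ℕ) : ∑ j ∈ range J, 1 / ((j : ℝ) + 1) ≤ 1 + Real.log J := by
  have h := harmonic_le_one_add_log J
  unfold harmonic at h
  push_cast at h
  refine le_trans (le_of_eq (sum_congr rfl fun n _ => ?_)) h
  rw [one_div]

open Classical in
theorem block1 {q u v D0 H J : ℕ} [NeZero q] (hq : q.Prime) (huv : u ≤ v) (hD0 : 1 ≤ D0) (hH : 1 ≤ H)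
    {θ B : ℝ} (hθ1 : θ ≤ 1) (hHθ : (H : ℝ) ≤ θ * D0) (α : ℕ → ℝ)
    (hB : 0 ≤ B) (hα : ∀ d, |α d| ≤ B) (hα0 : ∀ d, α d ≠ 0 → d.Coprime q) :
    ∑ a : (ZMod q)ˣ, |EB q α u v D0 H J (a : ZMod q).val - YY α u v D0 H J (a : ZMod q)| ≤
      B * (3 * v * θ * (1 + Real.log J) + 4 * (J * H)) := by
  have hφ : (0 : ℝ) < Nat.totient q := by exact_mod_cast Nat.totient_pos.2 (NeZero.pos q)
  have hq0 : (0 : ℝ) < q := by exact_mod_cast hq.pos
  have hφq : (Nat.totient q : ℝ) ≤ q := by exact_mod_cast Nat.totient_le q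
  have hHr : (0 : ℝ) < H := by exact_mod_cast hH
  have hD0r : (0 : ℝ) < D0 := by exact_mod_cast hD0
  have hv0 : (0 : ℝ) ≤ v := Nat.cast_nonneg v
  have hθ0 : 0 ≤ θ := by
    by_contra h
    push Not at h
    nlinarith
  have ex : ∀ a : (ZMod q)ˣ, EB q α u v D0 H J (a : ZMod q).val - YY α u v D0 H J (a : ZMod q) =
      ∑ j ∈ range J, ∑ d ∈ Pj D0 H j, α d * (((cn q u v d (a : ZMod q).val : ℝ) -
        ((((Ij u v D0 H j).filter (fun r : ℕ => (d : ZMod q) * r = a)).card : ℕ) : ℝ)) -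
        (((v : ℝ) - u) / (d * q) - (((Ij u v D0 H j).filter (fun r => r.Coprime q)).card : ℝ) / Nat.totient q)) := by
    intro a
    unfold EB YY
    rw [sum_blocks, ← sum_sub_distrib]
    apply sum_congr rfl
    intro j _
    unfold FF cF
    have e1 : ∑ d ∈ (Pj D0 H j).filter (fun d => d.Coprime q), α d = ∑ d ∈ Pj D0 H j, α d := by
      apply sum_subset (filter_subset _ _)
      intro d hd hd'
      by_contra h
      exact hd' (mem_filter.2 ⟨hd, hα0 d h⟩)
    rw [e1, mul_div_assoc, sum_mul, ← sum_sub_distrib, ← sum_sub_distrib]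
    apply sum_congr rfl
    intro d _
    ring
  have haj : ∀ j, 1 ≤ aj D0 H j := fun j => by unfold aj; omega
  have hajH : ∀ j : ℕ, ((j : ℝ) + 1) * H ≤ aj D0 H j := by
    intro j
    unfold aj
    push_cast
    have : (H : ℝ) ≤ D0 := by nlinarith
    linarith
  have hajθ : ∀ j : ℕ, (H : ℝ) ≤ θ * aj D0 H j := by
    intro j
    refine hHθ.trans ?_
    apply mul_le_mul_of_nonneg_left _ hθ0
    unfold aj
    push_cast
    have : (0 : ℝ) ≤ (j : ℝ) * H := by positivity
    linarith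
  -- one modulus
  have hone : ∀ j ∈ range J, ∀ d ∈ Pj D0 H j, ∑ a : (ZMod q)ˣ, |α d * (((cn q u v d (a : ZMod q).val : ℝ) -
        ((((Ij u v D0 H j).filter (fun r : ℕ => (d : ZMod q) * r = a)).card : ℕ) : ℝ)) -
        (((v : ℝ) - u) / (d * q) - (((Ij u v D0 H j).filter (fun r => r.Coprime q)).card : ℝ) / Nat.totient q))| ≤
      B * (3 * (v * H / (aj D0 H j : ℝ) ^ 2) + 4) := by
    intro j _ d hd
    unfold Pj at hd
    rw [mem_Ioc] at hd
    have hd1 : 1 ≤ d := by have := haj j; omega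
    set b := aj D0 H j with hb
    have hb1 : 1 ≤ b := haj j
    have hb0 : (0 : ℝ) < b := by exact_mod_cast hb1
    have hdr0 : (0 : ℝ) < d := by exact_mod_cast hd1
    have hc : ∀ a : (ZMod q)ˣ, cn q u v d (a : ZMod q).val =
        ((Ioc (u / d) (v / d)).filter (fun r : ℕ => (d : ZMod q) * r = a)).card := by
      intro a
      rw [cn_eq hd1, ZMod.natCast_zmod_val]
    have h1 := diff_counts (q := q) (Ioc (u / d) (v / d)) (Ij u v D0 H j) d
    have hs1 : ((Ioc (u / d) (v / d) \ Ij u v D0 H j).card : ℝ) ≤ (v : ℝ) * H / (b : ℝ) ^ 2 + 1 := by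
      have hsub : Ioc (u / d) (v / d) \ Ij u v D0 H j ⊆ Ioc (u / d) (u / b) := by
        intro r hr
        rw [mem_sdiff, mem_Ioc] at hr
        unfold Ij at hr
        rw [mem_Ioc, ← hb] at hr
        rw [mem_Ioc]
        have : v / d ≤ v / b := Nat.div_le_div_left hd.1.le (by omega)
        omega
      have h2 := card_le_card hsub
      rw [Nat.card_Ioc] at h2
      have h3 := div_diff u b d H hb1 hd.1.le hd.2
      have h4 : u / d ≤ u / b := Nat.div_le_div_left hd.1.le (by omega)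
      have h5 : ((Ioc (u / d) (v / d) \ Ij u v D0 H j).card : ℝ) ≤ ((u / b : ℕ) : ℝ) - ((u / d : ℕ) : ℝ) := by
        rw [← Nat.cast_sub h4]; exact_mod_cast h2
      have h6 : (u : ℝ) * H / (b : ℝ) ^ 2 ≤ (v : ℝ) * H / (b : ℝ) ^ 2 := by
        have : (u : ℝ) ≤ v := by exact_mod_cast huv
        gcongr
      linarith
    have hs2 : ((Ij u v D0 H j \ Ioc (u / d) (v / d)).card : ℝ) ≤ (v : ℝ) * H / (b : ℝ) ^ 2 + 1 := by
      have hsub : Ij u v D0 H j \ Ioc (u / d) (v / d) ⊆ Ioc (v / d) (v / b) := by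
        intro r hr
        rw [mem_sdiff] at hr
        unfold Ij at hr
        rw [mem_Ioc, mem_Ioc, ← hb] at hr
        rw [mem_Ioc]
        have : u / d ≤ u / b := Nat.div_le_div_left hd.1.le (by omega)
        omega
      have h2 := card_le_card hsub
      rw [Nat.card_Ioc] at h2
      have h3 := div_diff v b d H hb1 hd.1.le hd.2
      have h4 : v / d ≤ v / b := Nat.div_le_div_left hd.1.le (by omega)
      have h5 : ((Ij u v D0 H j \ Ioc (u / d) (v / d)).card : ℝ) ≤ ((v / b : ℕ) : ℝ) - ((v / d : ℕ) : ℝ) := by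
        rw [← Nat.cast_sub h4]; exact_mod_cast h2
      linarith
    -- the main terms
    have hm : (Nat.totient q : ℝ) * |((v : ℝ) - u) / (d * q) -
        (((Ij u v D0 H j).filter (fun r => r.Coprime q)).card : ℝ) / Nat.totient q| ≤ (v : ℝ) * H / (b : ℝ) ^ 2 + 2 := by
      have hle : u / b ≤ v / b := Nat.div_le_div_right huv
      have h2 := cop_count hq (u / b) (v / b) hle
      have h3 := div_sub_le u v b hb1
      have huvr : (u : ℝ) ≤ v := by exact_mod_cast huv
      have h4 : 0 ≤ ((v : ℝ) - u) / b - ((v : ℝ) - u) / d ∧ ((v : ℝ) - u) / b - ((v : ℝ) - u) / d ≤ (v : ℝ) * H / (b : ℝ) ^ 2 := by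
        have hbd : (b : ℝ) ≤ d := by exact_mod_cast hd.1.le
        have hdbH : (d : ℝ) ≤ b + H := by exact_mod_cast hd.2
        constructor
        · rw [sub_nonneg]
          exact div_le_div_of_nonneg_left (by linarith) hb0 hbd
        · rw [div_sub_div _ _ hb0.ne' hdr0.ne', div_le_div_iff₀ (by positivity) (by positivity)]
          calc (((v : ℝ) - u) * d - b * (v - u)) * b ^ 2 = ((v - u) * (d - b)) * (b * b) := by ring
            _ ≤ (v * H) * (b * d) := by
                apply mul_le_mul _ _ (by positivity) (by positivity)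
                · apply mul_le_mul _ (by linarith) (by linarith) hv0
                  have : (0 : ℝ) ≤ u := Nat.cast_nonneg u
                  linarith
                · exact mul_le_mul_of_nonneg_left hbd hb0.le
      set n0 := (((Ij u v D0 H j).filter (fun r => r.Coprime q)).card : ℝ) with hn0
      have hn0' : n0 = (((Ioc (u / b) (v / b)).filter (fun r => r.Coprime q)).card : ℝ) := rfl
      rw [← hn0'] at h2
      have hκ : (Nat.totient q : ℝ) / q ≤ 1 := by rw [div_le_one hq0]; exact hφq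
      have hκ0 : 0 ≤ (Nat.totient q : ℝ) / q := by positivity
      have e1 : (Nat.totient q : ℝ) * |((v : ℝ) - u) / (d * q) - n0 / Nat.totient q| =
          |((v : ℝ) - u) / d * ((Nat.totient q : ℝ) / q) - n0| := by
        rw [← abs_of_pos hφ, ← abs_mul, abs_of_pos hφ]
        congr 1
        field_simp
      rw [e1]
      set κ := (Nat.totient q : ℝ) / q with hκd
      rw [mul_div_assoc, ← hκd] at h2
      have e2 : ((v : ℝ) - u) / d * κ - n0 = -(n0 - (((v / b : ℕ) : ℝ) - ((u / b : ℕ) : ℝ)) * κ) -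
          κ * ((((v / b : ℕ) : ℝ) - ((u / b : ℕ) : ℝ)) - ((v : ℝ) - u) / b) -
          κ * (((v : ℝ) - u) / b - ((v : ℝ) - u) / d) := by ring
      rw [e2]
      have a1 : |-(n0 - (((v / b : ℕ) : ℝ) - ((u / b : ℕ) : ℝ)) * κ)| ≤ 1 := by rw [abs_neg]; exact h2
      have a2 : |κ * ((((v / b : ℕ) : ℝ) - ((u / b : ℕ) : ℝ)) - ((v : ℝ) - u) / b)| ≤ 1 := by
        rw [abs_mul, abs_of_nonneg hκ0]
        exact mul_le_one₀ hκ (abs_nonneg _) h3
      have a3 : |κ * (((v : ℝ) - u) / b - ((v : ℝ) - u) / d)| ≤ (v : ℝ) * H / (b : ℝ) ^ 2 := by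
        rw [abs_mul, abs_of_nonneg hκ0, abs_of_nonneg h4.1]
        calc κ * (((v : ℝ) - u) / b - ((v : ℝ) - u) / d) ≤ 1 * (((v : ℝ) - u) / b - ((v : ℝ) - u) / d) :=
              mul_le_mul_of_nonneg_right hκ h4.1
          _ ≤ _ := by rw [one_mul]; exact h4.2
      have b1 := abs_sub (-(n0 - (((v / b : ℕ) : ℝ) - ((u / b : ℕ) : ℝ)) * κ) -
          κ * ((((v / b : ℕ) : ℝ) - ((u / b : ℕ) : ℝ)) - ((v : ℝ) - u) / b)) (κ * (((v : ℝ) - u) / b - ((v : ℝ) - u) / d))
      have b2 := abs_sub (-(n0 - (((v / b : ℕ) : ℝ) - ((u / b : ℕ) : ℝ)) * κ)) (κ * ((((v / b : ℕ) : ℝ) - ((u / b : ℕ) : ℝ)) - ((v : ℝ) - u) / b))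
      linarith
    have hcu : ((univ : Finset (ZMod q)ˣ).card : ℝ) = Nat.totient q := by
      rw [card_univ, ZMod.card_units_eq_totient]
    calc _ ≤ ∑ a : (ZMod q)ˣ, B * (|(((((Ioc (u / d) (v / d)).filter (fun r : ℕ => (d : ZMod q) * r = a)).card : ℕ) : ℝ) -
        ((((Ij u v D0 H j).filter (fun r : ℕ => (d : ZMod q) * r = a)).card : ℕ) : ℝ))| +
        |((v : ℝ) - u) / (d * q) - (((Ij u v D0 H j).filter (fun r => r.Coprime q)).card : ℝ) / Nat.totient q|) := by
          apply sum_le_sum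
          intro a _
          rw [abs_mul, hc a]
          apply mul_le_mul (hα d) (abs_sub _ _) (abs_nonneg _) hB
      _ = B * (∑ a : (ZMod q)ˣ, |(((((Ioc (u / d) (v / d)).filter (fun r : ℕ => (d : ZMod q) * r = a)).card : ℕ) : ℝ) -
        ((((Ij u v D0 H j).filter (fun r : ℕ => (d : ZMod q) * r = a)).card : ℕ) : ℝ))| +
        (Nat.totient q : ℝ) * |((v : ℝ) - u) / (d * q) - (((Ij u v D0 H j).filter (fun r => r.Coprime q)).card : ℝ) / Nat.totient q|) := by
          rw [← mul_sum, sum_add_distrib, sum_const, nsmul_eq_mul, hcu]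
      _ ≤ B * (3 * (v * H / (b : ℝ) ^ 2) + 4) := by
          apply mul_le_mul_of_nonneg_left _ hB
          linarith
  calc ∑ a : (ZMod q)ˣ, |EB q α u v D0 H J (a : ZMod q).val - YY α u v D0 H J (a : ZMod q)|
      ≤ ∑ a : (ZMod q)ˣ, ∑ j ∈ range J, ∑ d ∈ Pj D0 H j, |α d * (((cn q u v d (a : ZMod q).val : ℝ) -
        ((((Ij u v D0 H j).filter (fun r : ℕ => (d : ZMod q) * r = a)).card : ℕ) : ℝ)) -
        (((v : ℝ) - u) / (d * q) - (((Ij u v D0 H j).filter (fun r => r.Coprime q)).card : ℝ) / Nat.totient q))| := by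
        apply sum_le_sum
        intro a _
        rw [ex a]
        refine (abs_sum_le_sum_abs _ _).trans (sum_le_sum fun j _ => abs_sum_le_sum_abs _ _)
    _ = ∑ j ∈ range J, ∑ d ∈ Pj D0 H j, ∑ a : (ZMod q)ˣ, |α d * (((cn q u v d (a : ZMod q).val : ℝ) -
        ((((Ij u v D0 H j).filter (fun r : ℕ => (d : ZMod q) * r = a)).card : ℕ) : ℝ)) -
        (((v : ℝ) - u) / (d * q) - (((Ij u v D0 H j).filter (fun r => r.Coprime q)).card : ℝ) / Nat.totient q))| := by
        rw [sum_comm]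
        apply sum_congr rfl
        intro j _
        rw [sum_comm]
    _ ≤ ∑ j ∈ range J, ∑ d ∈ Pj D0 H j, B * (3 * (v * H / (aj D0 H j : ℝ) ^ 2) + 4) :=
        sum_le_sum fun j hj => sum_le_sum fun d hd => hone j hj d hd
    _ = ∑ j ∈ range J, B * (3 * (v * (H / (aj D0 H j : ℝ)) * (H / (aj D0 H j : ℝ))) + 4 * H) := by
        apply sum_congr rfl
        intro j _
        have hb0 : (0 : ℝ) < aj D0 H j := by exact_mod_cast haj j
        rw [sum_const, nsmul_eq_mul]
        unfold Pj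
        rw [Nat.card_Ioc, Nat.add_sub_cancel_left]
        field_simp
    _ ≤ ∑ j ∈ range J, B * (3 * (v * θ * (1 / ((j : ℝ) + 1))) + 4 * H) := by
        apply sum_le_sum
        intro j _
        have hb0 : (0 : ℝ) < aj D0 H j := by exact_mod_cast haj j
        apply mul_le_mul_of_nonneg_left _ hB
        have h1 : H / (aj D0 H j : ℝ) ≤ θ := by
          rw [div_le_iff₀ hb0]; exact hajθ j
        have h2 : H / (aj D0 H j : ℝ) ≤ 1 / ((j : ℝ) + 1) := by
          rw [div_le_div_iff₀ hb0 (by positivity)]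
          have := hajH j
          linarith
        have h3 : (v : ℝ) * (H / (aj D0 H j : ℝ)) * (H / (aj D0 H j : ℝ)) ≤ v * θ * (1 / ((j : ℝ) + 1)) := by
          apply mul_le_mul _ h2 (by positivity) (by positivity)
          gcongr
        linarith
    _ = B * (3 * v * θ * ∑ j ∈ range J, 1 / ((j : ℝ) + 1) + 4 * (J * H)) := by
        rw [← mul_sum, sum_add_distrib, sum_const, card_range, nsmul_eq_mul, ← mul_sum, ← mul_sum]
        ring
    _ ≤ B * (3 * v * θ * (1 + Real.log J) + 4 * (J * H)) := by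
        apply mul_le_mul_of_nonneg_left _ hB
        have := mul_le_mul_of_nonneg_left (harm J) (show 0 ≤ 3 * (v : ℝ) * θ by positivity)
        linarith

open Classical in
theorem block2 {q u v D0 H J : ℕ} [NeZero q] (hD0 : 1 ≤ D0) (hH : q ≤ H) (hHD : H ≤ D0)
    {s B : ℝ} (hs : 0 ≤ s) (α : ℕ → ℝ) (hB : 0 ≤ B) (hα : ∀ d, |α d| ≤ B)
    (hS : ∀ j < J, ∀ χ : DirichletCharacter ℂ q, χ ≠ 1 →
      ‖∑ r ∈ Ij u v D0 H j, χ (r : ZMod q)‖ ≤ s * (v / (aj D0 H j : ℝ))) :
    ∑ a : (ZMod q)ˣ, (YY α u v D0 H J (a : ZMod q)) ^ 2 ≤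
      2 * B ^ 2 * s ^ 2 * (v : ℝ) ^ 2 / q * (1 + Real.log J) ^ 2 := by
  have hq1 : 1 ≤ q := NeZero.one_le
  have hq0 : (0 : ℝ) < q := by exact_mod_cast hq1
  have hHr : (0 : ℝ) < H := by exact_mod_cast (by omega : 0 < H)
  have hHq : (q : ℝ) ≤ H := by exact_mod_cast hH
  have haj : ∀ j, 1 ≤ aj D0 H j := fun j => by unfold aj; omega
  have hajH : ∀ j : ℕ, ((j : ℝ) + 1) * H ≤ aj D0 H j := by
    intro j
    unfold aj
    push_cast
    have : (H : ℝ) ≤ D0 := by exact_mod_cast hHD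
    linarith
  -- the number of the elements of a block in a class
  have hblk : ∀ j : ℕ, ∑ a : (ZMod q)ˣ, (∑ d ∈ (Pj D0 H j).filter (fun d : ℕ => (d : ZMod q) = a), α d) ^ 2 ≤
      B ^ 2 * (2 * (H : ℝ) ^ 2 / q) := by
    intro j
    have hcl : ∀ a : (ZMod q)ˣ, (((Pj D0 H j).filter (fun d : ℕ => (d : ZMod q) = a)).card : ℝ) ≤ 2 * H / q := by
      intro a
      have h1 : (Pj D0 H j).filter (fun d : ℕ => (d : ZMod q) = a) =
          (Ioc (aj D0 H j) (aj D0 H j + H)).filter (fun d => d ≡ (a : ZMod q).val [MOD q]) := by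
        unfold Pj
        apply filter_congr
        intro d _
        rw [← ZMod.natCast_eq_natCast_iff, ZMod.natCast_zmod_val]
      rw [h1]
      have h2 := Nat.Ioc_filter_modEq_card (aj D0 H j) (aj D0 H j + H) (r := q) (by omega) (a : ZMod q).val
      have h3 : (((((Ioc (aj D0 H j) (aj D0 H j + H)).filter (fun d => d ≡ (a : ZMod q).val [MOD q])).card : ℤ) : ℚ) : ℝ) ≤
          (H : ℝ) / q + 1 := by
        rw [h2]
        push_cast
        apply max_le _ (by positivity)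
        set b : ℝ := (((aj D0 H j : ℕ) : ℚ) : ℝ) with hb
        have h4 : ((⌊((((aj D0 H j : ℕ) : ℚ) + (H : ℚ)) - ((a : ZMod q).val : ℚ)) / q⌋ : ℤ) : ℝ) ≤
            ((aj D0 H j : ℝ) + H - (a : ZMod q).val) / q := by
          have := Int.floor_le (((((aj D0 H j : ℕ) : ℚ) + (H : ℚ)) - ((a : ZMod q).val : ℚ)) / q)
          have h5 : (((⌊((((aj D0 H j : ℕ) : ℚ) + (H : ℚ)) - ((a : ZMod q).val : ℚ)) / q⌋ : ℤ) : ℚ) : ℝ) ≤
            ((((((aj D0 H j : ℕ) : ℚ) + (H : ℚ)) - ((a : ZMod q).val : ℚ)) / q : ℚ) : ℝ) := by exact_mod_cast this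
          push_cast at h5
          exact h5
        have h6 : ((aj D0 H j : ℝ) - (a : ZMod q).val) / q < ((⌊((((aj D0 H j : ℕ) : ℚ)) - ((a : ZMod q).val : ℚ)) / q⌋ : ℤ) : ℝ) + 1 := by
          have := Int.lt_floor_add_one (((((aj D0 H j : ℕ) : ℚ)) - ((a : ZMod q).val : ℚ)) / q)
          have h5 : ((((((aj D0 H j : ℕ) : ℚ)) - ((a : ZMod q).val : ℚ)) / q : ℚ) : ℝ) <
            (((⌊((((aj D0 H j : ℕ) : ℚ)) - ((a : ZMod q).val : ℚ)) / q⌋ : ℤ) : ℚ) + 1 : ℚ) := by exact_mod_cast this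
          push_cast at h5
          exact h5
        have h7 : ((aj D0 H j : ℝ) + H - (a : ZMod q).val) / q = H / q + ((aj D0 H j : ℝ) - (a : ZMod q).val) / q := by ring
        linarith
      have h4 : (((Ioc (aj D0 H j) (aj D0 H j + H)).filter (fun d => d ≡ (a : ZMod q).val [MOD q])).card : ℝ) ≤ (H : ℝ) / q + 1 := by
        exact_mod_cast h3
      refine h4.trans ?_
      have h5 : 1 ≤ (H : ℝ) / q := by rw [le_div_iff₀ hq0]; linarith
      rw [mul_div_assoc]
      linarith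
    have htot : ∑ a : (ZMod q)ˣ, (((Pj D0 H j).filter (fun d : ℕ => (d : ZMod q) = a)).card : ℝ) ≤ H := by
      have h3 : ∑ a : (ZMod q)ˣ, ((Pj D0 H j).filter (fun d : ℕ => (d : ZMod q) = a)).card ≤ (Pj D0 H j).card := by
        rw [← card_biUnion]
        · apply card_le_card
          intro r hr
          rw [mem_biUnion] at hr
          obtain ⟨a, _, ha⟩ := hr
          exact (mem_filter.1 ha).1
        · intro a _ b _ hab
          rw [Function.onFun, disjoint_left]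
          intro r hr hr'
          apply hab
          rw [mem_filter] at hr hr'
          exact Units.ext (hr.2.symm.trans hr'.2)
      have h4 : (Pj D0 H j).card = H := by
        unfold Pj
        rw [Nat.card_Ioc]
        omega
      rw [h4] at h3
      exact_mod_cast h3
    calc ∑ a : (ZMod q)ˣ, (∑ d ∈ (Pj D0 H j).filter (fun d : ℕ => (d : ZMod q) = a), α d) ^ 2
        ≤ ∑ a : (ZMod q)ˣ, B ^ 2 * ((2 * H / q) * (((Pj D0 H j).filter (fun d : ℕ => (d : ZMod q) = a)).card : ℝ)) := by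
          apply sum_le_sum
          intro a _
          set n := (((Pj D0 H j).filter (fun d : ℕ => (d : ZMod q) = a)).card : ℝ) with hn
          have h1 : |∑ d ∈ (Pj D0 H j).filter (fun d : ℕ => (d : ZMod q) = a), α d| ≤ n * B := by
            refine (abs_sum_le_sum_abs _ _).trans ?_
            refine (sum_le_sum fun d _ => hα d).trans (le_of_eq ?_)
            rw [sum_const, nsmul_eq_mul]
          have h2 : (∑ d ∈ (Pj D0 H j).filter (fun d : ℕ => (d : ZMod q) = a), α d) ^ 2 ≤ (n * B) ^ 2 := by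
            rw [← sq_abs]
            exact pow_le_pow_left₀ (abs_nonneg _) h1 2
          have hn0 : 0 ≤ n := Nat.cast_nonneg _
          calc _ ≤ (n * B) ^ 2 := h2
            _ = B ^ 2 * (n * n) := by ring
            _ ≤ B ^ 2 * ((2 * H / q) * n) := by
                apply mul_le_mul_of_nonneg_left _ (sq_nonneg B)
                exact mul_le_mul_of_nonneg_right (hcl a) hn0
      _ = B ^ 2 * ((2 * H / q) * ∑ a : (ZMod q)ˣ, (((Pj D0 H j).filter (fun d : ℕ => (d : ZMod q) = a)).card : ℝ)) := by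
          rw [← mul_sum, ← mul_sum]
      _ ≤ B ^ 2 * ((2 * H / q) * H) := by gcongr
      _ = B ^ 2 * (2 * (H : ℝ) ^ 2 / q) := by ring
  -- one block
  have hone : ∀ j ∈ range J, ∑ a : (ZMod q)ˣ, (FF α (Pj D0 H j) (Ij u v D0 H j) (a : ZMod q) -
      cF q α (Pj D0 H j) (Ij u v D0 H j)) ^ 2 ≤ (2 * B ^ 2 * s ^ 2 * (v : ℝ) ^ 2 / q) * (1 / ((j : ℝ) + 1)) ^ 2 := by
    intro j hj
    have hb0 : (0 : ℝ) < aj D0 H j := by exact_mod_cast haj j
    refine (conv α (Pj D0 H j) (Ij u v D0 H j) (s * (v / (aj D0 H j : ℝ))) (hS j (mem_range.1 hj))).trans ?_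
    have h1 : H / (aj D0 H j : ℝ) ≤ 1 / ((j : ℝ) + 1) := by
      rw [div_le_div_iff₀ hb0 (by positivity)]
      have := hajH j
      linarith
    calc (s * (v / (aj D0 H j : ℝ))) ^ 2 * ∑ a : (ZMod q)ˣ, (∑ d ∈ (Pj D0 H j).filter (fun d : ℕ => (d : ZMod q) = a), α d) ^ 2
        ≤ (s * (v / (aj D0 H j : ℝ))) ^ 2 * (B ^ 2 * (2 * (H : ℝ) ^ 2 / q)) :=
          mul_le_mul_of_nonneg_left (hblk j) (sq_nonneg _)
      _ = (2 * B ^ 2 * s ^ 2 * (v : ℝ) ^ 2 / q) * (H / (aj D0 H j : ℝ)) ^ 2 := by field_simp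
      _ ≤ (2 * B ^ 2 * s ^ 2 * (v : ℝ) ^ 2 / q) * (1 / ((j : ℝ) + 1)) ^ 2 := by gcongr
  have hcs : ∀ a : (ZMod q)ˣ, (YY α u v D0 H J (a : ZMod q)) ^ 2 ≤
      (∑ j ∈ range J, 1 / ((j : ℝ) + 1)) * ∑ j ∈ range J, ((j : ℝ) + 1) *
        (FF α (Pj D0 H j) (Ij u v D0 H j) (a : ZMod q) - cF q α (Pj D0 H j) (Ij u v D0 H j)) ^ 2 := by
    intro a
    unfold YY
    apply sum_sq_le_sum_mul_sum_of_sq_eq_mul
    · intro j _; positivity
    · intro j _; positivity
    · intro j _
      have : ((j : ℝ) + 1) ≠ 0 := by positivity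
      field_simp
  have hJ := harm J
  have hJ0 : 0 ≤ ∑ j ∈ range J, 1 / ((j : ℝ) + 1) := sum_nonneg fun _ _ => by positivity
  calc ∑ a : (ZMod q)ˣ, (YY α u v D0 H J (a : ZMod q)) ^ 2
      ≤ ∑ a : (ZMod q)ˣ, (∑ j ∈ range J, 1 / ((j : ℝ) + 1)) * ∑ j ∈ range J, ((j : ℝ) + 1) *
        (FF α (Pj D0 H j) (Ij u v D0 H j) (a : ZMod q) - cF q α (Pj D0 H j) (Ij u v D0 H j)) ^ 2 :=
        sum_le_sum fun a _ => hcs a
    _ = (∑ j ∈ range J, 1 / ((j : ℝ) + 1)) * ∑ j ∈ range J, ((j : ℝ) + 1) * ∑ a : (ZMod q)ˣ,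
        (FF α (Pj D0 H j) (Ij u v D0 H j) (a : ZMod q) - cF q α (Pj D0 H j) (Ij u v D0 H j)) ^ 2 := by
        rw [← mul_sum, sum_comm]
        congr 1
        apply sum_congr rfl
        intro j _
        rw [mul_sum]
    _ ≤ (∑ j ∈ range J, 1 / ((j : ℝ) + 1)) * ∑ j ∈ range J, ((j : ℝ) + 1) *
        ((2 * B ^ 2 * s ^ 2 * (v : ℝ) ^ 2 / q) * (1 / ((j : ℝ) + 1)) ^ 2) := by
        apply mul_le_mul_of_nonneg_left _ hJ0
        apply sum_le_sum
        intro j hj
        exact mul_le_mul_of_nonneg_left (hone j hj) (by positivity)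
    _ = (2 * B ^ 2 * s ^ 2 * (v : ℝ) ^ 2 / q) * (∑ j ∈ range J, 1 / ((j : ℝ) + 1)) ^ 2 := by
        have : ∀ j ∈ range J, ((j : ℝ) + 1) * ((2 * B ^ 2 * s ^ 2 * (v : ℝ) ^ 2 / q) * (1 / ((j : ℝ) + 1)) ^ 2) =
            (2 * B ^ 2 * s ^ 2 * (v : ℝ) ^ 2 / q) * (1 / ((j : ℝ) + 1)) := by
          intro j _
          have : ((j : ℝ) + 1) ≠ 0 := by positivity
          field_simp
        rw [sum_congr rfl this, ← mul_sum]
        ring
    _ ≤ (2 * B ^ 2 * s ^ 2 * (v : ℝ) ^ 2 / q) * (1 + Real.log J) ^ 2 := by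
        gcongr

end Pool.Agent.R502.BL
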