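import Pool.Agent.Y165.HN.Burg

/-! Burgess' bound with a power saving, for prime moduli (after `Pool.Agent.H471R4.BW.BFM`). -/

set_option autoImplicit false
set_option maxHeartbeats 4000000

namespace Pool.Agent.R502.BL

open Finset Filter
open Pool.Agent.H471R4.BW

theorem bur_core (h : BIN) (δ η κ : ℝ) (K : ℕ → ℝ) (hδ : 0 < δ) (hδ1 : δ ≤ 1)
    (hη : 0 < η) (hK : ∀ r, 0 ≤ K r) (r : ℕ) (hr : 1 ≤ r) (hrη : 1 / (2 * (r : ℝ)) ≤ η)
    (N : ℕ) (hN3 : (3 : ℝ) ≤ N)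
    (ha : 2 * (N : ℝ) ^ (1 / (2 * (r : ℝ))) ≤ (N : ℝ) ^ κ)
    (hb : 200 ≤ δ * (N : ℝ) ^ (1 / 4 : ℝ) / 32)
    (hc : 8 * (Real.log N) ^ 2 ≤ δ * (N : ℝ) ^ (1 / 4 : ℝ) / 32)
    (hd : 3 * ((r : ℝ) ^ (2 * r) + K r) * 128 * Real.log N ≤
      ((δ / 2) ^ (2 * r) * δ) * (N : ℝ) ^ η)
    [NeZero N] (χ : DirichletCharacter ℂ N) (hF : Fam κ K N χ) (X : ℕ)
    (hX1 : (N : ℝ) ^ (1 / 4 + η) ≤ X) (hX2 : (X : ℝ) ^ 2 ≤ N * (N : ℝ) ^ (1 / (2 * (r : ℝ)))) :
    ‖shortSum N χ X‖ ≤ δ * X := by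
  have hNpos : (0 : ℝ) < N := by linarith
  have hN1 : (1 : ℝ) ≤ N := by linarith
  have hr' : (1 : ℝ) ≤ r := by exact_mod_cast hr
  set s : ℝ := 1 / (2 * (r : ℝ)) with hs
  have hs0 : 0 < s := by positivity
  have hNs1 : 1 ≤ (N : ℝ) ^ s := Real.one_le_rpow hN1 hs0.le
  set B : ℕ := ⌈(N : ℝ) ^ s⌉₊ with hB
  have hB1 : (N : ℝ) ^ s ≤ B := Nat.le_ceil _
  have hB2 : (B : ℝ) ≤ 2 * (N : ℝ) ^ s := by
    have := (Nat.ceil_lt_add_one (by linarith : (0 : ℝ) ≤ (N : ℝ) ^ s)).le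
    linarith
  have hBone : (1 : ℝ) ≤ B := hNs1.trans hB1
  have hBpos : (0 : ℝ) < B := by linarith
  have hX0 : (1 : ℝ) ≤ X := by
    refine le_trans ?_ hX1
    exact Real.one_le_rpow hN1 (by linarith)
  have hXpos : (0 : ℝ) < X := by linarith
  set M : ℕ := ⌊δ * X / (8 * B)⌋₊ with hM
  have hM1 : (M : ℝ) ≤ δ * X / (8 * B) := Nat.floor_le (by positivity)
  have hM2 : δ * X / (8 * B) - 1 < M := Nat.sub_one_lt_floor _
  -- lower bound for `X / B`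
  have hq : (N : ℝ) ^ (1 / 4 : ℝ) * B ≤ 2 * X := by
    have e1 : (N : ℝ) ^ (1 / 4 : ℝ) * (N : ℝ) ^ s ≤ (N : ℝ) ^ (1 / 4 + η) := by
      rw [← Real.rpow_add hNpos]
      exact Real.rpow_le_rpow_of_exponent_le hN1 (by linarith)
    have e2 : 0 ≤ (N : ℝ) ^ (1 / 4 : ℝ) := Real.rpow_nonneg hNpos.le _
    nlinarith
  have hM3 : δ * (N : ℝ) ^ (1 / 4 : ℝ) / 16 ≤ δ * X / (8 * B) := by
    rw [div_le_div_iff₀ (by norm_num) (by positivity)]
    nlinarith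
  have hM4 : δ * (N : ℝ) ^ (1 / 4 : ℝ) / 32 ≤ M := by linarith
  have hM200 : 200 ≤ M := by exact_mod_cast hb.trans hM4
  have hXX : (X : ℝ) * X ≤ N * B := by
    calc (X : ℝ) * X = (X : ℝ) ^ 2 := by ring
      _ ≤ N * (N : ℝ) ^ s := hX2
      _ ≤ N * B := by gcongr
  have hMX : (M : ℝ) * (8 * B) ≤ δ * X := by
    rwa [le_div_iff₀ (by positivity)] at hM1
  have hMpos0 : (0 : ℝ) ≤ M := Nat.cast_nonneg _
  have hMXN : M * X < N := by
    have h1 : ((M : ℝ) * X) * (8 * B) ≤ N * B := by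
      calc ((M : ℝ) * X) * (8 * B) = (M : ℝ) * (8 * B) * X := by ring
        _ ≤ δ * X * X := by gcongr
        _ ≤ 1 * X * X := by gcongr
        _ = (X : ℝ) * X := by ring
        _ ≤ N * B := hXX
    have h2 : ((M : ℝ) * X) * 8 ≤ N := by
      have h3 : (((M : ℝ) * X) * 8) * B ≤ N * B := by linarith
      exact le_of_mul_le_mul_right h3 hBpos
    have : (M : ℝ) * X < N := by nlinarith
    exact_mod_cast this
  have hMN : M ≤ N := by
    have h1 : M ≤ M * X := Nat.le_mul_of_pos_right M (by exact_mod_cast hXpos)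
    omega
  have hcard := bfm_count M N hM200 hMN (hc.trans hM4)
  have hL : 0 < Real.log N := Real.log_pos (by linarith)
  have hMpos : (0 : ℝ) < M := by
    have : (200 : ℝ) ≤ M := by exact_mod_cast hM200
    linarith
  have hcardpos : (0 : ℝ) < (bfmA M N).card := lt_of_lt_of_le (by positivity) hcard
  have hne : (bfmA M N).Nonempty := by
    rw [← card_pos]
    exact_mod_cast hcardpos
  have hBr : Real.sqrt N ≤ (B : ℝ) ^ r := by
    have e1 : ((N : ℝ) ^ s) ^ r = Real.sqrt N := by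
      rw [Real.sqrt_eq_rpow, ← Real.rpow_natCast, ← Real.rpow_mul hNpos.le, hs]
      congr 1
      field_simp
    rw [← e1]
    exact pow_le_pow_left₀ (by linarith) hB1 r
  have hmain := h N χ (bfmA M N) X M B r (K r) hr (hK r) (by exact_mod_cast hBone)
    (by exact_mod_cast hX0) hne (fun a ha => (mem_filter.1 ha).2.1)
    (fun a ha => (mem_filter.1 ha).2.2)
    (fun a ha => Nat.lt_succ_iff.1 (mem_range.1 (mem_filter.1 ha).1)) hMXN hBr
    (hF r B hr (hB2.trans ha))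
  -- the second term
  have hAX : δ * ((N : ℝ) ^ η * Real.sqrt N) / (128 * Real.log N) ≤ (bfmA M N).card * X := by
    have e1 : (N : ℝ) ^ (1 / 4 : ℝ) * (N : ℝ) ^ (1 / 4 + η) = (N : ℝ) ^ η * Real.sqrt N := by
      rw [Real.sqrt_eq_rpow, ← Real.rpow_add hNpos, ← Real.rpow_add hNpos]
      congr 1
      ring
    rw [← e1]
    have e2 : δ * (N : ℝ) ^ (1 / 4 : ℝ) / (128 * Real.log N) ≤ (bfmA M N).card := by
      refine le_trans ?_ hcard
      rw [div_le_div_iff₀ (by positivity) (by positivity)]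
      nlinarith
    have e3 : 0 ≤ (N : ℝ) ^ (1 / 4 + η) := Real.rpow_nonneg hNpos.le _
    calc δ * ((N : ℝ) ^ (1 / 4 : ℝ) * (N : ℝ) ^ (1 / 4 + η)) / (128 * Real.log N)
        = (δ * (N : ℝ) ^ (1 / 4 : ℝ) / (128 * Real.log N)) * (N : ℝ) ^ (1 / 4 + η) := by ring
      _ ≤ (bfmA M N).card * X := mul_le_mul e2 hX1 e3 hcardpos.le
  have hsq : 0 < Real.sqrt N := Real.sqrt_pos.2 hNpos
  have hNη : 0 < (N : ℝ) ^ η := Real.rpow_pos_of_pos hNpos _
  have hKr := hK r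
  have hQ : 3 * ((r : ℝ) ^ (2 * r) + K r) * Real.sqrt N / ((bfmA M N).card * X) ≤
      (δ / 2) ^ (2 * r) := by
    rw [div_le_iff₀ (by positivity)]
    have e1 : 3 * ((r : ℝ) ^ (2 * r) + K r) * Real.sqrt N ≤
        (δ / 2) ^ (2 * r) * (δ * ((N : ℝ) ^ η * Real.sqrt N) / (128 * Real.log N)) := by
      rw [mul_div_assoc', le_div_iff₀ (by positivity)]
      have := mul_le_mul_of_nonneg_right hd hsq.le
      nlinarith
    exact e1.trans (mul_le_mul_of_nonneg_left hAX (by positivity))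
  have hQ0 : 0 ≤ 3 * ((r : ℝ) ^ (2 * r) + K r) * Real.sqrt N / ((bfmA M N).card * X) := by
    positivity
  have hroot : (3 * ((r : ℝ) ^ (2 * r) + K r) * Real.sqrt N / ((bfmA M N).card * X)) ^
      (1 / (2 * r : ℝ)) ≤ δ / 2 := by
    calc (3 * ((r : ℝ) ^ (2 * r) + K r) * Real.sqrt N / ((bfmA M N).card * X)) ^
      (1 / (2 * r : ℝ)) ≤ ((δ / 2) ^ (2 * r)) ^ (1 / (2 * r : ℝ)) :=
          Real.rpow_le_rpow hQ0 hQ (by positivity)
      _ = δ / 2 := by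
          rw [← Real.rpow_natCast, ← Real.rpow_mul (by positivity)]
          have : ((2 * r : ℕ) : ℝ) * (1 / (2 * r : ℝ)) = 1 := by
            push_cast
            field_simp
          rw [this, Real.rpow_one]
  have hfirst : 2 * (M : ℝ) * B ≤ δ * X / 4 := by linarith
  calc ‖shortSum N χ X‖ ≤ _ := hmain
    _ ≤ δ * X / 4 + X * (δ / 2) := add_le_add hfirst (mul_le_mul_of_nonneg_left hroot hXpos.le)
    _ ≤ δ * X := by nlinarith

/-- **Burgess' bound with a power saving** for the characters modulo a prime `q`: for every `η > 0` there is `δ > 0`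
such that `|∑_{n ≤ X} χ(n)| ≤ X q ^ (-δ)` for `q ^ (1/4 + η) ≤ X ≤ q ^ (1/2 + δ)`. -/
theorem bur (η : ℝ) (hη : 0 < η) : ∃ δ : ℝ, 0 < δ ∧ ∀ᶠ q : ℕ in atTop, q.Prime →
    ∀ χ : DirichletCharacter ℂ q, χ ≠ 1 → ∀ X : ℕ, (q : ℝ) ^ (1 / 4 + η) ≤ X →
      (X : ℝ) ≤ (q : ℝ) ^ (1 / 2 + δ) → ‖shortSum q χ X‖ ≤ (q : ℝ) ^ (-δ) * X := by
  obtain ⟨r, hr⟩ := exists_nat_ge (1 / (2 * η) + 1)
  have hr1 : (1 : ℝ) ≤ r := by
    have : 0 < 1 / (2 * η) := by positivity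
    linarith
  have hr1' : 1 ≤ r := by exact_mod_cast hr1
  have hrη : 1 / (2 * (r : ℝ)) ≤ η := by
    rw [div_le_iff₀ (by positivity)]
    have h1 : 1 / (2 * η) ≤ r := by linarith
    rw [div_le_iff₀ (by positivity)] at h1
    linarith
  set δ : ℝ := min (1 / 8) (min (η / (2 * (2 * r + 1))) (1 / (4 * (r : ℝ)))) with hδ
  have hδ0 : 0 < δ := by
    apply lt_min (by norm_num)
    apply lt_min <;> positivity
  have hδ8 : δ ≤ 1 / 8 := min_le_left _ _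
  have hδη : δ ≤ η / (2 * (2 * r + 1)) := (min_le_right _ _).trans (min_le_left _ _)
  have hδr : δ ≤ 1 / (4 * (r : ℝ)) := (min_le_right _ _).trans (min_le_right _ _)
  refine ⟨δ, hδ0, ?_⟩
  have tc : Tendsto (fun q : ℕ => (q : ℝ)) atTop atTop := tendsto_natCast_atTop_atTop
  have f1 : ∀ᶠ x : ℝ in atTop, 6400 ≤ x ^ (1 / 8 : ℝ) :=
    (tendsto_rpow_atTop (by norm_num : (0 : ℝ) < 1 / 8)).eventually_ge_atTop _
  have f2 : ∀ᶠ x : ℝ in atTop, 256 * Real.log x ^ 2 ≤ x ^ (1 / 8 : ℝ) := by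
    have h1 := (isLittleO_log_rpow_rpow_atTop (2 : ℝ) (show (0 : ℝ) < 1 / 8 by norm_num)).def
      (show (0 : ℝ) < 1 / 256 by norm_num)
    filter_upwards [h1, eventually_ge_atTop 1] with x hx hx1
    have h2 : 0 ≤ Real.log x := Real.log_nonneg hx1
    rw [Real.norm_eq_abs, Real.norm_eq_abs, abs_of_nonneg (by positivity), abs_of_nonneg (by positivity)] at hx
    have h3 : Real.log x ^ (2 : ℝ) = Real.log x ^ 2 := by
      rw [← Real.rpow_natCast]; norm_num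
    rw [h3] at hx
    linarith
  have f3 : ∀ᶠ x : ℝ in atTop, 3 * ((r : ℝ) ^ (2 * r) + 2 * r) * 128 * 2 ^ (2 * r) * Real.log x ≤ x ^ (η / 2) := by
    set c : ℝ := 3 * ((r : ℝ) ^ (2 * r) + 2 * r) * 128 * 2 ^ (2 * r) with hc
    have hc0 : 0 < c := by positivity
    have h1 := (isLittleO_log_rpow_atTop (show (0 : ℝ) < η / 2 by positivity)).def
      (show (0 : ℝ) < 1 / c by positivity)
    filter_upwards [h1, eventually_ge_atTop 1] with x hx hx1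
    have h2 : 0 ≤ Real.log x := Real.log_nonneg hx1
    rw [Real.norm_eq_abs, Real.norm_eq_abs, abs_of_nonneg h2, abs_of_nonneg (by positivity)] at hx
    calc c * Real.log x ≤ c * (1 / c * x ^ (η / 2)) := by gcongr
      _ = x ^ (η / 2) := by field_simp
  have f4 : ∀ᶠ x : ℝ in atTop, 2 ≤ x ^ (1 / 2 : ℝ) :=
    (tendsto_rpow_atTop (by norm_num : (0 : ℝ) < 1 / 2)).eventually_ge_atTop _
  filter_upwards [tc.eventually f1, tc.eventually f2, tc.eventually f3, tc.eventually f4, eventually_ge_atTop 3]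
    with q g1 g2 g3 g4 hq3
  intro hqp χ hχ X hX1 hX2
  haveI : Fact q.Prime := ⟨hqp⟩
  haveI : NeZero q := ⟨hqp.ne_zero⟩
  have hq3r : (3 : ℝ) ≤ q := by exact_mod_cast hq3
  have hq0 : (0 : ℝ) < q := by linarith
  have hq1 : (1 : ℝ) ≤ q := by linarith
  have hdl : (q : ℝ) ^ (1 / 8 : ℝ) ≤ (q : ℝ) ^ (-δ) * (q : ℝ) ^ (1 / 4 : ℝ) := by
    rw [← Real.rpow_add hq0]
    exact Real.rpow_le_rpow_of_exponent_le hq1 (by linarith)
  have hdel1 : (q : ℝ) ^ (-δ) ≤ 1 := Real.rpow_le_one_of_one_le_of_nonpos hq1 (by linarith)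
  apply bur_core (bin (mom tup) nu1 nu2b shf hol) ((q : ℝ) ^ (-δ)) η 1 (fun r => 2 * (r : ℝ))
    (Real.rpow_pos_of_pos hq0 _) hdel1 hη (fun r => by positivity) r hr1' hrη q hq3r
  · rw [Real.rpow_one]
    have h1 : (q : ℝ) ^ (1 / (2 * (r : ℝ))) ≤ (q : ℝ) ^ (1 / 2 : ℝ) := by
      apply Real.rpow_le_rpow_of_exponent_le hq1
      apply one_div_le_one_div_of_le (by norm_num)
      linarith
    have h2 : (q : ℝ) ^ (1 / 2 : ℝ) * (q : ℝ) ^ (1 / 2 : ℝ) = q := by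
      rw [← Real.rpow_add hq0]; norm_num
    nlinarith
  · linarith
  · linarith
  · have h1 : ((q : ℝ) ^ (-δ) / 2) ^ (2 * r) * (q : ℝ) ^ (-δ) = (q : ℝ) ^ (-((2 * r + 1) * δ)) / 2 ^ (2 * r) := by
      rw [div_pow, ← Real.rpow_natCast ((q : ℝ) ^ (-δ)), ← Real.rpow_mul hq0.le, div_mul_eq_mul_div, ← Real.rpow_add hq0]
      congr 2
      push_cast
      ring
    rw [h1]
    have h2 : (q : ℝ) ^ (η / 2) ≤ (q : ℝ) ^ (-((2 * r + 1) * δ)) * (q : ℝ) ^ η := by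
      rw [← Real.rpow_add hq0]
      apply Real.rpow_le_rpow_of_exponent_le hq1
      have h3 : (2 * (r : ℝ) + 1) * δ ≤ (2 * r + 1) * (η / (2 * (2 * r + 1))) := by gcongr
      have h4 : (2 * (r : ℝ) + 1) * (η / (2 * (2 * r + 1))) = η / 2 := by field_simp
      linarith
    rw [div_mul_eq_mul_div, le_div_iff₀ (by positivity)]
    calc 3 * ((r : ℝ) ^ (2 * r) + 2 * r) * 128 * Real.log q * 2 ^ (2 * r)
        = 3 * ((r : ℝ) ^ (2 * r) + 2 * r) * 128 * 2 ^ (2 * r) * Real.log q := by ring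
      _ ≤ (q : ℝ) ^ (η / 2) := g3
      _ ≤ _ := h2
  · exact Pool.Agent.Y165.HN.fam_all q χ hχ
  · exact hX1
  · calc (X : ℝ) ^ 2 ≤ ((q : ℝ) ^ (1 / 2 + δ)) ^ 2 := pow_le_pow_left₀ (by positivity) hX2 2
      _ = (q : ℝ) ^ (1 + 2 * δ) := by
          rw [← Real.rpow_natCast, ← Real.rpow_mul hq0.le]
          congr 1
          push_cast
          ring
      _ ≤ (q : ℝ) ^ (1 + 1 / (2 * (r : ℝ))) := by
          apply Real.rpow_le_rpow_of_exponent_le hq1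
          have h5 : 2 * (1 / (4 * (r : ℝ))) = 1 / (2 * (r : ℝ)) := by field_simp; ring
          linarith
      _ = q * (q : ℝ) ^ (1 / (2 * (r : ℝ))) := by rw [Real.rpow_add hq0, Real.rpow_one]

end Pool.Agent.R502.BL
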