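import Pool.Agent.Helper112.MultLS

/-! Multiplicative convolutions modulo `q`: the second moment over the classes. -/

set_option autoImplicit false
set_option maxHeartbeats 4000000

namespace Pool.Agent.R502.BL

open Finset
open Pool.Agent.Helper112.MLS (sum_all)

variable {q : ℕ} [NeZero q]

open Classical in
/-- the multiplicative convolution -/
noncomputable def FF (α : ℕ → ℝ) (P I : Finset ℕ) (a : ZMod q) : ℝ :=
  ∑ d ∈ P, α d * (((I.filter (fun r : ℕ => (d : ZMod q) * r = a)).card : ℕ) : ℝ)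

/-- its mean over the reduced classes -/
noncomputable def cF (q : ℕ) (α : ℕ → ℝ) (P I : Finset ℕ) : ℝ :=
  (∑ d ∈ P.filter (fun d => d.Coprime q), α d) * ((I.filter (fun r => r.Coprime q)).card : ℝ) / Nat.totient q

lemma trans_FF (α : ℕ → ℝ) (P I : Finset ℕ) (χ : DirichletCharacter ℂ q) :
    ∑ a : ZMod q, χ a * (FF α P I a : ℂ) = (∑ d ∈ P, (α d : ℂ) * χ d) * ∑ r ∈ I, χ (r : ZMod q) := by
  classical
  unfold FF
  rw [sum_mul]
  have h0 : ∀ a : ZMod q, χ a * ((∑ d ∈ P, α d * (((I.filter (fun r : ℕ => (d : ZMod q) * r = a)).card : ℕ) : ℝ) : ℝ) : ℂ) =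
      ∑ d ∈ P, χ a * ((α d * (((I.filter (fun r : ℕ => (d : ZMod q) * r = a)).card : ℕ) : ℝ) : ℝ) : ℂ) := by
    intro a
    rw [Complex.ofReal_sum, mul_sum]
  rw [sum_congr rfl fun a _ => h0 a, sum_comm]
  apply sum_congr rfl
  intro d _
  have h1 : ∀ a : ZMod q, χ a * ((α d * (((I.filter (fun r : ℕ => (d : ZMod q) * r = a)).card : ℕ) : ℝ) : ℝ) : ℂ) =
      (α d : ℂ) * ∑ r ∈ I, if (d : ZMod q) * r = a then χ a else 0 := by
    intro a
    rw [← sum_filter, sum_const, nsmul_eq_mul]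
    push_cast
    ring
  rw [sum_congr rfl fun a _ => h1 a, ← mul_sum, sum_comm, mul_assoc]
  congr 1
  rw [mul_sum]
  apply sum_congr rfl
  intro r _
  rw [sum_ite_eq]
  simp

lemma sum_char_one (β : ℕ → ℝ) (P : Finset ℕ) :
    ∑ d ∈ P, (β d : ℂ) * (1 : DirichletCharacter ℂ q) (d : ZMod q) =
      ((∑ d ∈ P.filter (fun d => d.Coprime q), β d : ℝ) : ℂ) := by
  rw [Complex.ofReal_sum, sum_filter]
  apply sum_congr rfl
  intro d _
  split_ifs with h
  · rw [MulChar.one_apply ((ZMod.isUnit_iff_coprime d q).2 h), mul_one]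
  · rw [MulChar.map_nonunit, mul_zero]
    rwa [ZMod.isUnit_iff_coprime]

open Classical in
theorem conv (α : ℕ → ℝ) (P I : Finset ℕ) (S : ℝ)
    (hS : ∀ χ : DirichletCharacter ℂ q, χ ≠ 1 → ‖∑ r ∈ I, χ (r : ZMod q)‖ ≤ S) :
    ∑ a : (ZMod q)ˣ, (FF α P I (a : ZMod q) - cF q α P I) ^ 2 ≤
      S ^ 2 * ∑ a : (ZMod q)ˣ, (∑ d ∈ P.filter (fun d : ℕ => (d : ZMod q) = a), α d) ^ 2 := by
  have hφ : (0 : ℝ) < Nat.totient q := by exact_mod_cast Nat.totient_pos.2 (NeZero.pos q)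
  set c := cF q α P I with hc
  have h1 := sum_all q (fun a => ((FF α P I a - c : ℝ) : ℂ))
  have h2 := sum_all q (fun a : ZMod q => ((∑ d ∈ P.filter (fun d : ℕ => (d : ZMod q) = a), α d : ℝ) : ℂ))
  have e1 : ∀ r : ℝ, ‖(r : ℂ)‖ ^ 2 = r ^ 2 := by
    intro r
    rw [Complex.norm_real, Real.norm_eq_abs, sq_abs]
  simp only [e1] at h1 h2
  have key : ∀ χ : DirichletCharacter ℂ q, ‖∑ a : ZMod q, χ⁻¹ a * ((FF α P I a - c : ℝ) : ℂ)‖ ^ 2 ≤
      S ^ 2 * ‖∑ a : ZMod q, χ⁻¹ a * ((∑ d ∈ P.filter (fun d : ℕ => (d : ZMod q) = a), α d : ℝ) : ℂ)‖ ^ 2 := by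
    intro χ
    have e2 : ∑ a : ZMod q, χ⁻¹ a * ((FF α P I a - c : ℝ) : ℂ) =
        (∑ d ∈ P, (α d : ℂ) * χ⁻¹ (d : ZMod q)) * (∑ r ∈ I, χ⁻¹ (r : ZMod q)) - c * ∑ a : ZMod q, χ⁻¹ a := by
      rw [← trans_FF, mul_sum, ← sum_sub_distrib]
      apply sum_congr rfl
      intro a _
      push_cast
      ring
    have e3 : ∑ a : ZMod q, χ⁻¹ a * ((∑ d ∈ P.filter (fun d : ℕ => (d : ZMod q) = a), α d : ℝ) : ℂ) =
        ∑ d ∈ P, (α d : ℂ) * χ⁻¹ (d : ZMod q) := by
      have e4 : ∀ a : ZMod q, χ⁻¹ a * ((∑ d ∈ P.filter (fun d : ℕ => (d : ZMod q) = a), α d : ℝ) : ℂ) =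
          ∑ d ∈ P, if (d : ZMod q) = a then (α d : ℂ) * χ⁻¹ a else 0 := by
        intro a
        rw [← sum_filter, Complex.ofReal_sum, mul_sum]
        apply sum_congr rfl
        intro d _
        ring
      rw [sum_congr rfl fun a _ => e4 a, sum_comm]
      apply sum_congr rfl
      intro d _
      rw [sum_ite_eq]
      simp
    rw [e3]
    by_cases h : χ = 1
    · have hz : ∑ a : ZMod q, χ⁻¹ a * ((FF α P I a - c : ℝ) : ℂ) = 0 := by
        rw [e2, h, inv_one]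
        have e5 := sum_char_one (q := q) α P
        have e6 : ∑ r ∈ I, (1 : DirichletCharacter ℂ q) (r : ZMod q) =
            (((I.filter (fun r => r.Coprime q)).card : ℝ) : ℂ) := by
          have := sum_char_one (q := q) (fun _ => 1) I
          simp only [Complex.ofReal_one, one_mul, sum_const, nsmul_eq_mul, mul_one] at this
          rw [this]
        have e7 : ∑ a : ZMod q, (1 : DirichletCharacter ℂ q) a = (Nat.totient q : ℂ) := by
          have := Pool.Agent.Helper112.MLS.sum_norm_char q (1 : DirichletCharacter ℂ q)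
          have h8 : ∀ a : ZMod q, (1 : DirichletCharacter ℂ q) a = ((‖(1 : DirichletCharacter ℂ q) a‖ ^ 2 : ℝ) : ℂ) := by
            intro a
            by_cases ha : IsUnit a
            · rw [MulChar.one_apply ha]; simp
            · rw [MulChar.map_nonunit _ ha]; simp
          rw [sum_congr rfl fun a _ => h8 a, ← Complex.ofReal_sum, this]
          simp
        rw [e5, e6, e7, hc]
        unfold cF
        push_cast
        have : (Nat.totient q : ℂ) ≠ 0 := by exact_mod_cast hφ.ne'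
        field_simp
        ring
      rw [hz, norm_zero, zero_pow two_ne_zero]
      exact mul_nonneg (sq_nonneg _) (sq_nonneg _)
    · have hχ : χ⁻¹ ≠ 1 := fun h' => h (inv_eq_one.1 h')
      have e5 : ∑ a : ZMod q, χ⁻¹ a = 0 := MulChar.sum_eq_zero_of_ne_one hχ
      rw [e2, e5, mul_zero, sub_zero, norm_mul, mul_pow, mul_comm]
      apply mul_le_mul_of_nonneg_right _ (sq_nonneg _)
      exact pow_le_pow_left₀ (norm_nonneg _) (hS _ hχ) 2
  have h3 := sum_le_sum fun (χ : DirichletCharacter ℂ q) (_ : χ ∈ univ) => key χ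
  rw [← mul_sum, h1, h2] at h3
  have h4 : (Nat.totient q : ℝ) * ∑ a : (ZMod q)ˣ, (FF α P I (a : ZMod q) - c) ^ 2 ≤
      Nat.totient q * (S ^ 2 * ∑ a : (ZMod q)ˣ, (∑ d ∈ P.filter (fun d : ℕ => (d : ZMod q) = a), α d) ^ 2) := by
    refine h3.trans (le_of_eq ?_)
    ring
  exact le_of_mul_le_mul_left h4 hφ

end Pool.Agent.R502.BL
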