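import Mathlib

/-! The final bounds for the numbers of exceptional classes. -/

set_option autoImplicit false
set_option maxHeartbeats 4000000

namespace Pool.Agent.R502.BL

lemma fin1 {c ε A Q L W T y Y0 τ δ : ℝ} (hε : 0 < ε) (hA : 0 < A) (hQ : 1 ≤ Q) (hL : 1 ≤ L) (hLW : L ≤ W)
    (hT : 1 ≤ T) (hy1 : Q ^ (1 + δ) ≤ y) (hY0 : Y0 = y / Q ^ (1 / 2 + δ / 2))
    (hτ : τ = ε / 4 * (y / (Q * (A * L))))
    (hc : c * (τ / 3) ^ 2 ≤ 30 * W ^ 6 * T ^ 6 * (y + Y0 ^ 2)) :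
    c ≤ (10000 / ε ^ 2 * A ^ 2) * W ^ 8 * T ^ 6 * Q ^ (1 - δ) := by
  have hq0 : 0 < Q := by linarith
  have hL0 : 0 < L := by linarith
  have hW0 : 0 < W := by linarith
  have hT0 : 0 < T := by linarith
  have rpp : ∀ a : ℝ, 0 < Q ^ a := fun a => Real.rpow_pos_of_pos hq0 a
  have rad : ∀ a b : ℝ, Q ^ a * Q ^ b = Q ^ (a + b) := fun a b => (Real.rpow_add hq0 a b).symm
  have hy0 : 0 < y := lt_of_lt_of_le (rpp _) hy1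
  have hτ0 : 0 < τ := by rw [hτ]; positivity
  have h1 : y + Y0 ^ 2 ≤ 2 * (y ^ 2 * Q ^ (-(1 + δ))) := by
    have h2 : Y0 ^ 2 = y ^ 2 * Q ^ (-(1 + δ)) := by
      rw [hY0, div_pow, div_eq_mul_inv]
      congr 1
      rw [← Real.rpow_natCast, ← Real.rpow_mul hq0.le, ← Real.rpow_neg hq0.le]
      congr 1
      push_cast
      ring
    have h3 : y ≤ y ^ 2 * Q ^ (-(1 + δ)) := by
      have h4 : 1 ≤ y * Q ^ (-(1 + δ)) := by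
        calc (1 : ℝ) = Q ^ (1 + δ) * Q ^ (-(1 + δ)) := by rw [rad]; simp
          _ ≤ y * Q ^ (-(1 + δ)) := mul_le_mul_of_nonneg_right hy1 (rpp _).le
      calc y = y * 1 := (mul_one _).symm
        _ ≤ y * (y * Q ^ (-(1 + δ))) := mul_le_mul_of_nonneg_left h4 hy0.le
        _ = y ^ 2 * Q ^ (-(1 + δ)) := by ring
    linarith
  have h2 : c ≤ 30 * W ^ 6 * T ^ 6 * (2 * (y ^ 2 * Q ^ (-(1 + δ)))) / (τ / 3) ^ 2 := by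
    rw [le_div_iff₀ (by positivity)]
    refine hc.trans ?_
    exact mul_le_mul_of_nonneg_left h1 (by positivity)
  refine h2.trans ?_
  have e1 : 30 * W ^ 6 * T ^ 6 * (2 * (y ^ 2 * Q ^ (-(1 + δ)))) / (τ / 3) ^ 2
        = (8640 / ε ^ 2 * A ^ 2) * (L ^ 2 * W ^ 6) * T ^ 6 * (Q ^ 2 * Q ^ (-(1 + δ))) := by
    rw [hτ]; field_simp; ring
  have e2 : Q ^ 2 * Q ^ (-(1 + δ)) = Q ^ (1 - δ) := by
    rw [← Real.rpow_natCast, rad]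
    congr 1
    push_cast
    ring
  rw [e1, e2]
  have h3 : L ^ 2 ≤ W ^ 2 := pow_le_pow_left₀ hL0.le hLW 2
  calc (8640 / ε ^ 2 * A ^ 2) * (L ^ 2 * W ^ 6) * T ^ 6 * Q ^ (1 - δ)
      ≤ (10000 / ε ^ 2 * A ^ 2) * (W ^ 2 * W ^ 6) * T ^ 6 * Q ^ (1 - δ) := by
        gcongr
        norm_num
    _ = (10000 / ε ^ 2 * A ^ 2) * W ^ 8 * T ^ 6 * Q ^ (1 - δ) := by ring

lemma fin2 {c ε A Q L W T y τ δ B v θ lJ JH D H : ℝ} (hε : 0 < ε) (hA : 0 < A) (hQ : 1 ≤ Q) (hL : 1 ≤ L) (hLW : L ≤ W)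
    (hT : 1 ≤ T) (hW1 : 1 ≤ W) (hy0 : 0 < y) (hv0 : 0 ≤ v) (hvQ : v ≤ y * Q ^ (δ / 16)) (hθ : θ = Q ^ (-(δ / 2)))
    (hlJ0 : 0 ≤ lJ) (hlJ : 1 + lJ ≤ W) (hJH0 : 0 ≤ JH) (hJH : JH ≤ D + H) (hD : D ≤ y * Q ^ (δ / 16 - δ / 2))
    (hH : H ≤ y * Q ^ (δ / 16 - δ / 2)) (hBW : B ≤ W ^ 2 * T ^ 2)
    (hτ : τ = ε / 4 * (y / (Q * (A * L))))
    (hc : c * (τ / 3) ≤ B * (3 * v * θ * (1 + lJ) + 4 * JH)) :
    c ≤ (200 / ε * A) * W ^ 8 * T ^ 2 * Q ^ (1 + δ / 16 - δ / 2) := by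
  have hq0 : 0 < Q := by linarith
  have hL0 : 0 < L := by linarith
  have hW0 : 0 < W := by linarith
  have hT0 : 0 < T := by linarith
  have rpp : ∀ a : ℝ, 0 < Q ^ a := fun a => Real.rpow_pos_of_pos hq0 a
  have rad : ∀ a b : ℝ, Q ^ a * Q ^ b = Q ^ (a + b) := fun a b => (Real.rpow_add hq0 a b).symm
  have hτ0 : 0 < τ := by rw [hτ]; positivity
  have hθ0 : 0 < θ := by rw [hθ]; exact rpp _
  set P : ℝ := y * Q ^ (δ / 16 - δ / 2) with hP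
  have hP0 : 0 < P := by positivity
  have h1 : 3 * v * θ * (1 + lJ) + 4 * JH ≤ 11 * (P * W) := by
    have h2 : 3 * v * θ * (1 + lJ) ≤ 3 * (P * W) := by
      have h3 : v * θ ≤ P := by
        calc v * θ ≤ (y * Q ^ (δ / 16)) * θ := mul_le_mul_of_nonneg_right hvQ hθ0.le
          _ = P := by rw [hθ, mul_assoc, rad, hP]; congr 2
      calc 3 * v * θ * (1 + lJ) = 3 * ((v * θ) * (1 + lJ)) := by ring
        _ ≤ 3 * (P * W) := by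
            apply mul_le_mul_of_nonneg_left _ (by norm_num)
            exact mul_le_mul h3 hlJ (by positivity) hP0.le
    have h5 : 4 * JH ≤ 8 * (P * W) := by
      have h6 : P ≤ P * W := le_mul_of_one_le_right hP0.le hW1
      linarith
    linarith
  have h2 : c ≤ (W ^ 2 * T ^ 2) * (11 * (P * W)) / (τ / 3) := by
    rw [le_div_iff₀ (by positivity)]
    refine hc.trans ?_
    exact mul_le_mul hBW h1 (by positivity) (by positivity)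
  refine h2.trans ?_
  have e1 : (W ^ 2 * T ^ 2) * (11 * (P * W)) / (τ / 3)
        = (132 / ε * A) * (L * W ^ 3) * T ^ 2 * (Q * Q ^ (δ / 16 - δ / 2)) := by
    rw [hτ, hP]; field_simp; ring
  have e2 : Q * Q ^ (δ / 16 - δ / 2) = Q ^ (1 + δ / 16 - δ / 2) := by
    nth_rewrite 1 [← Real.rpow_one Q]
    rw [rad]
    congr 1
    ring
  rw [e1, e2]
  have h8 : W ^ 4 ≤ W ^ 8 := pow_le_pow_right₀ hW1 (by norm_num)
  calc (132 / ε * A) * (L * W ^ 3) * T ^ 2 * Q ^ (1 + δ / 16 - δ / 2)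
      ≤ (200 / ε * A) * (W * W ^ 3) * T ^ 2 * Q ^ (1 + δ / 16 - δ / 2) := by
        gcongr
        norm_num
    _ = (200 / ε * A) * W ^ 4 * T ^ 2 * Q ^ (1 + δ / 16 - δ / 2) := by ring
    _ ≤ (200 / ε * A) * W ^ 8 * T ^ 2 * Q ^ (1 + δ / 16 - δ / 2) := by gcongr

lemma fin3 {c ε A Q L W T y τ δ B v lJ : ℝ} (hε : 0 < ε) (hA : 0 < A) (hQ : 1 ≤ Q) (hL : 1 ≤ L) (hLW : L ≤ W)
    (hT : 1 ≤ T) (hy0 : 0 < y) (hv0 : 0 ≤ v) (hvQ : v ≤ y * Q ^ (δ / 16))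
    (hlJ0 : 0 ≤ lJ) (hlJ : 1 + lJ ≤ W) (hB0 : 0 ≤ B) (hBW : B ≤ W ^ 2 * T ^ 2)
    (hτ : τ = ε / 4 * (y / (Q * (A * L))))
    (hc : c * (τ / 3) ^ 2 ≤ 2 * B ^ 2 * (4 * Q ^ (-δ)) ^ 2 * v ^ 2 / Q * (1 + lJ) ^ 2) :
    c ≤ (10000 / ε ^ 2 * A ^ 2) * W ^ 8 * T ^ 4 * Q ^ (1 + δ / 8 - 2 * δ) := by
  have hq0 : 0 < Q := by linarith
  have hL0 : 0 < L := by linarith
  have hW0 : 0 < W := by linarith
  have hT0 : 0 < T := by linarith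
  have rpp : ∀ a : ℝ, 0 < Q ^ a := fun a => Real.rpow_pos_of_pos hq0 a
  have rad : ∀ a b : ℝ, Q ^ a * Q ^ b = Q ^ (a + b) := fun a b => (Real.rpow_add hq0 a b).symm
  have hτ0 : 0 < τ := by rw [hτ]; positivity
  have h1 : 2 * B ^ 2 * (4 * Q ^ (-δ)) ^ 2 * v ^ 2 / Q * (1 + lJ) ^ 2 ≤
      32 * W ^ 6 * T ^ 4 * (y ^ 2 * Q ^ (δ / 8 - 2 * δ) / Q) := by
    have h2 : (Q ^ (-δ)) ^ 2 * v ^ 2 ≤ y ^ 2 * Q ^ (δ / 8 - 2 * δ) := by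
      calc (Q ^ (-δ)) ^ 2 * v ^ 2 ≤ (Q ^ (-δ)) ^ 2 * (y * Q ^ (δ / 16)) ^ 2 := by
            apply mul_le_mul_of_nonneg_left _ (by positivity)
            exact pow_le_pow_left₀ hv0 hvQ 2
        _ = y ^ 2 * ((Q ^ (-δ)) ^ 2 * (Q ^ (δ / 16)) ^ 2) := by ring
        _ = y ^ 2 * Q ^ (δ / 8 - 2 * δ) := by
            congr 1
            rw [← Real.rpow_natCast (Q ^ (-δ)), ← Real.rpow_natCast (Q ^ (δ / 16)), ← Real.rpow_mul hq0.le,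
              ← Real.rpow_mul hq0.le, rad]
            congr 1
            push_cast
            ring
    have h3 : (1 + lJ) ^ 2 ≤ W ^ 2 := pow_le_pow_left₀ (by positivity) hlJ 2
    have h4 : B ^ 2 ≤ (W ^ 2 * T ^ 2) ^ 2 := pow_le_pow_left₀ hB0 hBW 2
    calc 2 * B ^ 2 * (4 * Q ^ (-δ)) ^ 2 * v ^ 2 / Q * (1 + lJ) ^ 2
        = 32 * B ^ 2 * (((Q ^ (-δ)) ^ 2 * v ^ 2) / Q) * (1 + lJ) ^ 2 := by ring
      _ ≤ 32 * (W ^ 2 * T ^ 2) ^ 2 * ((y ^ 2 * Q ^ (δ / 8 - 2 * δ)) / Q) * W ^ 2 := by gcongr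
      _ = 32 * W ^ 6 * T ^ 4 * (y ^ 2 * Q ^ (δ / 8 - 2 * δ) / Q) := by ring
  have h2 : c ≤ 32 * W ^ 6 * T ^ 4 * (y ^ 2 * Q ^ (δ / 8 - 2 * δ) / Q) / (τ / 3) ^ 2 := by
    rw [le_div_iff₀ (by positivity)]
    exact hc.trans h1
  refine h2.trans ?_
  have e1 : 32 * W ^ 6 * T ^ 4 * (y ^ 2 * Q ^ (δ / 8 - 2 * δ) / Q) / (τ / 3) ^ 2
        = (4608 / ε ^ 2 * A ^ 2) * (L ^ 2 * W ^ 6) * T ^ 4 * (Q * Q ^ (δ / 8 - 2 * δ)) := by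
    rw [hτ]; field_simp; ring
  have e2 : Q * Q ^ (δ / 8 - 2 * δ) = Q ^ (1 + δ / 8 - 2 * δ) := by
    nth_rewrite 1 [← Real.rpow_one Q]
    rw [rad]
    congr 1
    ring
  rw [e1, e2]
  have h3 : L ^ 2 ≤ W ^ 2 := pow_le_pow_left₀ hL0.le hLW 2
  calc (4608 / ε ^ 2 * A ^ 2) * (L ^ 2 * W ^ 6) * T ^ 4 * Q ^ (1 + δ / 8 - 2 * δ)
      ≤ (10000 / ε ^ 2 * A ^ 2) * (W ^ 2 * W ^ 6) * T ^ 4 * Q ^ (1 + δ / 8 - 2 * δ) := by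
        gcongr
        norm_num
    _ = (10000 / ε ^ 2 * A ^ 2) * W ^ 8 * T ^ 4 * Q ^ (1 + δ / 8 - 2 * δ) := by ring

lemma fin4 {s1 s2 s3 ε A Q W C δ K T : ℝ} (hε : 0 < ε) (hA : 0 < A) (hQ : 1 ≤ Q) (hW1 : 1 ≤ W) (hC : 0 < C)
    (hδ : 0 < δ) (hT : T = C * Q ^ (δ / 100))
    (hK : K = 100000 / ε ^ 2 * A ^ 2 + 1000 / ε * A)
    (e1 : K * (C ^ 2 + C ^ 4 + C ^ 6) * W ^ 8 ≤ Q ^ (δ / 8))
    (b1 : s1 ≤ (10000 / ε ^ 2 * A ^ 2) * W ^ 8 * T ^ 6 * Q ^ (1 - δ))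
    (b2 : s2 ≤ (200 / ε * A) * W ^ 8 * T ^ 2 * Q ^ (1 + δ / 16 - δ / 2))
    (b3 : s3 ≤ (10000 / ε ^ 2 * A ^ 2) * W ^ 8 * T ^ 4 * Q ^ (1 + δ / 8 - 2 * δ)) :
    s1 + (s2 + s3) ≤ Q ^ (1 - δ / 16) := by
  have hq0 : 0 < Q := by linarith
  have hW0 : 0 < W := by linarith
  have rp : ∀ a b : ℝ, a ≤ b → Q ^ a ≤ Q ^ b := fun a b h => Real.rpow_le_rpow_of_exponent_le hQ h
  have rpp : ∀ a : ℝ, 0 < Q ^ a := fun a => Real.rpow_pos_of_pos hq0 a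
  have rad : ∀ a b : ℝ, Q ^ a * Q ^ b = Q ^ (a + b) := fun a b => (Real.rpow_add hq0 a b).symm
  have hTn : ∀ n : ℕ, n ≤ 6 → T ^ n ≤ C ^ n * Q ^ (δ / 16) := by
    intro n hn
    rw [hT, mul_pow]
    apply mul_le_mul_of_nonneg_left _ (by positivity)
    rw [← Real.rpow_natCast, ← Real.rpow_mul hq0.le]
    apply rp
    have : (n : ℝ) ≤ 6 := by exact_mod_cast hn
    nlinarith
  have r1 : s1 ≤ (10000 / ε ^ 2 * A ^ 2) * W ^ 8 * C ^ 6 * Q ^ (1 - δ / 4) := by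
    calc s1 ≤ (10000 / ε ^ 2 * A ^ 2) * W ^ 8 * T ^ 6 * Q ^ (1 - δ) := b1
      _ ≤ (10000 / ε ^ 2 * A ^ 2) * W ^ 8 * (C ^ 6 * Q ^ (δ / 16)) * Q ^ (1 - δ) := by
          have := hTn 6 le_rfl
          have h0 : 0 ≤ (10000 / ε ^ 2 * A ^ 2) * W ^ 8 := by positivity
          exact mul_le_mul_of_nonneg_right (mul_le_mul_of_nonneg_left this h0) (rpp _).le
      _ = (10000 / ε ^ 2 * A ^ 2) * W ^ 8 * C ^ 6 * Q ^ (δ / 16 + (1 - δ)) := by rw [← rad]; ring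
      _ ≤ (10000 / ε ^ 2 * A ^ 2) * W ^ 8 * C ^ 6 * Q ^ (1 - δ / 4) := by
          apply mul_le_mul_of_nonneg_left _ (by positivity)
          exact rp _ _ (by linarith)
  have r2 : s2 ≤ (200 / ε * A) * W ^ 8 * C ^ 2 * Q ^ (1 - δ / 4) := by
    calc s2 ≤ (200 / ε * A) * W ^ 8 * T ^ 2 * Q ^ (1 + δ / 16 - δ / 2) := b2
      _ ≤ (200 / ε * A) * W ^ 8 * (C ^ 2 * Q ^ (δ / 16)) * Q ^ (1 + δ / 16 - δ / 2) := by
          have := hTn 2 (by norm_num)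
          have h0 : 0 ≤ (200 / ε * A) * W ^ 8 := by positivity
          exact mul_le_mul_of_nonneg_right (mul_le_mul_of_nonneg_left this h0) (rpp _).le
      _ = (200 / ε * A) * W ^ 8 * C ^ 2 * Q ^ (δ / 16 + (1 + δ / 16 - δ / 2)) := by rw [← rad]; ring
      _ ≤ (200 / ε * A) * W ^ 8 * C ^ 2 * Q ^ (1 - δ / 4) := by
          apply mul_le_mul_of_nonneg_left _ (by positivity)
          exact rp _ _ (by linarith)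
  have r3 : s3 ≤ (10000 / ε ^ 2 * A ^ 2) * W ^ 8 * C ^ 4 * Q ^ (1 - δ / 4) := by
    calc s3 ≤ (10000 / ε ^ 2 * A ^ 2) * W ^ 8 * T ^ 4 * Q ^ (1 + δ / 8 - 2 * δ) := b3
      _ ≤ (10000 / ε ^ 2 * A ^ 2) * W ^ 8 * (C ^ 4 * Q ^ (δ / 16)) * Q ^ (1 + δ / 8 - 2 * δ) := by
          have := hTn 4 (by norm_num)
          have h0 : 0 ≤ (10000 / ε ^ 2 * A ^ 2) * W ^ 8 := by positivity
          exact mul_le_mul_of_nonneg_right (mul_le_mul_of_nonneg_left this h0) (rpp _).le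
      _ = (10000 / ε ^ 2 * A ^ 2) * W ^ 8 * C ^ 4 * Q ^ (δ / 16 + (1 + δ / 8 - 2 * δ)) := by rw [← rad]; ring
      _ ≤ (10000 / ε ^ 2 * A ^ 2) * W ^ 8 * C ^ 4 * Q ^ (1 - δ / 4) := by
          apply mul_le_mul_of_nonneg_left _ (by positivity)
          exact rp _ _ (by linarith)
  have g1 : 10000 / ε ^ 2 * A ^ 2 ≤ K := by
    rw [hK]
    have h1 : 10000 / ε ^ 2 * A ^ 2 ≤ 100000 / ε ^ 2 * A ^ 2 := by gcongr; norm_num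
    have h2 : 0 ≤ 1000 / ε * A := by positivity
    linarith
  have g2 : 200 / ε * A ≤ K := by
    rw [hK]
    have h1 : 200 / ε * A ≤ 1000 / ε * A := by gcongr; norm_num
    have h2 : 0 ≤ 100000 / ε ^ 2 * A ^ 2 := by positivity
    linarith
  have m1 := mul_le_mul_of_nonneg_right g1 (by positivity : 0 ≤ W ^ 8 * C ^ 6 * Q ^ (1 - δ / 4))
  have m2 := mul_le_mul_of_nonneg_right g2 (by positivity : 0 ≤ W ^ 8 * C ^ 2 * Q ^ (1 - δ / 4))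
  have m3 := mul_le_mul_of_nonneg_right g1 (by positivity : 0 ≤ W ^ 8 * C ^ 4 * Q ^ (1 - δ / 4))
  calc s1 + (s2 + s3) ≤ (K * (C ^ 2 + C ^ 4 + C ^ 6)) * W ^ 8 * Q ^ (1 - δ / 4) := by
        have e : (K * (C ^ 2 + C ^ 4 + C ^ 6)) * W ^ 8 * Q ^ (1 - δ / 4) =
            K * (W ^ 8 * C ^ 6 * Q ^ (1 - δ / 4)) + (K * (W ^ 8 * C ^ 2 * Q ^ (1 - δ / 4)) +
              K * (W ^ 8 * C ^ 4 * Q ^ (1 - δ / 4))) := by ring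
        rw [e]
        linarith
    _ ≤ Q ^ (δ / 8) * Q ^ (1 - δ / 4) := mul_le_mul_of_nonneg_right e1 (rpp _).le
    _ = Q ^ (δ / 8 + (1 - δ / 4)) := rad _ _
    _ ≤ Q ^ (1 - δ / 16) := rp _ _ (by linarith)

end Pool.Agent.R502.BL
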