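import Mathlib
import Pool.Agent.H807R2.Dav1

/-! Fourier analysis modulo `M` (after `Pool.Agent.W301.SS.Core`, `Pool.Agent.W301.SS.ModQ`), and the balanced
residues. -/

set_option autoImplicit false

namespace Pool.Agent.R502.BL
open Finset
open Pool.Agent.H807R2.Dav

lemma ee_ne_one {M : ℕ} (hM : 1 ≤ M) {k : ℤ} (hk : ¬ (M : ℤ) ∣ k) : ee ((k : ℝ) / M) ≠ 1 := by
  have hM0 : (M : ℝ) ≠ 0 := by positivity
  intro h
  unfold ee at h
  rw [Complex.exp_eq_one_iff] at h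
  obtain ⟨n, hn⟩ := h
  have h2 : (2 * (Real.pi : ℂ) * Complex.I) ≠ 0 := by
    simp [Real.pi_ne_zero]
  have h3 : (((k : ℝ) / M : ℝ) : ℂ) = n := by
    apply mul_left_cancel₀ h2
    rw [hn]; ring
  have h4 : (k : ℝ) / M = n := by exact_mod_cast h3
  rw [div_eq_iff hM0] at h4
  apply hk
  refine ⟨n, ?_⟩
  have : (k : ℝ) = ((M * n : ℤ) : ℝ) := by push_cast; linarith
  exact_mod_cast this

lemma orth {M : ℕ} (hM : 1 ≤ M) (k : ℤ) :
    ∑ r ∈ range M, ee ((k : ℝ) * ((r : ℝ) / M)) = if (M : ℤ) ∣ k then (M : ℂ) else 0 := by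
  have hM0 : (M : ℝ) ≠ 0 := by positivity
  have e : ∀ r : ℕ, ee ((k : ℝ) * ((r : ℝ) / M)) = ee ((k : ℝ) / M) ^ r := by
    intro r
    rw [← ee_pow]; congr 1; ring
  simp_rw [e]
  split_ifs with h
  · obtain ⟨n, rfl⟩ := h
    have : ee (((M * n : ℤ) : ℝ) / M) = 1 := by
      have e2 : (((M * n : ℤ) : ℝ) / M) = (n : ℝ) := by push_cast; field_simp
      rw [e2, ee_int]
    rw [this]; simp
  · rw [geom_sum_eq (ee_ne_one hM h)]
    have : ee ((k : ℝ) / M) ^ M = 1 := by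
      rw [← ee_pow]
      have e2 : (M : ℝ) * ((k : ℝ) / M) = (k : ℝ) := by field_simp
      rw [e2, ee_int]
    rw [this, sub_self, zero_div]

lemma star_ee (x : ℝ) : (starRingEnd ℂ) (ee x) = ee (-x) := by
  rw [ee_eq, ee_eq, ← Complex.exp_conj]
  congr 1
  rw [map_mul, Complex.conj_ofReal, Complex.conj_I]
  push_cast; ring

/-- Parseval's identity for functions modulo `M` -/
lemma parsevalF {M : ℕ} (hM : 1 ≤ M) (h : ℕ → ℂ) :
    ∑ r ∈ range M, ‖∑ n ∈ range M, h n * ee ((n : ℝ) * ((r : ℝ) / M))‖ ^ 2 =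
      M * ∑ n ∈ range M, ‖h n‖ ^ 2 := by
  have key : ((∑ r ∈ range M, ‖∑ n ∈ range M, h n * ee ((n : ℝ) * ((r : ℝ) / M))‖ ^ 2 : ℝ) : ℂ) =
      ((M * ∑ n ∈ range M, ‖h n‖ ^ 2 : ℝ) : ℂ) := by
    push_cast
    have e1 : ∀ r ∈ range M, ((‖∑ n ∈ range M, h n * ee ((n : ℝ) * ((r : ℝ) / M))‖ : ℂ)) ^ 2 =
        ∑ a ∈ range M, ∑ b ∈ range M, (h a * (starRingEnd ℂ) (h b)) *
          ee (((a : ℤ) - (b : ℤ) : ℤ) * ((r : ℝ) / M)) := by
      intro r _
      rw [← Complex.mul_conj', map_sum, sum_mul_sum]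
      apply sum_congr rfl
      intro a _
      apply sum_congr rfl
      intro b _
      rw [map_mul, star_ee]
      have : ee ((((a : ℤ) - (b : ℤ) : ℤ) : ℝ) * ((r : ℝ) / M)) =
          ee ((a : ℝ) * ((r : ℝ) / M)) * ee (-((b : ℝ) * ((r : ℝ) / M))) := by
        rw [← ee_add]; congr 1; push_cast; ring
      rw [this]; ring
    rw [sum_congr rfl e1, sum_comm]
    have e2 : ∀ a ∈ range M, ∑ r ∈ range M, ∑ b ∈ range M, (h a * (starRingEnd ℂ) (h b)) *
          ee (((a : ℤ) - (b : ℤ) : ℤ) * ((r : ℝ) / M)) = (M : ℂ) * (‖h a‖ : ℂ) ^ 2 := by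
      intro a ha
      rw [sum_comm]
      rw [sum_eq_single a]
      · rw [← mul_sum, orth hM]
        simp only [sub_self, dvd_zero, if_true]
        rw [Complex.mul_conj']; ring
      · intro b hb hba
        rw [← mul_sum, orth hM, if_neg, mul_zero]
        intro h
        rw [mem_range] at ha hb
        have h3 := Int.eq_zero_of_abs_lt_dvd h (by rw [abs_lt]; constructor <;> omega)
        apply hba; omega
      · intro h; exact absurd ha h
    rw [sum_congr rfl e2, mul_sum]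
  exact_mod_cast key

/-- the balanced residue of `d c` modulo `k` -/
def hb (k d c : ℕ) : ℤ := Int.bmod ((d : ℤ) * c) k

lemma hb_dvd (k d c : ℕ) : (k : ℤ) ∣ hb k d c - (d : ℤ) * c := Int.dvd_bmod_sub_self

lemma hb_abs {k : ℕ} (hk : 1 ≤ k) (d c : ℕ) : 2 * |hb k d c| ≤ k := by
  have h1 := Int.le_bmod (x := (d : ℤ) * c) (m := k) hk
  have h2 := Int.bmod_lt (x := (d : ℤ) * c) (m := k) hk
  have h3 : |hb k d c| ≤ (k : ℤ) / 2 := by
    rw [abs_le]
    unfold hb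
    constructor <;> omega
  omega

lemma hb_ne {k d c : ℕ} (hd : d.Coprime k) (hc0 : 0 < c) (hck : c < k) : hb k d c ≠ 0 := by
  intro h
  have h1 := hb_dvd k d c
  rw [h, zero_sub, dvd_neg] at h1
  have h2 : k ∣ d * c := by exact_mod_cast h1
  have h3 : k ∣ c := Nat.Coprime.dvd_of_dvd_mul_left hd.symm h2
  have := Nat.le_of_dvd hc0 h3
  omega

/-- geometric sums at the fractions `d c / k` -/
lemma KK_hb {k d c : ℕ} (hd : d.Coprime k) (hc0 : 0 < c) (hck : c < k) {M : ℝ} (hM : 0 ≤ M) :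
    KK M ((d : ℝ) * ((c : ℝ) / k)) ≤ 3 * M ∧
    KK M ((d : ℝ) * ((c : ℝ) / k)) ≤ 3 * k / (4 * |(hb k d c : ℝ)|) := by
  have hk : 1 ≤ k := by omega
  have hk0 : (0 : ℝ) < k := by exact_mod_cast hk
  refine ⟨KK_le hM _, ?_⟩
  have hne := hb_ne hd hc0 hck
  have habs : 0 < |(hb k d c : ℝ)| := abs_pos.2 (by exact_mod_cast hne)
  obtain ⟨t, ht⟩ := hb_dvd k d c
  have e1 : (d : ℝ) * ((c : ℝ) / k) = (hb k d c : ℝ) / k + ((-t : ℤ) : ℝ) := by
    have h1 : ((hb k d c : ℤ) : ℝ) - (d : ℝ) * c = k * t := by exact_mod_cast ht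
    push_cast
    field_simp
    linarith
  have e2 : dd ((d : ℝ) * ((c : ℝ) / k)) = dd (|(hb k d c : ℝ)| / k) := by
    rw [e1, dd_add_int]
    rcases le_total 0 (hb k d c : ℝ) with h | h
    · rw [abs_of_nonneg h]
    · rw [abs_of_nonpos h, neg_div, dd_neg]
  have h2 : 2 * |(hb k d c : ℝ)| ≤ k := by
    have := hb_abs hk d c
    exact_mod_cast this
  have h3 : |(hb k d c : ℝ)| / k ≤ 1 / 2 := by
    rw [div_le_div_iff₀ hk0 two_pos]
    linarith
  have h4 : 4 * |(hb k d c : ℝ)| / k ≤ dd ((d : ℝ) * ((c : ℝ) / k)) := by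
    rw [e2]
    have h5 := dd_ge (t := |(hb k d c : ℝ)| / k) (by positivity) (by linarith)
    rw [min_eq_left (by linarith)] at h5
    rw [mul_div_assoc]
    exact h5
  have h6 := KK_le' (M := M) hM (by positivity) h4
  refine h6.trans (le_of_eq ?_)
  field_simp

end Pool.Agent.R502.BL
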