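import Pool.Agent.R502.BL.Setup

/-! The Brun-Titchmarsh inequality for all but few classes, every modulus. -/

set_option autoImplicit false
set_option maxHeartbeats 4000000

namespace Pool.Agent.R502.BL
open Finset Filter

/-- the variance bound in a convenient form -/
lemma variance' {k D u v : ℕ} {T A L y Y2 : ℝ} (hk : 1 ≤ k) (hD : 1 ≤ D) (huv : u ≤ v) (hA : 1 < A) (hL : 1 ≤ L)
    (hlog : Real.log (k * D) ≤ (A + 1) * L)
    (hT1 : 1 ≤ T) (hT : ∀ n : ℕ, 1 ≤ n → n ≤ k * D → (n.divisors.card : ℝ) ≤ T) (hy : 1 ≤ y)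
    (hvu : ((v : ℝ) - u) ≤ y + 1) (hD2 : (D : ℝ) ^ 2 ≤ Y2) (ρ : ℕ → ℝ)
    (hρ : ∀ d ∈ DD k D, |ρ d| ≤ (1 + 2 * A * L) ^ 2 * T ^ 2) :
    ∑ l ∈ range k, (EE ρ k D u v l) ^ 2 ≤ 30 * (1 + 2 * (A + 1) * L) ^ 6 * T ^ 6 * (y + Y2) := by
  set B := (1 + 2 * A * L) ^ 2 * T ^ 2 with hBdef
  have hA0 : 0 < A := by linarith
  have hL0 : 0 < L := by linarith
  have hB0 : 0 ≤ B := by positivity
  have hkr1 : (1 : ℝ) ≤ k := by exact_mod_cast hk
  have hvu0 : (0 : ℝ) ≤ (v : ℝ) - u := by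
    have : (u : ℝ) ≤ v := by exact_mod_cast huv
    linarith
  have hvar := variance (T := T) hk hD huv hT ρ hB0 hρ
  set Λ := 1 + Real.log (k * D) with hΛ
  have hkD1 : (1 : ℝ) ≤ (k : ℝ) * D := by exact_mod_cast Nat.mul_pos (by omega : 0 < k) (by omega : 0 < D)
  have hΛ1 : 1 ≤ Λ := by
    have := Real.log_nonneg hkD1
    linarith
  set W := 1 + 2 * (A + 1) * L with hW
  have hΛ2 : Λ ≤ W := by
    rw [hW]
    nlinarith
  have hW1 : 1 ≤ W := by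
    have : 0 ≤ 2 * (A + 1) * L := by positivity
    linarith
  refine hvar.trans ?_
  have h1 : (D : ℝ) ^ 2 / k ≤ Y2 := (div_le_self (by positivity) hkr1).trans hD2
  have h2 : ((v : ℝ) - u) + 2 * (D : ℝ) ^ 2 ≤ 2 * (y + Y2) := by linarith
  have hY20 : 0 ≤ Y2 := le_trans (by positivity) hD2
  have h3 : (D : ℝ) ^ 2 / k + 9 / 2 * T ^ 2 * (((v : ℝ) - u) + 2 * D ^ 2) * Λ ^ 2 ≤ 30 * T ^ 2 * W ^ 2 * (y + Y2) := by
    have h4 : (1 : ℝ) ≤ T ^ 2 * W ^ 2 := by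
      have : 1 ≤ T * W := by nlinarith
      calc (1 : ℝ) ≤ (T * W) ^ 2 := one_le_pow₀ this
        _ = T ^ 2 * W ^ 2 := by ring
    calc (D : ℝ) ^ 2 / k + 9 / 2 * T ^ 2 * (((v : ℝ) - u) + 2 * D ^ 2) * Λ ^ 2
        ≤ (y + Y2) + 9 / 2 * T ^ 2 * (2 * (y + Y2)) * W ^ 2 := by
          apply add_le_add (by linarith)
          apply mul_le_mul (mul_le_mul_of_nonneg_left h2 (by positivity)) _ (by positivity) (by positivity)
          exact pow_le_pow_left₀ (by linarith) hΛ2 2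
      _ ≤ T ^ 2 * W ^ 2 * (y + Y2) + 9 * T ^ 2 * W ^ 2 * (y + Y2) := by
          apply add_le_add
          · exact le_mul_of_one_le_left (by positivity) h4
          · apply le_of_eq; ring
      _ ≤ 30 * T ^ 2 * W ^ 2 * (y + Y2) := by
          have : 0 ≤ T ^ 2 * W ^ 2 * (y + Y2) := by positivity
          linarith
  calc B ^ 2 * ((D : ℝ) ^ 2 / k + 9 / 2 * T ^ 2 * (((v : ℝ) - u) + 2 * D ^ 2) * Λ ^ 2)
      ≤ (W ^ 2 * T ^ 2) ^ 2 * (30 * T ^ 2 * W ^ 2 * (y + Y2)) := by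
        apply mul_le_mul _ h3 (by positivity) (by positivity)
        apply pow_le_pow_left₀ hB0
        rw [hBdef]
        apply mul_le_mul_of_nonneg_right _ (by positivity)
        apply pow_le_pow_left₀ (by positivity)
        rw [hW]
        nlinarith
    _ = 30 * W ^ 6 * T ^ 6 * (y + Y2) := by ring

theorem main (ε A : ℝ) (hε : 0 < ε) (hε1 : ε ≤ 1) : ∀ᶠ k : ℕ in atTop, ∀ t : ℝ, 0 ≤ t → t ≤ 1 →
    ∀ x y : ℝ, (k : ℝ) ^ (1 + ε) ≤ y → y ≤ (k : ℝ) ^ A → y ≤ x →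
    ((exc ε t k x y).card : ℝ) ≤ (k : ℝ) ^ (2 - 2 * t + ε) + (k : ℝ) ^ (2 + ε) / y := by
  classical
  rcases le_or_gt A 1 with hA | hA
  · filter_upwards [eventually_gt_atTop 1] with k hk t _ _ x y hy1 hy2 _
    exfalso
    have hk1 : (1 : ℝ) < k := by exact_mod_cast hk
    have h1 : (k : ℝ) ^ (1 + ε) ≤ (k : ℝ) ^ A := hy1.trans hy2
    rw [Real.rpow_le_rpow_left_iff hk1] at h1
    linarith
  obtain ⟨C, hC, hset⟩ := setup ε A (ε / 16) hε hε1 hA (by positivity)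
  have hA0 : 0 < A := by linarith
  filter_upwards [hset, ev_poly (400 / ε ^ 2 * A ^ 2 * C ^ 6 + 1) (2 * (A + 1)) (ε / 2) 8 (by positivity) (by positivity) (by positivity),
    eventually_ge_atTop 3] with k hk e1 hk3
  intro t ht1 ht2 x y hy1 hy2 hyx
  obtain ⟨hT, R, ρ, hR1, hDz, hρ, hEE⟩ := hk t ht1 ht2 x y hy1 hy2 hyx
  set L := Real.log k with hL
  have hk1 : 1 ≤ k := by omega
  have hkr : (3 : ℝ) ≤ k := by exact_mod_cast hk3
  have hk0 : (0 : ℝ) < k := by linarith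
  have hkr1 : (1 : ℝ) ≤ k := by linarith
  have hL1 : 1 ≤ L := by
    rw [hL, Real.le_log_iff_exp_le hk0]
    have := Real.exp_one_lt_d9
    linarith
  have hL0 : 0 < L := by linarith
  have hy0 : 0 < y := lt_of_lt_of_le (Real.rpow_pos_of_pos hk0 _) hy1
  have hy1' : 1 ≤ y := le_trans (Real.one_le_rpow hkr1 (by linarith)) hy1
  have hkt0 : 0 < (k : ℝ) ^ t := Real.rpow_pos_of_pos hk0 _
  have hkt1 : 1 ≤ (k : ℝ) ^ t := Real.one_le_rpow hkr1 (by linarith)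
  set T := C * (k : ℝ) ^ (ε / 16) with hTdef
  set D := R ^ 2 with hD
  have hD1 : 1 ≤ D := Nat.one_le_pow _ _ hR1
  have hDy : (D : ℝ) ≤ y := hDz.trans (div_le_self hy0.le hkt1)
  have hT1 : 1 ≤ T := by
    have := hT 1 le_rfl (by push_cast; nlinarith)
    simpa using this
  set W := 1 + 2 * (A + 1) * L with hW
  set Y2 := y ^ 2 / (k : ℝ) ^ (2 * t) with hY2
  have hD2 : (D : ℝ) ^ 2 ≤ Y2 := by
    rw [hY2]
    calc (D : ℝ) ^ 2 ≤ (y / (k : ℝ) ^ t) ^ 2 := pow_le_pow_left₀ (by positivity) hDz 2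
      _ = y ^ 2 / (k : ℝ) ^ (2 * t) := by
        rw [div_pow]
        congr 1
        rw [← Real.rpow_natCast, ← Real.rpow_mul hk0.le]
        congr 1
        push_cast
        ring
  have hV : ∑ l ∈ range k, (EE ρ k D ⌊x - y⌋₊ ⌊x⌋₊ l) ^ 2 ≤ 30 * W ^ 6 * T ^ 6 * (y + Y2) := by
    apply variance' hk1 hD1 (Nat.floor_le_floor (by linarith)) hA hL1 _ hT1 _ hy1' _ hD2 ρ hρ
    · have h1 : Real.log ((k : ℝ) * D) ≤ Real.log ((k : ℝ) * (k : ℝ) ^ A) := by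
        apply Real.log_le_log
        · have : (1 : ℝ) ≤ D := by exact_mod_cast hD1
          positivity
        · exact mul_le_mul_of_nonneg_left (hDy.trans hy2) hk0.le
      rw [Real.log_mul hk0.ne' (Real.rpow_pos_of_pos hk0 _).ne', Real.log_rpow hk0] at h1
      linarith
    · intro n hn1 hn2
      apply hT n hn1
      calc (n : ℝ) ≤ ((k * D : ℕ) : ℝ) := by exact_mod_cast hn2
        _ = (k : ℝ) * D := by push_cast; ring
        _ ≤ k * y := by gcongr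
    · have h1 : ((⌊x⌋₊ : ℕ) : ℝ) ≤ x := Nat.floor_le (by linarith)
      have h2 : x - y < (⌊x - y⌋₊ : ℕ) + 1 := Nat.lt_floor_add_one _
      linarith
  have hthr0 : 0 < thr ε A k y := by unfold thr; positivity
  have hcount : ((exc ε t k x y).card : ℝ) * (thr ε A k y) ^ 2 ≤ 30 * W ^ 6 * T ^ 6 * (y + Y2) := by
    calc ((exc ε t k x y).card : ℝ) * (thr ε A k y) ^ 2 = ∑ l ∈ exc ε t k x y, (thr ε A k y) ^ 2 := by
          rw [sum_const, nsmul_eq_mul]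
      _ ≤ ∑ l ∈ exc ε t k x y, (EE ρ k D ⌊x - y⌋₊ ⌊x⌋₊ l) ^ 2 :=
          sum_le_sum fun l hl => pow_le_pow_left₀ hthr0.le (hEE l hl) 2
      _ ≤ ∑ l ∈ range k, (EE ρ k D ⌊x - y⌋₊ ⌊x⌋₊ l) ^ 2 := by
          apply sum_le_sum_of_subset_of_nonneg
          · unfold exc; exact filter_subset _ _
          · intro _ _ _; exact sq_nonneg _
      _ ≤ _ := hV
  have hT6 : T ^ 6 = C ^ 6 * (k : ℝ) ^ (3 * ε / 8) := by
    rw [hTdef, mul_pow]
    congr 1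
    rw [← Real.rpow_natCast, ← Real.rpow_mul hk0.le]
    congr 1
    push_cast
    ring
  have hLW : L ≤ W := by rw [hW]; nlinarith
  have hfin : 120 / ε ^ 2 * A ^ 2 * L ^ 2 * W ^ 6 * T ^ 6 ≤ (k : ℝ) ^ ε := by
    calc 120 / ε ^ 2 * A ^ 2 * L ^ 2 * W ^ 6 * T ^ 6
        ≤ 120 / ε ^ 2 * A ^ 2 * W ^ 2 * W ^ 6 * T ^ 6 := by gcongr
      _ = (120 / ε ^ 2 * A ^ 2 * C ^ 6) * W ^ 8 * (k : ℝ) ^ (3 * ε / 8) := by rw [hT6]; ring
      _ ≤ (400 / ε ^ 2 * A ^ 2 * C ^ 6 + 1) * W ^ 8 * (k : ℝ) ^ (3 * ε / 8) := by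
          apply mul_le_mul_of_nonneg_right _ (by positivity)
          apply mul_le_mul_of_nonneg_right _ (by positivity)
          have : 120 / ε ^ 2 * A ^ 2 * C ^ 6 ≤ 400 / ε ^ 2 * A ^ 2 * C ^ 6 := by gcongr; norm_num
          linarith
      _ ≤ (k : ℝ) ^ (ε / 2) * (k : ℝ) ^ (3 * ε / 8) := by
          apply mul_le_mul_of_nonneg_right e1 (by positivity)
      _ = (k : ℝ) ^ (7 * ε / 8) := by rw [← Real.rpow_add hk0]; congr 1; ring
      _ ≤ (k : ℝ) ^ ε := Real.rpow_le_rpow_of_exponent_le hkr1 (by linarith)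
  have hY20 : 0 ≤ Y2 := by positivity
  have h1 : ((exc ε t k x y).card : ℝ) ≤ 30 * W ^ 6 * T ^ 6 * (y + Y2) / (thr ε A k y) ^ 2 := by
    rw [le_div_iff₀ (by positivity)]
    exact hcount
  refine h1.trans ?_
  calc 30 * W ^ 6 * T ^ 6 * (y + Y2) / (thr ε A k y) ^ 2
      = (120 / ε ^ 2 * A ^ 2 * L ^ 2 * W ^ 6 * T ^ 6) * ((k : ℝ) ^ 2 / y + k ^ 2 * Y2 / y ^ 2) := by
        unfold thr
        rw [← hL]
        field_simp
        ring
    _ ≤ (k : ℝ) ^ ε * ((k : ℝ) ^ 2 / y + k ^ 2 * Y2 / y ^ 2) := by gcongr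
    _ = (k : ℝ) ^ (2 - 2 * t + ε) + (k : ℝ) ^ (2 + ε) / y := by
        rw [hY2]
        have e1 : (k : ℝ) ^ (2 - 2 * t + ε) = (k : ℝ) ^ ε * ((k : ℝ) ^ 2 / (k : ℝ) ^ (2 * t)) := by
          rw [show (2 - 2 * t + ε) = ε + (2 - 2 * t) by ring, Real.rpow_add hk0, Real.rpow_sub hk0]
          norm_num
        have e2 : (k : ℝ) ^ (2 + ε) = (k : ℝ) ^ ε * (k : ℝ) ^ 2 := by
          rw [add_comm, Real.rpow_add hk0]
          norm_num
        rw [e1, e2]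
        have : (k : ℝ) ^ (2 * t) ≠ 0 := (Real.rpow_pos_of_pos hk0 _).ne'
        field_simp
        ring

end Pool.Agent.R502.BL
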