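import Pool.Agent.R502.BL.Main
import Pool.Agent.R502.BL.Blk
import Pool.Agent.R502.BL.Bur
import Pool.Agent.R502.BL.Fin

/-! The Brun-Titchmarsh inequality for all but few classes, prime moduli. -/

set_option autoImplicit false
set_option maxHeartbeats 4000000

namespace Pool.Agent.R502.BL
open Finset Filter
open Pool.Agent.H471R4.BW (shortSum)

open Classical in
lemma split_EE {q D D0 H J u v l : ℕ} (hcov : D ≤ D0 + J * H) (ρ : ℕ → ℝ) :
    EE ρ q D u v l = EE (fun d => if d ∈ DD q D then ρ d else 0) q D0 u v l +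
      EB q (fun d => if d ∈ DD q D then ρ d else 0) u v D0 H J l := by
  set α : ℕ → ℝ := fun d => if d ∈ DD q D then ρ d else 0 with hα
  set g : ℕ → ℝ := fun d => (cn q u v d l : ℝ) - ((v : ℝ) - u) / (d * q) with hg
  have e1 : EE ρ q D u v l = ∑ d ∈ Icc 1 (D0 + J * H), α d * g d := by
    unfold EE
    have hsub : DD q D ⊆ Icc 1 (D0 + J * H) := by
      intro d hd
      rw [mem_DD] at hd
      rw [mem_Icc]
      omega
    rw [← sum_subset hsub]
    · apply sum_congr rfl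
      intro d hd
      rw [hα]
      simp only [if_pos hd]
      rfl
    · intro d _ hd
      rw [hα]
      simp only [if_neg hd, zero_mul]
  have e2 : EE α q D0 u v l = ∑ d ∈ Icc 1 D0, α d * g d := by
    unfold EE DD
    apply sum_subset (filter_subset _ _)
    intro d hd hd'
    have h1 : d ∉ DD q D := by
      intro h
      apply hd'
      rw [mem_filter]
      exact ⟨hd, (mem_DD.1 h).2⟩
    rw [hα]
    simp only [if_neg h1, zero_mul]
  rw [e1, e2]
  unfold EB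
  rw [← sum_union]
  · apply sum_congr _ (fun _ _ => rfl)
    ext d
    rw [mem_union, mem_Icc, mem_Icc, mem_Ioc]
    omega
  · rw [disjoint_left]
    intro d hd hd'
    rw [mem_Icc] at hd
    rw [mem_Ioc] at hd'
    omega

lemma S_bound {q : ℕ} {η δ : ℝ} (hq : 1 ≤ q)
    (hbur : ∀ χ : DirichletCharacter ℂ q, χ ≠ 1 → ∀ X : ℕ, (q : ℝ) ^ (1 / 4 + η) ≤ X →
      (X : ℝ) ≤ (q : ℝ) ^ (1 / 2 + δ) → ‖shortSum q χ X‖ ≤ (q : ℝ) ^ (-δ) * X)
    (a b : ℕ) (hab : a ≤ b) (hb : (b : ℝ) ≤ (q : ℝ) ^ (1 / 2 + δ)) (χ : DirichletCharacter ℂ q) (hχ : χ ≠ 1) :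
    ‖∑ r ∈ Ioc a b, χ (r : ZMod q)‖ ≤ 2 * ((q : ℝ) ^ (-δ) * b + (q : ℝ) ^ (1 / 4 + η)) := by
  have hq0 : (0 : ℝ) < q := by exact_mod_cast hq
  have hone : ∀ X : ℕ, X ≤ b → ‖shortSum q χ X‖ ≤ (q : ℝ) ^ (-δ) * b + (q : ℝ) ^ (1 / 4 + η) := by
    intro X hX
    have hXr : (X : ℝ) ≤ b := by exact_mod_cast hX
    have h0 : 0 ≤ (q : ℝ) ^ (-δ) := (Real.rpow_pos_of_pos hq0 _).le
    have h1 : 0 ≤ (q : ℝ) ^ (1 / 4 + η) := (Real.rpow_pos_of_pos hq0 _).le
    rcases le_total ((q : ℝ) ^ (1 / 4 + η)) X with h | h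
    · have := hbur χ hχ X h (hXr.trans hb)
      have h2 : (q : ℝ) ^ (-δ) * X ≤ (q : ℝ) ^ (-δ) * b := mul_le_mul_of_nonneg_left hXr h0
      linarith
    · have h2 : ‖shortSum q χ X‖ ≤ X := by
        unfold shortSum
        refine (norm_sum_le _ _).trans ?_
        calc ∑ m ∈ Icc 1 X, ‖χ (m : ZMod q)‖ ≤ ∑ m ∈ Icc 1 X, (1 : ℝ) :=
              sum_le_sum fun m _ => DirichletCharacter.norm_le_one χ _
          _ = X := by simp
      have h3 : 0 ≤ (q : ℝ) ^ (-δ) * b := by positivity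
      linarith
  have e : ∑ r ∈ Ioc a b, χ (r : ZMod q) = shortSum q χ b - shortSum q χ a := by
    unfold shortSum
    rw [eq_sub_iff_add_eq, add_comm, ← sum_union]
    · apply sum_congr _ (fun _ _ => rfl)
      ext r
      rw [mem_union, mem_Icc, mem_Icc, mem_Ioc]
      omega
    · rw [disjoint_left]
      intro r hr hr'
      rw [mem_Icc] at hr
      rw [mem_Ioc] at hr'
      omega
  rw [e]
  refine (norm_sub_le _ _).trans ?_
  have h1 := hone b le_rfl
  have h2 := hone a hab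
  linarith

/-- Sums over some reduced classes and over all the units -/
lemma sum_units_le {q : ℕ} [NeZero q] (S : Finset ℕ) (hS : ∀ l ∈ S, l < q ∧ l.Coprime q) (g : ZMod q → ℕ → ℝ)
    (hg : ∀ a l, 0 ≤ g a l) :
    ∑ l ∈ S, g (l : ZMod q) l ≤ ∑ a : (ZMod q)ˣ, g (a : ZMod q) (a : ZMod q).val := by
  classical
  have h1 : ∑ l ∈ S, g (l : ZMod q) l = ∑ l ∈ S.attach, g (((ZMod.unitOfCoprime l.1 (hS l.1 l.2).2 : (ZMod q)ˣ) : ZMod q))
      ((ZMod.unitOfCoprime l.1 (hS l.1 l.2).2 : (ZMod q)ˣ) : ZMod q).val := by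
    rw [← sum_attach]
    apply sum_congr rfl
    intro l _
    rw [ZMod.coe_unitOfCoprime, ZMod.val_natCast, Nat.mod_eq_of_lt (hS l.1 l.2).1]
  rw [h1]
  have hinj : Set.InjOn (fun l : {l // l ∈ S} => (ZMod.unitOfCoprime l.1 (hS l.1 l.2).2 : (ZMod q)ˣ)) (S.attach : Set {l // l ∈ S}) := by
    intro l _ l' _ h
    have h2 := congrArg (fun a : (ZMod q)ˣ => (a : ZMod q).val) h
    simp only [ZMod.coe_unitOfCoprime, ZMod.val_natCast] at h2
    rw [Nat.mod_eq_of_lt (hS l.1 l.2).1, Nat.mod_eq_of_lt (hS l'.1 l'.2).1] at h2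
    exact Subtype.ext h2
  rw [← sum_image (f := fun a : (ZMod q)ˣ => g (a : ZMod q) (a : ZMod q).val) hinj]
  apply sum_le_sum_of_subset_of_nonneg (subset_univ _)
  intro a _ _
  exact hg _ _

lemma exc_sub {ε : ℝ} (hε : 0 < ε) (hε1 : ε ≤ 1) {q : ℕ} (hq3 : 3 ≤ q) {x y : ℝ}
    (hy1 : (q : ℝ) ^ (3 / 2 + ε) ≤ y) :
    exc ε (1 / 4) q x y ⊆ exc (ε / 2) (1 / 4 + 3 * (ε / 16)) q x y := by
  classical
  have hqr : (3 : ℝ) ≤ q := by exact_mod_cast hq3
  have hq0 : (0 : ℝ) < q := by linarith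
  have hL1 : 1 ≤ Real.log q := by
    rw [Real.le_log_iff_exp_le hq0]
    have := Real.exp_one_lt_d9
    linarith
  have hy0 : 0 < y := lt_of_lt_of_le (Real.rpow_pos_of_pos hq0 _) hy1
  have hlogy : (3 / 2 + ε) * Real.log q ≤ Real.log y := by
    have := Real.log_le_log (Real.rpow_pos_of_pos hq0 _) hy1
    rwa [Real.log_rpow hq0] at this
  have hl : ∀ t : ℝ, Real.log (y / (q : ℝ) ^ t) = Real.log y - t * Real.log q := by
    intro t
    rw [Real.log_div hy0.ne' (Real.rpow_pos_of_pos hq0 _).ne', Real.log_rpow hq0]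
  have hφ : (0 : ℝ) < Nat.totient q := by exact_mod_cast Nat.totient_pos.2 (by omega)
  intro l hlm
  unfold exc at hlm ⊢
  rw [mem_filter] at hlm ⊢
  refine ⟨hlm.1, hlm.2.1, lt_of_le_of_lt ?_ hlm.2.2⟩
  rw [hl, hl]
  set L := Real.log q with hL
  set Y := Real.log y with hY
  have hεL : 0 < ε * L := by positivity
  have h1 : 0 < Y - 1 / 4 * L := by nlinarith
  have h2 : 0 < Y - (1 / 4 + 3 * (ε / 16)) * L := by nlinarith
  rw [div_le_div_iff₀ (by positivity) (by positivity)]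
  have h3 : (2 + ε / 2) * (Y - 1 / 4 * L) ≤ (2 + ε) * (Y - (1 / 4 + 3 * (ε / 16)) * L) := by
    have h5 : (3 / 2 + ε) * L * ε ≤ Y * ε := mul_le_mul_of_nonneg_right hlogy hε.le
    nlinarith
  calc (2 + ε / 2) * y * (Nat.totient q * (Y - 1 / 4 * L)) = ((2 + ε / 2) * (Y - 1 / 4 * L)) * (y * Nat.totient q) := by ring
    _ ≤ ((2 + ε) * (Y - (1 / 4 + 3 * (ε / 16)) * L)) * (y * Nat.totient q) :=
        mul_le_mul_of_nonneg_right h3 (by positivity)
    _ = (2 + ε) * y * (Nat.totient q * (Y - (1 / 4 + 3 * (ε / 16)) * L)) := by ring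

theorem mainP (ε A : ℝ) (hε : 0 < ε) (hε1 : ε ≤ 1) : ∃ δ : ℝ, 0 < δ ∧ ∀ᶠ q : ℕ in atTop, q.Prime →
    ∀ x y : ℝ, (q : ℝ) ^ (3 / 2 + ε) ≤ y → y ≤ (q : ℝ) ^ A → y ≤ x → x ≤ y * (q : ℝ) ^ δ →
      ((exc ε (1 / 4) q x y).card : ℝ) ≤ (q : ℝ) ^ (1 - δ) := by
  classical
  rcases le_or_gt A 1 with hA | hA
  · refine ⟨1, one_pos, ?_⟩
    filter_upwards [eventually_gt_atTop 1] with q hq _ x y hy1 hy2 _ _
    exfalso
    have hq1 : (1 : ℝ) < q := by exact_mod_cast hq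
    have h1 : (q : ℝ) ^ (3 / 2 + ε) ≤ (q : ℝ) ^ A := hy1.trans hy2
    rw [Real.rpow_le_rpow_left_iff hq1] at h1
    linarith
  obtain ⟨β, hβ, hbur⟩ := bur (ε / 16) (by positivity)
  set δ₁ : ℝ := min β (ε / 16) with hδ₁
  have hδ₁0 : 0 < δ₁ := lt_min hβ (by positivity)
  have hδβ : δ₁ ≤ β := min_le_left _ _
  have hδε : δ₁ ≤ ε / 16 := min_le_right _ _
  obtain ⟨C, hC, hset⟩ := setup (ε / 2) A (δ₁ / 100) (by positivity) (by linarith) hA (by positivity)
  have hA0 : 0 < A := by linarith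
  refine ⟨δ₁ / 16, by positivity, ?_⟩
  set K : ℝ := 100000 / ε ^ 2 * A ^ 2 + 1000 / ε * A with hK
  have tc : Tendsto (fun q : ℕ => (q : ℝ)) atTop atTop := tendsto_natCast_atTop_atTop
  have f1 : ∀ᶠ x : ℝ in atTop, 4 ≤ x ^ (δ₁ / 8) :=
    (tendsto_rpow_atTop (by positivity)).eventually_ge_atTop _
  filter_upwards [hset, hbur, ev_poly (K * (C ^ 2 + C ^ 4 + C ^ 6)) (2 * (A + 1)) (δ₁ / 8) 8 (by positivity) (by positivity) (by positivity),
    tc.eventually f1, eventually_ge_atTop 3] with q hq hbq e1 e2 hq3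
  intro hqp x y hy1 hy2 hyx hxy
  haveI : Fact q.Prime := ⟨hqp⟩
  haveI : NeZero q := ⟨hqp.ne_zero⟩
  have hqr : (3 : ℝ) ≤ q := by exact_mod_cast hq3
  have hq0 : (0 : ℝ) < q := by linarith
  have hq1 : (1 : ℝ) ≤ q := by linarith
  have hqn1 : 1 ≤ q := by omega
  set Q : ℝ := (q : ℝ) with hQ
  set L := Real.log Q with hL
  have hL1 : 1 ≤ L := by
    rw [hL, Real.le_log_iff_exp_le hq0]
    have := Real.exp_one_lt_d9
    linarith
  have hL0 : 0 < L := by linarith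
  have rp : ∀ a b : ℝ, a ≤ b → Q ^ a ≤ Q ^ b := fun a b h => Real.rpow_le_rpow_of_exponent_le hq1 h
  have rpp : ∀ a : ℝ, 0 < Q ^ a := fun a => Real.rpow_pos_of_pos hq0 a
  have rad : ∀ a b : ℝ, Q ^ a * Q ^ b = Q ^ (a + b) := fun a b => (Real.rpow_add hq0 a b).symm
  have hy0 : 0 < y := lt_of_lt_of_le (rpp _) hy1
  have hy1' : 1 ≤ y := le_trans (Real.one_le_rpow hq1 (by linarith)) hy1
  have hbur' : ∀ χ : DirichletCharacter ℂ q, χ ≠ 1 → ∀ X : ℕ, Q ^ (1 / 4 + ε / 16) ≤ X →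
      (X : ℝ) ≤ Q ^ (1 / 2 + δ₁) → ‖shortSum q χ X‖ ≤ Q ^ (-δ₁) * X := by
    intro χ hχ X h1 h2
    refine (hbq hqp χ hχ X h1 (h2.trans (rp _ _ (by linarith)))).trans ?_
    apply mul_le_mul_of_nonneg_right _ (Nat.cast_nonneg _)
    exact rp _ _ (by linarith)
  set t : ℝ := 1 / 4 + 3 * (ε / 16) with ht
  have hyq : Q ^ (1 + ε / 2) ≤ y := (rp _ _ (by linarith)).trans hy1
  obtain ⟨hT, R, ρ, hR1, hDz, hρ, hEE⟩ := hq t (by positivity) (by rw [ht]; linarith) x y hyq hy2 hyx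
  set T := C * Q ^ (δ₁ / 100) with hTdef
  set D := R ^ 2 with hD
  have hD1 : 1 ≤ D := Nat.one_le_pow _ _ hR1
  have hDt : (D : ℝ) ≤ y / Q ^ t := hDz
  have hDy : (D : ℝ) ≤ y := hDz.trans (div_le_self hy0.le (Real.one_le_rpow hq1 (by rw [ht]; linarith)))
  have hT1 : 1 ≤ T := by
    have := hT 1 le_rfl (by rw [Nat.cast_one]; exact one_le_mul_of_one_le_of_one_le hq1 hy1')
    simpa using this
  -- the parameters
  set Y0 := y / Q ^ (1 / 2 + δ₁ / 2) with hY0
  have hY0big : 4 * Q ^ (1 + ε / 2) ≤ Y0 := by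
    rw [hY0, le_div_iff₀ (rpp _)]
    calc 4 * Q ^ (1 + ε / 2) * Q ^ (1 / 2 + δ₁ / 2) ≤ Q ^ (δ₁ / 8) * Q ^ (1 + ε / 2) * Q ^ (1 / 2 + δ₁ / 2) := by gcongr
      _ = Q ^ (δ₁ / 8 + (1 + ε / 2) + (1 / 2 + δ₁ / 2)) := by rw [rad, rad]
      _ ≤ Q ^ (3 / 2 + ε) := rp _ _ (by linarith)
      _ ≤ y := hy1
  have hQe1 : 1 ≤ Q ^ (1 + ε / 2) := Real.one_le_rpow hq1 (by linarith)
  have hY0pos : 0 < Y0 := by linarith
  set D0 := ⌊Y0⌋₊ with hD0
  have hD0le : (D0 : ℝ) ≤ Y0 := Nat.floor_le hY0pos.le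
  have hD0ge : Y0 / 2 ≤ D0 := by
    have := Nat.lt_floor_add_one Y0
    rw [← hD0] at this
    linarith
  have hD0r : (1 : ℝ) ≤ D0 := by linarith
  have hD01 : 1 ≤ D0 := by exact_mod_cast hD0r
  set θ := Q ^ (-(δ₁ / 2)) with hθ
  have hθ0 : 0 < θ := rpp _
  have hθ1 : θ ≤ 1 := Real.rpow_le_one_of_one_le_of_nonpos hq1 (by linarith)
  set H := ⌊θ * D0⌋₊ with hH
  have hHle : (H : ℝ) ≤ θ * D0 := Nat.floor_le (by positivity)
  have hHbig : Q ≤ θ * D0 := by
    calc Q = Q ^ (1 : ℝ) := (Real.rpow_one _).symm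
      _ ≤ Q ^ (-(δ₁ / 2) + (1 + ε / 2)) := rp _ _ (by linarith)
      _ = θ * Q ^ (1 + ε / 2) := by rw [← rad]
      _ ≤ θ * D0 := by
          apply mul_le_mul_of_nonneg_left _ hθ0.le
          linarith
  have hqH : q ≤ H := Nat.le_floor hHbig
  have hH1 : 1 ≤ H := hqn1.trans hqH
  have hHD : H ≤ D0 := by
    have h1 : (H : ℝ) ≤ D0 := hHle.trans (mul_le_of_le_one_left (by linarith) hθ1)
    exact_mod_cast h1
  set J := D / H + 1 with hJ
  have hcov : D ≤ D0 + J * H := by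
    have h1 := Nat.div_add_mod D H
    have h2 := Nat.mod_lt D (by omega : H > 0)
    rw [hJ, add_mul, one_mul, mul_comm (D / H) H]
    omega
  have hJH : (J : ℝ) * H ≤ D + H := by
    have h1 : (D / H) * H ≤ D := Nat.div_mul_le_self D H
    have h2 : J * H ≤ D + H := by rw [hJ, add_mul, one_mul]; omega
    exact_mod_cast h2
  set u := ⌊x - y⌋₊ with hu
  set v := ⌊x⌋₊ with hv
  have huv : u ≤ v := Nat.floor_le_floor (by linarith)
  have hvx : (v : ℝ) ≤ x := Nat.floor_le (by linarith)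
  have hvy : y / 2 ≤ v := by
    have h1 : x < v + 1 := Nat.lt_floor_add_one _
    have h2 : (2 : ℝ) ≤ y := by
      have h3 : (4 : ℝ) ≤ Y0 := by linarith
      have h4 : Y0 ≤ y := div_le_self hy0.le (Real.one_le_rpow hq1 (by positivity))
      linarith
    linarith
  have hv0 : (0 : ℝ) < v := by linarith
  have hvQ : (v : ℝ) ≤ y * Q ^ (δ₁ / 16) := hvx.trans hxy
  have hvu : ((v : ℝ) - u) ≤ y + 1 := by
    have h2 : x - y < u + 1 := Nat.lt_floor_add_one _
    linarith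
  set W := 1 + 2 * (A + 1) * L with hW
  have hW1 : 1 ≤ W := by
    have : 0 ≤ 2 * (A + 1) * L := by positivity
    linarith
  have hlogy : Real.log y ≤ A * L := by
    have := Real.log_le_log hy0 hy2
    rwa [Real.log_rpow hq0] at this
  have hlogJ : 1 + Real.log J ≤ W := by
    have h1 : (J : ℝ) ≤ 2 * y := by
      have h2 : J ≤ D + 1 := by
        rw [hJ]
        have := Nat.div_le_self D H
        omega
      have h3 : (J : ℝ) ≤ D + 1 := by exact_mod_cast h2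
      linarith
    have hJ1 : (0 : ℝ) < J := by
      have : 0 < J := by rw [hJ]; exact Nat.succ_pos _
      exact_mod_cast this
    have h4 := Real.log_le_log hJ1 h1
    rw [Real.log_mul (by norm_num) hy0.ne'] at h4
    have h5 : Real.log 2 ≤ 1 := by
      have := Real.log_two_lt_d9
      linarith
    have h6 : 0 ≤ A * L := by positivity
    rw [hW]
    linarith
  set α : ℕ → ℝ := fun d => if d ∈ DD q D then ρ d else 0 with hα
  set B := (1 + 2 * A * L) ^ 2 * T ^ 2 with hBdef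
  have hB0 : 0 ≤ B := by positivity
  have hBW : B ≤ W ^ 2 * T ^ 2 := by
    rw [hBdef]
    apply mul_le_mul_of_nonneg_right _ (by positivity)
    apply pow_le_pow_left₀ (by positivity)
    have h6 : 0 ≤ L := hL0.le
    rw [hW]
    linarith
  have hαB : ∀ d, |α d| ≤ B := by
    intro d
    rw [hα]
    simp only
    split_ifs with h
    · exact hρ d h
    · rw [abs_zero]; exact hB0
  have hα0 : ∀ d, α d ≠ 0 → d.Coprime q := by
    intro d hd
    by_contra h
    apply hd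
    rw [hα]
    simp only
    rw [if_neg]
    intro h'
    exact h (mem_DD.1 h').2
  -- the first part
  have hV1 : ∑ l ∈ range q, (EE α q D0 u v l) ^ 2 ≤ 30 * W ^ 6 * T ^ 6 * (y + Y0 ^ 2) := by
    apply variance' hqn1 hD01 huv hA hL1 _ hT1 _ hy1' hvu _ α (fun d _ => hαB d)
    · have h1 : Real.log ((q : ℝ) * D0) ≤ Real.log (Q * Q ^ A) := by
        apply Real.log_le_log (by positivity)
        apply mul_le_mul_of_nonneg_left _ hq0.le
        exact (hD0le.trans (div_le_self hy0.le (Real.one_le_rpow hq1 (by positivity)))).trans hy2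
      rw [Real.log_mul hq0.ne' (rpp _).ne', Real.log_rpow hq0] at h1
      linarith
    · intro n hn1 hn2
      apply hT n hn1
      have h4 : Y0 ≤ y := div_le_self hy0.le (Real.one_le_rpow hq1 (by positivity))
      calc (n : ℝ) ≤ ((q * D0 : ℕ) : ℝ) := by exact_mod_cast hn2
        _ = Q * D0 := by push_cast; ring
        _ ≤ Q * y := by
            apply mul_le_mul_of_nonneg_left _ hq0.le
            linarith
    · exact pow_le_pow_left₀ (by positivity) hD0le 2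
  -- the second part
  have hV2 := block1 (J := J) hqp huv hD01 hH1 hθ1 hHle α hB0 hαB hα0
  -- the third part
  have haj0 : ∀ j, (1 : ℝ) ≤ aj D0 H j := by
    intro j
    unfold aj
    push_cast
    have : (0 : ℝ) ≤ (j : ℝ) * H := by positivity
    linarith
  have hS : ∀ j < J, ∀ χ : DirichletCharacter ℂ q, χ ≠ 1 →
      ‖∑ r ∈ Ij u v D0 H j, χ (r : ZMod q)‖ ≤ (4 * Q ^ (-δ₁)) * (v / (aj D0 H j : ℝ)) := by
    intro j hj χ hχ
    have ha0 : (0 : ℝ) < aj D0 H j := by linarith [haj0 j]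
    unfold Ij
    have hvb : ((v / aj D0 H j : ℕ) : ℝ) ≤ v / (aj D0 H j : ℝ) := Nat.cast_div_le
    have hb2 : (v : ℝ) / (aj D0 H j : ℝ) ≤ Q ^ (1 / 2 + δ₁) := by
      have h1 : (v : ℝ) / (aj D0 H j : ℝ) ≤ v / D0 := by
        apply div_le_div_of_nonneg_left hv0.le (by linarith)
        unfold aj
        push_cast
        have : (0 : ℝ) ≤ (j : ℝ) * H := by positivity
        linarith
      refine h1.trans ?_
      rw [div_le_iff₀ (by linarith)]
      calc (v : ℝ) ≤ y * Q ^ (δ₁ / 16) := hvQ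
        _ = Q ^ (1 / 2 + δ₁ / 2) * Q ^ (δ₁ / 16) * Y0 := by
            rw [hY0]
            have := (rpp (1 / 2 + δ₁ / 2)).ne'
            field_simp
        _ ≤ Q ^ (1 / 2 + δ₁ / 2) * Q ^ (δ₁ / 16) * (2 * D0) := by
            apply mul_le_mul_of_nonneg_left _ (by positivity)
            linarith
        _ ≤ Q ^ (1 / 2 + δ₁ / 2) * Q ^ (δ₁ / 16) * (Q ^ (δ₁ / 8) * D0) := by
            apply mul_le_mul_of_nonneg_left _ (by positivity)
            apply mul_le_mul_of_nonneg_right _ (by positivity)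
            linarith
        _ = Q ^ (1 / 2 + δ₁ / 2 + δ₁ / 16 + δ₁ / 8) * D0 := by
            rw [← rad (1 / 2 + δ₁ / 2 + δ₁ / 16) (δ₁ / 8), ← rad (1 / 2 + δ₁ / 2) (δ₁ / 16)]; ring
        _ ≤ Q ^ (1 / 2 + δ₁) * D0 := by
            apply mul_le_mul_of_nonneg_right _ (by positivity)
            exact rp _ _ (by linarith)
    have h1 := S_bound hqn1 hbur' (u / aj D0 H j) (v / aj D0 H j) (Nat.div_le_div_right huv)
      (hvb.trans hb2) χ hχ
    refine h1.trans ?_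
    -- the length of the intervals is large
    have haj : (aj D0 H j : ℝ) ≤ 2 * (y / Q ^ t) := by
      have h2 : aj D0 H j ≤ D0 + D := by
        unfold aj
        have h3 : j ≤ D / H := by rw [hJ] at hj; omega
        have h4 : j * H ≤ D := (Nat.mul_le_mul_right H h3).trans (Nat.div_mul_le_self D H)
        omega
      have h3 : (aj D0 H j : ℝ) ≤ D0 + D := by exact_mod_cast h2
      have h4 : Y0 ≤ y / Q ^ t := by
        rw [hY0]
        apply div_le_div_of_nonneg_left hy0.le (rpp _)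
        apply rp
        rw [ht]
        linarith
      linarith
    have hlen : Q ^ (1 / 4 + ε / 16) ≤ Q ^ (-δ₁) * (v / (aj D0 H j : ℝ)) := by
      have h2 : Q ^ t / 4 ≤ v / (aj D0 H j : ℝ) := by
        rw [div_le_div_iff₀ (by norm_num) ha0]
        calc Q ^ t * (aj D0 H j : ℝ) ≤ Q ^ t * (2 * (y / Q ^ t)) := by gcongr
          _ = 2 * y := by have := (rpp t).ne'; field_simp
          _ ≤ v * 4 := by linarith
      calc Q ^ (1 / 4 + ε / 16) = Q ^ (-δ₁) * (Q ^ (1 / 4 + ε / 16 + δ₁)) := by rw [rad]; congr 1; ring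
        _ ≤ Q ^ (-δ₁) * (Q ^ t / 4) := by
            apply mul_le_mul_of_nonneg_left _ (rpp _).le
            rw [le_div_iff₀ (by norm_num)]
            calc Q ^ (1 / 4 + ε / 16 + δ₁) * 4 ≤ Q ^ (1 / 4 + ε / 16 + δ₁) * Q ^ (δ₁ / 8) := by gcongr
              _ = Q ^ (1 / 4 + ε / 16 + δ₁ + δ₁ / 8) := by rw [rad]
              _ ≤ Q ^ t := by
                  apply rp
                  rw [ht]
                  linarith
        _ ≤ _ := by gcongr
    have h5 : Q ^ (-δ₁) * ((v / aj D0 H j : ℕ) : ℝ) ≤ Q ^ (-δ₁) * (v / (aj D0 H j : ℝ)) :=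
      mul_le_mul_of_nonneg_left hvb (rpp _).le
    linarith
  have hV3 := block2 (J := J) hD01 hqH hHD (by positivity : 0 ≤ 4 * Q ^ (-δ₁)) α hB0 hαB hS
  -- the exceptional classes
  set τ := thr (ε / 2) A q y with hτ
  have hτe : τ = ε / 4 * (y / (Q * (A * L))) := by rw [hτ]; unfold thr; ring
  have hτ0 : 0 < τ := by rw [hτe]; positivity
  set E := exc (ε / 2) t q x y with hE
  have hEl : ∀ l ∈ E, l < q ∧ l.Coprime q := by
    intro l hl
    rw [hE] at hl
    unfold exc at hl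
    rw [mem_filter, mem_range] at hl
    exact ⟨hl.1, hl.2.1⟩
  set S1 : Finset ℕ := E.filter (fun l : ℕ => τ / 3 ≤ EE α q D0 u v l) with hS1
  set S2 : Finset ℕ := E.filter (fun l : ℕ => τ / 3 ≤ |EB q α u v D0 H J l - YY α u v D0 H J (l : ZMod q)|) with hS2
  set S3 : Finset ℕ := E.filter (fun l : ℕ => τ / 3 ≤ YY α u v D0 H J (l : ZMod q)) with hS3
  have hsub : E ⊆ S1 ∪ (S2 ∪ S3) := by
    intro l hl
    rw [mem_union, mem_union, mem_filter, mem_filter, mem_filter]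
    by_contra h
    push Not at h
    obtain ⟨h1, h2, h3⟩ := h
    have h1 := h1 hl
    have h2 := h2 hl
    have h3 := h3 hl
    have h4 := hEE l hl
    rw [split_EE hcov ρ] at h4
    have h5 := le_abs_self (EB q α u v D0 H J l - YY α u v D0 H J (l : ZMod q))
    linarith
  have c1 : (S1.card : ℝ) * (τ / 3) ^ 2 ≤ 30 * W ^ 6 * T ^ 6 * (y + Y0 ^ 2) := by
    calc (S1.card : ℝ) * (τ / 3) ^ 2 = ∑ l ∈ S1, (τ / 3) ^ 2 := by rw [sum_const, nsmul_eq_mul]
      _ ≤ ∑ l ∈ S1, (EE α q D0 u v l) ^ 2 :=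
          sum_le_sum fun l hl => pow_le_pow_left₀ (by positivity) (mem_filter.1 hl).2 2
      _ ≤ ∑ l ∈ range q, (EE α q D0 u v l) ^ 2 := by
          apply sum_le_sum_of_subset_of_nonneg
          · intro l hl
            exact mem_range.2 (hEl l (mem_filter.1 hl).1).1
          · intro _ _ _; exact sq_nonneg _
      _ ≤ _ := hV1
  have c2 : (S2.card : ℝ) * (τ / 3) ≤ B * (3 * v * θ * (1 + Real.log J) + 4 * (J * H)) := by
    calc (S2.card : ℝ) * (τ / 3) = ∑ l ∈ S2, (τ / 3) := by rw [sum_const, nsmul_eq_mul]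
      _ ≤ ∑ l ∈ S2, |EB q α u v D0 H J l - YY α u v D0 H J (l : ZMod q)| :=
          sum_le_sum fun l hl => (mem_filter.1 hl).2
      _ ≤ ∑ a : (ZMod q)ˣ, |EB q α u v D0 H J (a : ZMod q).val - YY α u v D0 H J (a : ZMod q)| :=
          sum_units_le S2 (fun l hl => hEl l (mem_filter.1 hl).1)
            (fun a l => |EB q α u v D0 H J l - YY α u v D0 H J a|) (fun _ _ => abs_nonneg _)
      _ ≤ _ := hV2
  have c3 : (S3.card : ℝ) * (τ / 3) ^ 2 ≤
      2 * B ^ 2 * (4 * Q ^ (-δ₁)) ^ 2 * (v : ℝ) ^ 2 / q * (1 + Real.log J) ^ 2 := by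
    calc (S3.card : ℝ) * (τ / 3) ^ 2 = ∑ l ∈ S3, (τ / 3) ^ 2 := by rw [sum_const, nsmul_eq_mul]
      _ ≤ ∑ l ∈ S3, (YY α u v D0 H J (l : ZMod q)) ^ 2 :=
          sum_le_sum fun l hl => pow_le_pow_left₀ (by positivity) (mem_filter.1 hl).2 2
      _ ≤ ∑ a : (ZMod q)ˣ, (YY α u v D0 H J (a : ZMod q)) ^ 2 :=
          sum_units_le S3 (fun l hl => hEl l (mem_filter.1 hl).1)
            (fun a _ => (YY α u v D0 H J a) ^ 2) (fun _ _ => sq_nonneg _)
      _ ≤ _ := hV3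
  have hLW : L ≤ W := by
    have : 0 ≤ (2 * A + 1) * L := by positivity
    rw [hW]
    linarith
  have hlJ0 : 0 ≤ Real.log J := Real.log_natCast_nonneg J
  have b1 := fin1 hε hA0 hq1 hL1 hLW hT1 ((rp _ _ (by linarith)).trans hy1) hY0 hτe c1
  have b2 := fin2 (D := (D : ℝ)) (H := (H : ℝ)) hε hA0 hq1 hL1 hLW hT1 hW1 hy0 hv0.le hvQ hθ hlJ0 hlogJ (by positivity) hJH (by
      refine hDt.trans ?_
      rw [div_eq_mul_inv, ← Real.rpow_neg hq0.le]
      apply mul_le_mul_of_nonneg_left _ hy0.le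
      apply rp
      rw [ht]
      linarith) (by
      have h8 : (H : ℝ) ≤ D0 := by exact_mod_cast hHD
      refine (h8.trans hD0le).trans ?_
      rw [hY0, div_eq_mul_inv, ← Real.rpow_neg hq0.le]
      apply mul_le_mul_of_nonneg_left _ hy0.le
      apply rp
      linarith) hBW hτe c2
  have b3 := fin3 hε hA0 hq1 hL1 hLW hT1 hy0 hv0.le hvQ hlJ0 hlogJ hB0 hBW hτe c3
  have hcardE : ((exc ε (1 / 4) q x y).card : ℝ) ≤ S1.card + (S2.card + S3.card) := by
    have h1 := card_le_card ((exc_sub hε hε1 hq3 (x := x) hy1).trans hsub)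
    have h2 := h1.trans (card_union_le _ _)
    have h3 := card_union_le S2 S3
    have h4 : (exc ε (1 / 4) q x y).card ≤ S1.card + (S2.card + S3.card) := by omega
    exact_mod_cast h4
  exact hcardE.trans (fin4 (ε := ε) (A := A) hε hA0 hq1 hW1 hC hδ₁0 hTdef hK e1 b1 b2 b3)

end Pool.Agent.R502.BL
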