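import Pool.Agent.R502.BL.Var
import Pool.Agent.H617R3.BT.Sieve

/-! The weights of Selberg's upper bound sieve for the integers prime to `k`. -/

set_option autoImplicit false
set_option maxHeartbeats 4000000

namespace Pool.Agent.R502.BL
open Finset
open Pool.Agent.Helper923.PPS
open Pool.Agent.Erdos456.SieveAux (ww JJ ww_one ww_zero ww_bound mainSum_eq JJ_pos)

/-- `∑_{d ∣ n} ρ(d)` over the `d ≤ D` prime to `k` -/
noncomputable def th (ρ : ℕ → ℝ) (k D n : ℕ) : ℝ := ∑ d ∈ DD k D, if d ∣ n then ρ d else 0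

lemma ww_ne {k R d : ℕ} (h : ww (apSieve 0 k 1 R) R d ≠ 0) : d ∣ PP k R ∧ d ≤ R := by
  unfold ww at h
  have h1 : ((Nat.divisors (apSieve 0 k 1 R).prodPrimes).filter (fun k => d ∣ k ∧ k ≤ R)).Nonempty := by
    by_contra hne
    rw [not_nonempty_iff_eq_empty] at hne
    rw [hne, sum_empty, mul_zero] at h
    exact h rfl
  obtain ⟨m, hm⟩ := h1
  rw [mem_filter, Nat.mem_divisors] at hm
  refine ⟨hm.2.1.trans hm.1.1, ?_⟩
  have hm0 : m ≠ 0 := ne_zero_of_dvd_ne_zero hm.1.2 hm.1.1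
  exact (Nat.le_of_dvd (Nat.pos_of_ne_zero hm0) hm.2.1).trans hm.2.2

lemma sq_div (w : ℕ → ℝ) (n : ℕ) (hn : n ≠ 0) :
    (∑ d ∈ n.divisors, w d) ^ 2 = ∑ d ∈ n.divisors, BoundingSieve.lambdaSquared w d := by
  unfold BoundingSieve.lambdaSquared
  have h1 : ∀ d ∈ n.divisors, (∑ d1 ∈ d.divisors, ∑ d2 ∈ d.divisors,
      if d = Nat.lcm d1 d2 then w d1 * w d2 else 0) =
      ∑ d1 ∈ n.divisors, ∑ d2 ∈ n.divisors, if d = Nat.lcm d1 d2 then w d1 * w d2 else 0 := by
    intro d hd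
    rw [Nat.mem_divisors] at hd
    have hd0 : d ≠ 0 := ne_zero_of_dvd_ne_zero hd.2 hd.1
    have hsub : d.divisors ⊆ n.divisors := Nat.divisors_subset_of_dvd hd.2 hd.1
    rw [← sum_subset hsub]
    · apply sum_congr rfl
      intro d1 _
      apply sum_subset hsub
      intro d2 _ hd2
      rw [if_neg]
      intro h
      apply hd2
      rw [Nat.mem_divisors]
      exact ⟨h ▸ Nat.dvd_lcm_right d1 d2, hd0⟩
    · intro d1 _ hd1
      apply sum_eq_zero
      intro d2 _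
      rw [if_neg]
      intro h
      apply hd1
      rw [Nat.mem_divisors]
      exact ⟨h ▸ Nat.dvd_lcm_left d1 d2, hd0⟩
  rw [sum_congr rfl h1, sq, sum_mul_sum]
  symm
  rw [sum_comm]
  apply sum_congr rfl
  intro d1 hd1
  rw [sum_comm]
  apply sum_congr rfl
  intro d2 hd2
  rw [Nat.mem_divisors] at hd1 hd2
  rw [sum_eq_single (Nat.lcm d1 d2)]
  · rw [if_pos rfl]
  · intro b _ hb
    rw [if_neg hb]
  · intro h
    exfalso
    apply h
    rw [Nat.mem_divisors]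
    exact ⟨Nat.lcm_dvd hd1.1 hd2.1, hn⟩

theorem wts (k R : ℕ) (hk : 1 ≤ k) (hR : 1 ≤ R) : ∃ ρ : ℕ → ℝ,
    (∀ d ∈ DD k (R ^ 2), |ρ d| ≤ (1 + Real.log R / Real.log 2) ^ 2 * (d.divisors.card : ℝ) ^ 2) ∧
    (∀ n : ℕ, 1 ≤ n → 0 ≤ th ρ k (R ^ 2) n) ∧
    (∀ n : ℕ, 1 ≤ n → (∀ p : ℕ, p.Prime → p ≤ R → p ∣ n → p ∣ k) → th ρ k (R ^ 2) n = 1) ∧
    ∑ d ∈ DD k (R ^ 2), ρ d / d ≤ ((k : ℝ) / Nat.totient k) / Real.log ((R : ℝ) + 1) := by
  classical
  set s := apSieve 0 k 1 R with hs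
  set w := ww s R with hw
  set ρ := BoundingSieve.lambdaSquared w with hρ
  have hP0 : PP k R ≠ 0 := (PP_squarefree k R).ne_zero
  have hR1 : (1 : ℝ) ≤ R := by exact_mod_cast hR
  have hlogR : 0 ≤ Real.log R := Real.log_nonneg hR1
  have hl2 : 0 < Real.log 2 := Real.log_pos (by norm_num)
  set A : ℝ := 1 + Real.log R / Real.log 2 with hA
  have hA0 : 0 ≤ A := by positivity
  have hwb : ∀ d, |w d| ≤ A := by
    intro d
    by_cases h0 : w d = 0
    · rw [h0, abs_zero]; exact hA0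
    obtain ⟨hdP, hdR⟩ := ww_ne h0
    have hd' : d ∈ Nat.divisors s.prodPrimes := Nat.mem_divisors.2 ⟨hdP, hP0⟩
    refine (ww_bound R hR hd').trans ?_
    have hd0 : d ≠ 0 := ne_zero_of_dvd_ne_zero hP0 hdP
    rw [BoundingSieve.selbergTerms_apply]
    change ((d : ℝ)⁻¹ * ∏ p ∈ d.primeFactors, (1 - (p : ℝ)⁻¹)⁻¹) / (d : ℝ)⁻¹ ≤ _
    have hdr : (d : ℝ) ≠ 0 := by exact_mod_cast hd0
    rw [mul_div_assoc, mul_comm, div_mul_cancel₀ _ (inv_ne_zero hdr)]
    refine (Pool.Agent.H617R3.BT.prod_le_card _ fun p hp => (Nat.prime_of_mem_primeFactors hp).two_le).trans ?_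
    have h1 := Pool.Agent.H617R3.BT.card_primeFactors_le hd0
    have h2 : Real.log d ≤ Real.log R := by
      apply Real.log_le_log (by exact_mod_cast Nat.pos_of_ne_zero hd0)
      exact_mod_cast hdR
    have h3 : Real.log d / Real.log 2 ≤ Real.log R / Real.log 2 := by gcongr
    linarith
  have hρne : ∀ d, ρ d ≠ 0 → d ∣ PP k R ∧ d ≤ R ^ 2 := by
    intro d hd
    rw [hρ] at hd
    unfold BoundingSieve.lambdaSquared at hd
    obtain ⟨d1, hd1, h1⟩ := exists_ne_zero_of_sum_ne_zero hd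
    obtain ⟨d2, hd2, h2⟩ := exists_ne_zero_of_sum_ne_zero h1
    split_ifs at h2 with h3
    · obtain ⟨a1, a2⟩ := ww_ne (left_ne_zero_of_mul h2)
      obtain ⟨b1, b2⟩ := ww_ne (right_ne_zero_of_mul h2)
      rw [h3]
      refine ⟨Nat.lcm_dvd a1 b1, ?_⟩
      have a0 : d1 ≠ 0 := ne_zero_of_dvd_ne_zero hP0 a1
      have b0 : d2 ≠ 0 := ne_zero_of_dvd_ne_zero hP0 b1
      calc Nat.lcm d1 d2 ≤ d1 * d2 := Nat.le_of_dvd (Nat.mul_pos (by omega) (by omega)) (Nat.lcm_dvd_mul d1 d2)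
        _ ≤ R * R := Nat.mul_le_mul a2 b2
        _ = R ^ 2 := by ring
    · exact absurd rfl h2
  have hρDD : ∀ d, ρ d ≠ 0 → d ∈ DD k (R ^ 2) := by
    intro d hd
    obtain ⟨h1, h2⟩ := hρne d hd
    rw [mem_DD]
    exact ⟨⟨Nat.pos_of_ne_zero (ne_zero_of_dvd_ne_zero hP0 h1), h2⟩, coprime_of_dvd_PP h1⟩
  have hth : ∀ n : ℕ, 1 ≤ n → th ρ k (R ^ 2) n = (∑ d ∈ n.divisors, w d) ^ 2 := by
    intro n hn
    rw [sq_div w n (by omega)]
    unfold th
    rw [← sum_filter]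
    have h1 : ∑ d ∈ (DD k (R ^ 2)).filter (fun d => d ∣ n), ρ d =
        ∑ d ∈ ((DD k (R ^ 2)).filter (fun d => d ∣ n)).filter (fun d => ρ d ≠ 0), ρ d := by
      rw [sum_filter_ne_zero]
    have h2 : ∑ d ∈ n.divisors, ρ d = ∑ d ∈ n.divisors.filter (fun d => ρ d ≠ 0), ρ d := by
      rw [sum_filter_ne_zero]
    rw [h1]
    change _ = ∑ d ∈ n.divisors, ρ d
    rw [h2]
    apply sum_congr _ (fun _ _ => rfl)
    ext d
    simp only [mem_filter, Nat.mem_divisors]
    constructor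
    · rintro ⟨⟨_, h3⟩, h4⟩
      exact ⟨⟨h3, by omega⟩, h4⟩
    · rintro ⟨⟨h3, _⟩, h4⟩
      exact ⟨⟨hρDD d h4, h3⟩, h4⟩
  refine ⟨ρ, ?_, ?_, ?_, ?_⟩
  · intro d _
    rw [hρ]
    unfold BoundingSieve.lambdaSquared
    refine (abs_sum_le_sum_abs _ _).trans ?_
    calc ∑ d1 ∈ d.divisors, |∑ d2 ∈ d.divisors, if d = Nat.lcm d1 d2 then w d1 * w d2 else 0|
        ≤ ∑ d1 ∈ d.divisors, ∑ d2 ∈ d.divisors, A * A := by
          apply sum_le_sum
          intro d1 _
          refine (abs_sum_le_sum_abs _ _).trans ?_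
          apply sum_le_sum
          intro d2 _
          split_ifs
          · rw [abs_mul]
            exact mul_le_mul (hwb d1) (hwb d2) (abs_nonneg _) hA0
          · rw [abs_zero]; positivity
      _ = A ^ 2 * (d.divisors.card : ℝ) ^ 2 := by
          rw [sum_const, sum_const, nsmul_eq_mul, nsmul_eq_mul]
          ring
  · intro n hn
    rw [hth n hn]
    exact sq_nonneg _
  · intro n hn hp
    rw [hth n hn]
    have h1 : ∑ d ∈ n.divisors, w d = w 1 := by
      apply sum_eq_single 1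
      · intro d hd hd1
        rw [Nat.mem_divisors] at hd
        by_contra h0
        obtain ⟨h2, h3⟩ := ww_ne h0
        obtain ⟨p, hpp, hpd⟩ := Nat.exists_prime_and_dvd hd1
        have h4 := (prime_dvd_PP hpp).1 (hpd.trans h2)
        exact h4.2 (hp p hpp h4.1 (hpd.trans hd.1))
      · intro h
        exfalso
        apply h
        rw [Nat.mem_divisors]
        exact ⟨one_dvd _, by omega⟩
    rw [h1, hw, ww_one R hR]
    norm_num
  · have h1 : ∑ d ∈ DD k (R ^ 2), ρ d / d = s.mainSum ρ := by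
      unfold BoundingSieve.mainSum
      change ∑ d ∈ DD k (R ^ 2), ρ d / d = ∑ d ∈ Nat.divisors (PP k R), ρ d * (d : ℝ)⁻¹
      have e1 : ∑ d ∈ DD k (R ^ 2), ρ d / d = ∑ d ∈ (DD k (R ^ 2)).filter (fun d => ρ d ≠ 0), ρ d / d := by
        symm
        apply sum_subset (filter_subset _ _)
        intro d hd hd2
        rw [mem_filter, not_and, not_not] at hd2
        rw [hd2 hd, zero_div]
      have e2 : ∑ d ∈ Nat.divisors (PP k R), ρ d * (d : ℝ)⁻¹ =
          ∑ d ∈ (Nat.divisors (PP k R)).filter (fun d => ρ d ≠ 0), ρ d * (d : ℝ)⁻¹ := by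
        symm
        apply sum_subset (filter_subset _ _)
        intro d hd hd2
        rw [mem_filter, not_and, not_not] at hd2
        rw [hd2 hd, zero_mul]
      rw [e1, e2]
      apply sum_congr
      · ext d
        simp only [mem_filter, Nat.mem_divisors]
        constructor
        · rintro ⟨_, h4⟩
          exact ⟨⟨(hρne d h4).1, hP0⟩, h4⟩
        · rintro ⟨_, h4⟩
          exact ⟨hρDD d h4, h4⟩
      · intro d _
        rw [div_eq_mul_inv]
    rw [h1, hρ, hw, mainSum_eq R hR]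
    have hJ : ((Nat.totient k : ℝ) / k) * Real.log ((R : ℝ) + 1) ≤ JJ s R := by
      have h1 := Pool.Agent.H307R2.OP.BT4P.selS_ge2 (a := 0) (q := k) (N := 1) (R := R) hk
      refine h1.trans (le_of_eq ?_)
      unfold selS Pool.Agent.Erdos456.SieveAux.JJ
      apply Finset.sum_congr _ fun _ _ => rfl
      ext l
      simp only [Finset.mem_filter, Nat.cast_le]
      rfl
    have hq' : (0 : ℝ) < k := by exact_mod_cast hk
    have ht' : (0 : ℝ) < Nat.totient k := by exact_mod_cast Nat.totient_pos.2 hk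
    have hlog : 0 < Real.log ((R : ℝ) + 1) := Real.log_pos (by linarith)
    calc 1 / JJ s R ≤ 1 / (((Nat.totient k : ℝ) / k) * Real.log ((R : ℝ) + 1)) :=
          one_div_le_one_div_of_le (by positivity) hJ
      _ = ((k : ℝ) / Nat.totient k) / Real.log ((R : ℝ) + 1) := by field_simp

end Pool.Agent.R502.BL
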