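import Pool.Agent.R502.BL.Conv
import Pool.Agent.R502.BL.Wt
import Pool.Agent.Cov.PNT

/-! Many classes contain a small prime. -/

set_option autoImplicit false
set_option maxHeartbeats 4000000

namespace Pool.Agent.R502.BL
open Finset Filter

/-- the classes with a prime `< z` -/
noncomputable def good (m : ℕ) (z : ℝ) : Finset ℕ := by
  classical
  exact (range m).filter (fun a => a.Coprime m ∧ ∃ p : ℕ, p.Prime ∧ p ≡ a [MOD m] ∧ (p : ℝ) < z)

lemma mem_good {m a : ℕ} {z : ℝ} : a ∈ good m z ↔ a < m ∧ a.Coprime m ∧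
    ∃ p : ℕ, p.Prime ∧ p ≡ a [MOD m] ∧ (p : ℝ) < z := by
  classical
  unfold good
  simp only [mem_filter, mem_range]

lemma sum_pc (m R : ℕ) (hm : 1 ≤ m) : Nat.primeCounting R ≤
    (∑ a ∈ (range m).filter (fun a => a.Coprime m), pc m 0 R a) + m.primeFactors.card := by
  classical
  have h1 : Nat.primeCounting R = ((Ioc 0 R).filter Nat.Prime).card := by
    rw [Nat.primeCounting, Nat.primeCounting', Nat.count_eq_card_filter_range]
    congr 1
    ext p
    rw [mem_filter, mem_filter, mem_range, mem_Ioc]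
    constructor
    · rintro ⟨h, hp⟩; exact ⟨⟨hp.pos, by omega⟩, hp⟩
    · rintro ⟨⟨_, h⟩, hp⟩; exact ⟨by omega, hp⟩
  have h2 : ((Ioc 0 R).filter Nat.Prime) ⊆
      ((Ioc 0 R).filter (fun p => p.Prime ∧ p.Coprime m)) ∪ m.primeFactors := by
    intro p hp
    rw [mem_filter] at hp
    rw [mem_union, mem_filter]
    by_cases hc : p.Coprime m
    · exact Or.inl ⟨hp.1, hp.2, hc⟩
    · refine Or.inr (Nat.mem_primeFactors.2 ⟨hp.2, ?_, by omega⟩)
      by_contra h
      exact hc ((Nat.Prime.coprime_iff_not_dvd hp.2).2 h)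
  have h3 : ((Ioc 0 R).filter (fun p => p.Prime ∧ p.Coprime m)).card =
      ∑ a ∈ (range m).filter (fun a => a.Coprime m), pc m 0 R a := by
    rw [card_eq_sum_card_fiberwise (f := fun p => p % m) (t := (range m).filter (fun a => a.Coprime m))]
    · apply sum_congr rfl
      intro a ha
      rw [mem_filter, mem_range] at ha
      unfold pc
      congr 1
      ext p
      simp only [mem_filter, mem_Ioc]
      constructor
      · rintro ⟨⟨h1, h2, h3⟩, h4⟩
        refine ⟨h1, h2, ?_⟩
        rw [← h4]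
        exact (Nat.mod_modEq p m).symm
      · rintro ⟨h1, h2, h3⟩
        have h4 : p % m = a := by
          have := h3
          unfold Nat.ModEq at this
          rwa [Nat.mod_eq_of_lt ha.1] at this
        refine ⟨⟨h1, h2, ?_⟩, h4⟩
        have h5 := h3.gcd_eq
        rw [Nat.coprime_iff_gcd_eq_one] at ha ⊢
        rw [h5]; exact ha.2
    · intro p hp
      rw [mem_coe, mem_filter] at hp
      rw [mem_coe, mem_filter, mem_range]
      refine ⟨Nat.mod_lt _ (by omega), ?_⟩
      have h5 := (Nat.mod_modEq p m).gcd_eq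
      rw [Nat.coprime_iff_gcd_eq_one] at hp ⊢
      rw [h5]; exact hp.2.2
  rw [h1, ← h3]
  exact (card_le_card h2).trans (card_union_le _ _)

lemma core (κ t η c : ℝ) (hκ : 0 < κ) (ht0 : 0 ≤ t) (ht1 : t ≤ 1) (hη : 0 < η) (hη1 : η < 1)
    (hc : 0 < c) (hc1 : c ≤ 1) : ∀ᶠ m : ℕ in atTop,
    ((exc η t m ((m : ℝ) ^ (1 + κ) / 2) ((m : ℝ) ^ (1 + κ) / 2)).card : ℝ) ≤ (m : ℝ) ^ (1 - c) →
    ((1 + κ - t) / (2 * (1 + κ)) - 2 * η) * Nat.totient m ≤
      ((good m ((m : ℝ) ^ (1 + κ))).card : ℝ) := by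
  classical
  have tc : Tendsto (fun q : ℕ => (q : ℝ)) atTop atTop := tendsto_natCast_atTop_atTop
  have tx : Tendsto (fun x : ℝ => x ^ (1 + κ) / 2) atTop atTop :=
    (tendsto_rpow_atTop (by positivity)).atTop_div_const (by norm_num)
  have f0 : ∀ᶠ x : ℝ in atTop, 1 - η ≤ (Nat.primeCounting ⌊x⌋₊ : ℝ) * Real.log x / x :=
    (Pool.Agent.Cov.PNT.pi_tendsto.eventually_const_le (by linarith : 1 - η < 1))
  have f1 : ∀ᶠ x : ℝ in atTop, 2 ≤ x ^ κ := (tendsto_rpow_atTop (by positivity)).eventually_ge_atTop _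
  have f2 : ∀ᶠ x : ℝ in atTop, 1 / η ≤ Real.log x := Real.tendsto_log_atTop.eventually_ge_atTop _
  have f3 : ∀ᶠ x : ℝ in atTop, 1 ≤ Real.log x := Real.tendsto_log_atTop.eventually_ge_atTop _
  have f4 : ∀ᶠ x : ℝ in atTop, 4 ≤ x := eventually_ge_atTop _
  filter_upwards [tc.eventually f1, tc.eventually f2, tc.eventually f3, tc.eventually f4,
    tc.eventually (tx.eventually f0), tc.eventually (tx.eventually f4),
    ev_poly (3 * (1 + κ) / η) 1 c 1 (by norm_num) (by positivity) hc,
    ev_poly 4 1 κ 1 (by norm_num) (by positivity) hκ, eventually_ge_atTop 3] with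
    m g1 g2 g3 g4 g5 g6 e1 e2 hm3 hexc
  have hm0 : (0 : ℝ) < m := by linarith
  have hm1 : (1 : ℝ) ≤ m := by linarith
  set L := Real.log m with hL
  set x : ℝ := (m : ℝ) ^ (1 + κ) / 2 with hx
  have rp : ∀ a b : ℝ, a ≤ b → (m : ℝ) ^ a ≤ (m : ℝ) ^ b := fun a b h => Real.rpow_le_rpow_of_exponent_le hm1 h
  have rpp : ∀ a : ℝ, 0 < (m : ℝ) ^ a := fun a => Real.rpow_pos_of_pos hm0 a
  have rad : ∀ a b : ℝ, (m : ℝ) ^ a * (m : ℝ) ^ b = (m : ℝ) ^ (a + b) := fun a b => (Real.rpow_add hm0 a b).symm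
  have hx0 : 0 < x := by rw [hx]; have := rpp (1 + κ); positivity
  have hL0 : 0 < L := by linarith
  have hlogx : Real.log x = (1 + κ) * L - Real.log 2 := by
    rw [hx, Real.log_div (rpp _).ne' (by norm_num), Real.log_rpow hm0]
  have hl2 : 0 < Real.log 2 := Real.log_pos (by norm_num)
  have hl21 : Real.log 2 ≤ 1 := by have := Real.log_two_lt_d9; linarith
  have hlogx0 : 0 < Real.log x := by
    rw [hlogx]
    have : 0 < κ * L := by positivity
    have : Real.log 2 < 1 := by have := Real.log_two_lt_d9; linarith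
    linarith
  set P : ℝ := x / ((1 + κ) * L) with hP
  have hP0 : 0 < P := by positivity
  -- the number of primes
  set PI : ℝ := (Nat.primeCounting ⌊x⌋₊ : ℝ) with hPI
  have hpi : (1 - η) * P ≤ PI := by
    have h1 : (1 - η) * (x / Real.log x) ≤ PI := by
      have h2 := g5
      rw [le_div_iff₀ hx0] at h2
      rw [mul_div_assoc', div_le_iff₀ hlogx0]
      exact h2
    have h2 : P ≤ x / Real.log x := by
      apply div_le_div_of_nonneg_left hx0.le hlogx0
      rw [hlogx]; linarith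
    exact (mul_le_mul_of_nonneg_left h2 (by linarith)).trans h1
  -- the trivial bound
  have hxm : (m : ℝ) ≤ x := by
    rw [hx, le_div_iff₀ (by norm_num)]
    calc (m : ℝ) * 2 ≤ m * (m : ℝ) ^ κ := mul_le_mul_of_nonneg_left g1 hm0.le
      _ = (m : ℝ) ^ (1 + κ) := by rw [Real.rpow_add hm0, Real.rpow_one]
  have htriv : ∀ a : ℕ, (pc m 0 ⌊x⌋₊ a : ℝ) ≤ 2 * (x / m) := by
    intro a
    have h1 : pc m 0 ⌊x⌋₊ a ≤ ((Ioc 0 ⌊x⌋₊).filter (fun p => p ≡ a [MOD m])).card := by
      apply card_le_card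
      intro p hp
      rw [mem_filter] at hp ⊢
      exact ⟨hp.1, hp.2.2⟩
    have h2 : (pc m 0 ⌊x⌋₊ a : ℝ) ≤ (((Ioc 0 ⌊x⌋₊).filter (fun p => p ≡ a [MOD m])).card : ℝ) := by exact_mod_cast h1
    refine h2.trans ((card_class m ⌊x⌋₊ a (by omega)).trans ?_)
    have h3 : ((⌊x⌋₊ : ℝ)) / m ≤ x / m := div_le_div_of_nonneg_right (Nat.floor_le hx0.le) hm0.le
    have h4 : 1 ≤ x / m := by rwa [le_div_iff₀ hm0, one_mul]
    linarith
  set G := good m ((m : ℝ) ^ (1 + κ)) with hG
  set E := exc η t m x x with hE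
  have hΛ : Real.log (x / (m : ℝ) ^ t) = (1 + κ - t) * L - Real.log 2 := by
    rw [Real.log_div hx0.ne' (rpp _).ne', Real.log_rpow hm0, hlogx]; ring
  set Λ : ℝ := (1 + κ - t) * L - Real.log 2 with hΛd
  set Φ : ℝ := (Nat.totient m : ℝ) with hΦ
  have hΦ0 : 0 < Φ := by rw [hΦ]; exact_mod_cast Nat.totient_pos.2 (by omega)
  -- sum over the classes
  have hsum : PI ≤ G.card * ((2 + η) * x / (Φ * Λ)) + (m : ℝ) ^ (1 - c) * (2 * (x / m)) + L / Real.log 2 := by
    have h1 := sum_pc m ⌊x⌋₊ (by omega)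
    have h2 : PI ≤ (∑ a ∈ (range m).filter (fun a => a.Coprime m), (pc m 0 ⌊x⌋₊ a : ℝ)) + m.primeFactors.card := by
      rw [hPI]
      exact_mod_cast h1
    have h3 : (m.primeFactors.card : ℝ) ≤ L / Real.log 2 :=
      Pool.Agent.H617R3.BT.card_primeFactors_le (by omega)
    have h4 : ∑ a ∈ (range m).filter (fun a => a.Coprime m), (pc m 0 ⌊x⌋₊ a : ℝ) ≤
        ∑ a ∈ (range m).filter (fun a => a.Coprime m), ((if a ∈ G then (2 + η) * x / (Φ * Λ) else 0) +
          (if a ∈ E then 2 * (x / m) else 0)) := by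
      apply sum_le_sum
      intro a ha
      rw [mem_filter, mem_range] at ha
      have hM0 : 0 ≤ (if a ∈ G then (2 + η) * x / (Φ * Λ) else 0) := by
        split_ifs
        · have hΛ0 : 0 ≤ Λ := by
            rw [← hΛ]
            apply Real.log_nonneg
            rw [le_div_iff₀ (rpp _), one_mul]
            calc (m : ℝ) ^ t ≤ (m : ℝ) ^ (1 : ℝ) := rp _ _ ht1
              _ = m := Real.rpow_one _
              _ ≤ x := hxm
          positivity
        · exact le_rfl
      by_cases haE : a ∈ E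
      · rw [if_pos haE]
        linarith [htriv a]
      · rw [if_neg haE, add_zero]
        by_cases haG : a ∈ G
        · rw [if_pos haG]
          by_contra hcon
          push Not at hcon
          apply haE
          rw [hE, mem_exc]
          refine ⟨ha.1, ha.2, ?_⟩
          rw [hΛ, sub_self, Nat.floor_zero]
          exact hcon
        · rw [if_neg haG]
          have h0 : pc m 0 ⌊x⌋₊ a = 0 := by
            unfold pc
            rw [card_eq_zero, filter_eq_empty_iff]
            rintro p hp ⟨hp1, hp2⟩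
            apply haG
            rw [hG, mem_good]
            refine ⟨ha.1, ha.2, p, hp1, hp2, ?_⟩
            rw [mem_Ioc] at hp
            have h5 : (p : ℝ) ≤ x := (Nat.le_floor_iff hx0.le).1 hp.2
            have h6 : x < (m : ℝ) ^ (1 + κ) := by
              rw [hx]
              have := rpp (1 + κ)
              linarith
            linarith
          rw [h0, Nat.cast_zero]
    have h5 : ∑ a ∈ (range m).filter (fun a => a.Coprime m), (if a ∈ G then (2 + η) * x / (Φ * Λ) else 0) ≤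
        G.card * ((2 + η) * x / (Φ * Λ)) := by
      have hΛ0 : 0 ≤ Λ := by
        rw [← hΛ]
        apply Real.log_nonneg
        rw [le_div_iff₀ (rpp _), one_mul]
        calc (m : ℝ) ^ t ≤ (m : ℝ) ^ (1 : ℝ) := rp _ _ ht1
          _ = m := Real.rpow_one _
          _ ≤ x := hxm
      rw [← sum_filter, sum_const, nsmul_eq_mul]
      apply mul_le_mul_of_nonneg_right _ (by positivity)
      exact_mod_cast card_le_card (fun a ha => (mem_filter.1 ha).2)
    have h6 : ∑ a ∈ (range m).filter (fun a => a.Coprime m), (if a ∈ E then 2 * (x / m) else 0) ≤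
        (m : ℝ) ^ (1 - c) * (2 * (x / m)) := by
      rw [← sum_filter, sum_const, nsmul_eq_mul]
      apply mul_le_mul_of_nonneg_right _ (by positivity)
      refine le_trans ?_ hexc
      exact_mod_cast card_le_card (fun a ha => (mem_filter.1 ha).2)
    rw [sum_add_distrib] at h4
    linarith
  -- the error terms
  have herr : (m : ℝ) ^ (1 - c) * (2 * (x / m)) + L / Real.log 2 ≤ η * P := by
    have h1 : (m : ℝ) ^ (1 - c) * (2 * (x / m)) = 2 * (x * (m : ℝ) ^ (-c)) := by
      rw [show (1 - c : ℝ) = 1 + -c by ring, Real.rpow_add hm0, Real.rpow_one]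
      field_simp
    have h2 : L / Real.log 2 ≤ x * (m : ℝ) ^ (-c) := by
      have h3 : L / Real.log 2 ≤ 2 * L := by
        rw [div_le_iff₀ hl2]
        have : (0.69 : ℝ) ≤ Real.log 2 := by have := Real.log_two_gt_d9; linarith
        nlinarith
      have h4 : (m : ℝ) ^ κ / 2 ≤ x * (m : ℝ) ^ (-c) := by
        rw [hx, div_mul_eq_mul_div, rad]
        apply div_le_div_of_nonneg_right _ (by norm_num)
        exact rp _ _ (by linarith)
      have h5 : 4 * L ≤ (m : ℝ) ^ κ := by
        refine le_trans ?_ e2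
        rw [pow_one]; linarith
      linarith
    have h3 : 3 * (x * (m : ℝ) ^ (-c)) ≤ η * P := by
      have h4 : 3 * (1 + κ) / η * L ≤ (m : ℝ) ^ c := by
        refine le_trans ?_ e1
        rw [pow_one]
        apply mul_le_mul_of_nonneg_left _ (by positivity)
        linarith
      have h5 : 3 * (1 + κ) * L * (m : ℝ) ^ (-c) ≤ η := by
        have h6 : 3 * (1 + κ) * L ≤ η * (m : ℝ) ^ c := by
          calc 3 * (1 + κ) * L = η * (3 * (1 + κ) / η * L) := by field_simp
            _ ≤ η * (m : ℝ) ^ c := mul_le_mul_of_nonneg_left h4 hη.le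
        calc 3 * (1 + κ) * L * (m : ℝ) ^ (-c) ≤ η * (m : ℝ) ^ c * (m : ℝ) ^ (-c) :=
              mul_le_mul_of_nonneg_right h6 (rpp _).le
          _ = η := by rw [mul_assoc, rad]; simp
      calc 3 * (x * (m : ℝ) ^ (-c)) = (3 * (1 + κ) * L * (m : ℝ) ^ (-c)) * P := by
            rw [hP]; field_simp
        _ ≤ η * P := mul_le_mul_of_nonneg_right h5 hP0.le
    linarith
  have hΛ0 : 0 ≤ Λ := by
    rw [← hΛ]
    apply Real.log_nonneg
    rw [le_div_iff₀ (rpp _), one_mul]
    calc (m : ℝ) ^ t ≤ (m : ℝ) ^ (1 : ℝ) := rp _ _ ht1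
      _ = m := Real.rpow_one _
      _ ≤ x := hxm
  set r : ℝ := (1 + κ - t) / (1 + κ) with hr
  have hr1 : r ≤ 1 := by rw [hr, div_le_one (by positivity)]; linarith
  have hr0 : 0 ≤ r := by rw [hr]; apply div_nonneg <;> linarith
  set s : ℝ := Real.log 2 / ((1 + κ) * L) with hs
  have hs0 : 0 ≤ s := by positivity
  have hsη : s ≤ η := by
    rw [hs, div_le_iff₀ (by positivity)]
    have h1 : 1 ≤ η * L := by
      rw [div_le_iff₀ hη] at g2
      linarith
    have : 0 ≤ η * κ * L := by positivity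
    nlinarith
  have hrs : Λ / ((1 + κ) * L) = r - s := by
    rw [hr, hs, hΛd]
    field_simp
  -- the conclusion
  have hfin : (1 - 2 * η) * (r - s) * Φ ≤ (2 + η) * G.card := by
    have h1 : (1 - 2 * η) * P ≤ G.card * ((2 + η) * x / (Φ * Λ)) := by linarith
    rcases hΛ0.eq_or_lt with h0 | h0
    · have : r - s = 0 := by rw [← hrs, ← h0, zero_div]
      rw [this, mul_zero, zero_mul]
      positivity
    · have h4 : (1 - 2 * η) * P * (Φ * Λ) ≤ G.card * ((2 + η) * x) := by
        calc (1 - 2 * η) * P * (Φ * Λ) ≤ G.card * ((2 + η) * x / (Φ * Λ)) * (Φ * Λ) :=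
              mul_le_mul_of_nonneg_right h1 (by positivity)
          _ = G.card * ((2 + η) * x) := by field_simp
      have h2 : (1 - 2 * η) * (r - s) * Φ * x = (1 - 2 * η) * P * (Φ * Λ) := by
        rw [← hrs, hP]
        field_simp
      have h3 : (1 - 2 * η) * (r - s) * Φ * x ≤ (2 + η) * G.card * x := by
        rw [h2]
        linarith
      exact le_of_mul_le_mul_right h3 hx0
  have hcoef : (2 + η) * (r / 2 - 2 * η) ≤ (1 - 2 * η) * (r - s) := by
    have h1 : η * r ≤ η := by nlinarith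
    have h2 : 0 ≤ η * s := by positivity
    nlinarith
  have e : (1 + κ - t) / (2 * (1 + κ)) = r / 2 := by rw [hr]; field_simp
  rw [e]
  have h1 : (2 + η) * ((r / 2 - 2 * η) * Φ) ≤ (2 + η) * G.card := by
    calc (2 + η) * ((r / 2 - 2 * η) * Φ) = ((2 + η) * (r / 2 - 2 * η)) * Φ := by ring
      _ ≤ ((1 - 2 * η) * (r - s)) * Φ := mul_le_mul_of_nonneg_right hcoef hΦ0.le
      _ ≤ (2 + η) * G.card := hfin
  exact le_of_mul_le_mul_left h1 (by linarith)

end Pool.Agent.R502.BL
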