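import Pool.Agent.R502.BL.Prop
import Pool.Agent.R502.BL.AllMod
import Pool.Agent.R502.BL.MainP

/-! Many classes contain a small prime: the two theorems. -/

set_option autoImplicit false
set_option maxHeartbeats 4000000

namespace Pool.Agent.R502.BL
open Finset Filter

theorem prop_all (κ ε : ℝ) (hκ : 0 < κ) (hε : 0 < ε) : ∀ᶠ m : ℕ in atTop,
    ((1 + 2 * κ) / (4 * (1 + κ)) - ε) * Nat.totient m ≤ ((good m ((m : ℝ) ^ (1 + κ))).card : ℝ) := by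
  set η : ℝ := min (min (ε / 3) (κ / 4)) (1 / 4) with hη
  have hη0 : 0 < η := lt_min (lt_min (by positivity) (by positivity)) (by norm_num)
  have hηε : η ≤ ε / 3 := (min_le_left _ _).trans (min_le_left _ _)
  have hηκ : η ≤ κ / 4 := (min_le_left _ _).trans (min_le_right _ _)
  have hη4 : η ≤ 1 / 4 := min_le_right _ _
  have tc : Tendsto (fun q : ℕ => (q : ℝ)) atTop atTop := tendsto_natCast_atTop_atTop
  have f1 : ∀ᶠ x : ℝ in atTop, 3 ≤ x ^ (η / 2) := (tendsto_rpow_atTop (by positivity)).eventually_ge_atTop _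
  have f2 : ∀ᶠ x : ℝ in atTop, 2 ≤ x ^ (κ - η) := (tendsto_rpow_atTop (by linarith)).eventually_ge_atTop _
  filter_upwards [all1 η (1 + κ) hη0, core κ (1 / 2 + η) η (η / 2) hκ (by positivity) (by linarith) hη0 (by linarith)
    (by positivity) (by linarith), tc.eventually f1, tc.eventually f2, eventually_ge_atTop 3] with m h1 h2 g1 g2 hm3
  have hm3r : (3 : ℝ) ≤ m := by exact_mod_cast hm3
  have hm0 : (0 : ℝ) < m := by linarith
  have hm1 : (1 : ℝ) ≤ m := by linarith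
  have rp : ∀ a b : ℝ, a ≤ b → (m : ℝ) ^ a ≤ (m : ℝ) ^ b := fun a b h => Real.rpow_le_rpow_of_exponent_le hm1 h
  have rpp : ∀ a : ℝ, 0 < (m : ℝ) ^ a := fun a => Real.rpow_pos_of_pos hm0 a
  have rad : ∀ a b : ℝ, (m : ℝ) ^ a * (m : ℝ) ^ b = (m : ℝ) ^ (a + b) := fun a b => (Real.rpow_add hm0 a b).symm
  set x : ℝ := (m : ℝ) ^ (1 + κ) / 2 with hx
  have hx1 : (m : ℝ) ^ (1 + η) ≤ x := by
    rw [hx, le_div_iff₀ (by norm_num)]
    calc (m : ℝ) ^ (1 + η) * 2 ≤ (m : ℝ) ^ (1 + η) * (m : ℝ) ^ (κ - η) := mul_le_mul_of_nonneg_left g2 (rpp _).le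
      _ = (m : ℝ) ^ (1 + κ) := by rw [rad]; congr 1; ring
  have hx2 : x ≤ (m : ℝ) ^ (1 + κ) := by
    rw [hx]
    have := rpp (1 + κ)
    linarith
  have hx0 : 0 < x := lt_of_lt_of_le (rpp _) hx1
  have h3 := h1 (1 / 2 + η) (by positivity) (by linarith) x x hx1 hx2 le_rfl
  have h4 : ((exc η (1 / 2 + η) m x x).card : ℝ) ≤ (m : ℝ) ^ (1 - η / 2) := by
    refine h3.trans ?_
    have e1 : (m : ℝ) ^ (2 - 2 * (1 / 2 + η) + η) = (m : ℝ) ^ (1 - η) := by congr 1; ring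
    have e2 : (m : ℝ) ^ (2 + η) / x ≤ 2 * (m : ℝ) ^ (1 - η) := by
      rw [div_le_iff₀ hx0, hx]
      calc (m : ℝ) ^ (2 + η) ≤ (m : ℝ) ^ ((1 - η) + (1 + κ)) := rp _ _ (by linarith)
        _ = 2 * (m : ℝ) ^ (1 - η) * ((m : ℝ) ^ (1 + κ) / 2) := by rw [← rad]; ring
    rw [e1]
    calc (m : ℝ) ^ (1 - η) + (m : ℝ) ^ (2 + η) / x ≤ 3 * (m : ℝ) ^ (1 - η) := by linarith
      _ ≤ (m : ℝ) ^ (η / 2) * (m : ℝ) ^ (1 - η) := mul_le_mul_of_nonneg_right g1 (rpp _).le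
      _ = (m : ℝ) ^ (1 - η / 2) := by rw [rad]; congr 1; ring
  refine le_trans ?_ (h2 h4)
  apply mul_le_mul_of_nonneg_right _ (Nat.cast_nonneg _)
  have h5 : (1 + κ - (1 / 2 + η)) / (2 * (1 + κ)) = (1 + 2 * κ) / (4 * (1 + κ)) - η / (2 * (1 + κ)) := by
    field_simp
    ring
  have h6 : η / (2 * (1 + κ)) ≤ η := div_le_self hη0.le (by linarith)
  rw [h5]
  linarith

theorem prop_prime (κ ε : ℝ) (hκ : 1 / 2 < κ) (hε : 0 < ε) : ∀ᶠ q : ℕ in atTop, q.Prime →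
    ((3 + 4 * κ) / (8 * (1 + κ)) - ε) * (q - 1) ≤ ((good q ((q : ℝ) ^ (1 + κ))).card : ℝ) := by
  set η : ℝ := min (min (ε / 2) ((κ - 1 / 2) / 2)) (1 / 4) with hη
  have hη0 : 0 < η := lt_min (lt_min (by positivity) (by linarith)) (by norm_num)
  have hηε : η ≤ ε / 2 := (min_le_left _ _).trans (min_le_left _ _)
  have hηκ : η ≤ (κ - 1 / 2) / 2 := (min_le_left _ _).trans (min_le_right _ _)
  have hη4 : η ≤ 1 / 4 := min_le_right _ _
  obtain ⟨δ, hδ, hP⟩ := mainP η (1 + κ) hη0 (by linarith)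
  set c : ℝ := min δ 1 with hc
  have hc0 : 0 < c := lt_min hδ one_pos
  have hcδ : c ≤ δ := min_le_left _ _
  have hc1 : c ≤ 1 := min_le_right _ _
  have tc : Tendsto (fun q : ℕ => (q : ℝ)) atTop atTop := tendsto_natCast_atTop_atTop
  have f2 : ∀ᶠ x : ℝ in atTop, 2 ≤ x ^ (κ - 1 / 2 - η) := (tendsto_rpow_atTop (by linarith)).eventually_ge_atTop _
  filter_upwards [hP, core κ (1 / 4) η c (by linarith) (by norm_num) (by norm_num) hη0 (by linarith)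
    hc0 hc1, tc.eventually f2, eventually_ge_atTop 3] with m h1 h2 g2 hm3 hmp
  have hm3r : (3 : ℝ) ≤ m := by exact_mod_cast hm3
  have hm0 : (0 : ℝ) < m := by linarith
  have hm1 : (1 : ℝ) ≤ m := by linarith
  have rp : ∀ a b : ℝ, a ≤ b → (m : ℝ) ^ a ≤ (m : ℝ) ^ b := fun a b h => Real.rpow_le_rpow_of_exponent_le hm1 h
  have rpp : ∀ a : ℝ, 0 < (m : ℝ) ^ a := fun a => Real.rpow_pos_of_pos hm0 a
  have rad : ∀ a b : ℝ, (m : ℝ) ^ a * (m : ℝ) ^ b = (m : ℝ) ^ (a + b) := fun a b => (Real.rpow_add hm0 a b).symm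
  set x : ℝ := (m : ℝ) ^ (1 + κ) / 2 with hx
  have hx1 : (m : ℝ) ^ (3 / 2 + η) ≤ x := by
    rw [hx, le_div_iff₀ (by norm_num)]
    calc (m : ℝ) ^ (3 / 2 + η) * 2 ≤ (m : ℝ) ^ (3 / 2 + η) * (m : ℝ) ^ (κ - 1 / 2 - η) :=
          mul_le_mul_of_nonneg_left g2 (rpp _).le
      _ = (m : ℝ) ^ (1 + κ) := by rw [rad]; congr 1; ring
  have hx2 : x ≤ (m : ℝ) ^ (1 + κ) := by
    rw [hx]
    have := rpp (1 + κ)
    linarith
  have hx0 : 0 < x := lt_of_lt_of_le (rpp _) hx1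
  have h3 := h1 hmp x x hx1 hx2 le_rfl (le_mul_of_one_le_right hx0.le (Real.one_le_rpow hm1 hδ.le))
  have h4 := h2 (h3.trans (rp _ _ (by linarith)))
  rw [Nat.totient_prime hmp, Nat.cast_sub hmp.one_lt.le, Nat.cast_one] at h4
  refine le_trans ?_ h4
  apply mul_le_mul_of_nonneg_right _ (by linarith)
  have h5 : (1 + κ - 1 / 4) / (2 * (1 + κ)) = (3 + 4 * κ) / (8 * (1 + κ)) := by
    field_simp
    ring
  rw [h5]
  linarith

lemma good_ncard (m : ℕ) (z : ℝ) : ({a : ℕ | a < m ∧ a.Coprime m ∧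
    ∃ p : ℕ, p.Prime ∧ p ≡ a [MOD m] ∧ (p : ℝ) < z}).ncard = (good m z).card := by
  rw [← Set.ncard_coe_finset]
  congr 1
  ext a
  rw [mem_coe, mem_good]
  rfl

end Pool.Agent.R502.BL
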