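import Pool.Agent.R502.BL.Cls

/-! The sieve and the threshold. -/

set_option autoImplicit false
set_option maxHeartbeats 4000000

namespace Pool.Agent.R502.BL
open Finset Filter

lemma ev_poly (K c δ : ℝ) (n : ℕ) (hc : 0 ≤ c) (hK : 0 ≤ K) (hδ : 0 < δ) : ∀ᶠ k : ℕ in atTop,
    K * (1 + c * Real.log k) ^ n ≤ (k : ℝ) ^ δ := by
  have h1 := (isLittleO_pow_exp_pos_mul_atTop n hδ).def (show (0 : ℝ) < 1 / (K * (1 + c) ^ n + 1) by positivity)
  have t1 : Tendsto (fun k : ℕ => Real.log k) atTop atTop :=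
    Real.tendsto_log_atTop.comp tendsto_natCast_atTop_atTop
  filter_upwards [t1.eventually h1, t1.eventually_ge_atTop 1, eventually_ge_atTop 1] with k hk hL hk1
  set L := Real.log k with hL'
  have hk0 : (0 : ℝ) < k := by exact_mod_cast hk1
  rw [Real.norm_eq_abs, Real.norm_eq_abs, abs_of_nonneg (by positivity), abs_of_pos (Real.exp_pos _),
    div_mul_eq_mul_div, one_mul, le_div_iff₀ (by positivity)] at hk
  have h2 : (k : ℝ) ^ δ = Real.exp (δ * L) := by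
    rw [Real.rpow_def_of_pos hk0, ← hL', mul_comm]
  rw [h2]
  have h3 : (1 + c * L) ^ n ≤ ((1 + c) * L) ^ n := by
    apply pow_le_pow_left₀ (by positivity)
    nlinarith
  calc K * (1 + c * L) ^ n ≤ K * ((1 + c) * L) ^ n := by gcongr
    _ = L ^ n * (K * (1 + c) ^ n) := by rw [mul_pow]; ring
    _ ≤ L ^ n * (K * (1 + c) ^ n + 1) := by
        apply mul_le_mul_of_nonneg_left (by linarith) (by positivity)
    _ ≤ Real.exp (δ * L) := hk

/-- the exceptional classes -/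
noncomputable def exc (ε t : ℝ) (k : ℕ) (x y : ℝ) : Finset ℕ := by
  classical
  exact (range k).filter (fun l => l.Coprime k ∧
    (2 + ε) * y / (Nat.totient k * Real.log (y / (k : ℝ) ^ t)) < (pc k ⌊x - y⌋₊ ⌊x⌋₊ l : ℝ))

/-- the size of the error term that makes a class exceptional -/
noncomputable def thr (ε A : ℝ) (k : ℕ) (y : ℝ) : ℝ := ε / 2 * (y / (k * (A * Real.log k)))

theorem setup (ε A ω : ℝ) (hε : 0 < ε) (hε1 : ε ≤ 1) (hA : 1 < A) (hω : 0 < ω) : ∃ C : ℝ, 0 < C ∧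
    ∀ᶠ k : ℕ in atTop, ∀ t : ℝ, 0 ≤ t → t ≤ 1 →
    ∀ x y : ℝ, (k : ℝ) ^ (1 + ε) ≤ y → y ≤ (k : ℝ) ^ A → y ≤ x →
    (∀ n : ℕ, 1 ≤ n → (n : ℝ) ≤ k * y → (n.divisors.card : ℝ) ≤ C * (k : ℝ) ^ ω) ∧
    ∃ (R : ℕ) (ρ : ℕ → ℝ), 1 ≤ R ∧ ((R ^ 2 : ℕ) : ℝ) ≤ y / (k : ℝ) ^ t ∧
    (∀ d ∈ DD k (R ^ 2), |ρ d| ≤ (1 + 2 * A * Real.log k) ^ 2 * (C * (k : ℝ) ^ ω) ^ 2) ∧
    ∀ l ∈ exc ε t k x y, thr ε A k y ≤ EE ρ k (R ^ 2) ⌊x - y⌋₊ ⌊x⌋₊ l := by
  classical
  obtain ⟨C, hC, hdiv⟩ := Pool.Agent.H510R2.divisor_bound (ω / (A + 1)) (by positivity)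
  have hA0 : 0 < A := by linarith
  refine ⟨C, hC, ?_⟩
  filter_upwards [ev_poly (48 * A / ε ^ 2) 1 ε 1 (by norm_num) (by positivity) hε,
    ev_poly (4 * A / ε) 1 (1 / 2) 1 (by norm_num) (by positivity) (by norm_num),
    eventually_ge_atTop 3] with k e2 e3 hk3
  intro t ht1 ht2 x y hy1 hy2 hyx
  set L := Real.log k with hL
  have hk1 : 1 ≤ k := by omega
  have hkr : (3 : ℝ) ≤ k := by exact_mod_cast hk3
  have hk0 : (0 : ℝ) < k := by linarith
  have hkr1 : (1 : ℝ) ≤ k := by linarith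
  have hL1 : 1 ≤ L := by
    rw [hL, Real.le_log_iff_exp_le hk0]
    have := Real.exp_one_lt_d9
    linarith
  have hL0 : 0 < L := by linarith
  have hy0 : 0 < y := lt_of_lt_of_le (Real.rpow_pos_of_pos hk0 _) hy1
  have hyk : (k : ℝ) ≤ y := by
    refine le_trans ?_ hy1
    calc (k : ℝ) = (k : ℝ) ^ (1 : ℝ) := (Real.rpow_one _).symm
      _ ≤ (k : ℝ) ^ (1 + ε) := Real.rpow_le_rpow_of_exponent_le hkr1 (by linarith)
  have hkt0 : 0 < (k : ℝ) ^ t := Real.rpow_pos_of_pos hk0 _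
  have hkt1 : 1 ≤ (k : ℝ) ^ t := Real.one_le_rpow hkr1 (by linarith)
  have hktk : (k : ℝ) ^ t ≤ k := by
    calc (k : ℝ) ^ t ≤ (k : ℝ) ^ (1 : ℝ) := Real.rpow_le_rpow_of_exponent_le hkr1 ht2
      _ = k := Real.rpow_one _
  set z := y / (k : ℝ) ^ t with hz
  have hzε : (k : ℝ) ^ ε ≤ z := by
    rw [hz, le_div_iff₀ hkt0]
    calc (k : ℝ) ^ ε * (k : ℝ) ^ t ≤ (k : ℝ) ^ ε * k := by gcongr
      _ = (k : ℝ) ^ (1 + ε) := by rw [add_comm, Real.rpow_add hk0, Real.rpow_one]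
      _ ≤ y := hy1
  have hzy : z ≤ y := div_le_self hy0.le hkt1
  have hz1 : 1 ≤ z := le_trans (Real.one_le_rpow hkr1 hε.le) hzε
  have hz0 : 0 < z := by linarith
  set ℓ := Real.log z with hℓ
  have hlogy : Real.log y ≤ A * L := by
    have := Real.log_le_log hy0 hy2
    rwa [Real.log_rpow hk0] at this
  have hℓA : ℓ ≤ A * L := (Real.log_le_log hz0 hzy).trans hlogy
  have hℓε : ε * L ≤ ℓ := by
    have := Real.log_le_log (Real.rpow_pos_of_pos hk0 _) hzε
    rwa [Real.log_rpow hk0] at this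
  have hℓ0 : 0 < ℓ := lt_of_lt_of_le (by positivity) hℓε
  set R := ⌊√z⌋₊ with hR
  have hRz : (R : ℝ) ≤ √z := Nat.floor_le (Real.sqrt_nonneg _)
  have hRz' : √z < R + 1 := Nat.lt_floor_add_one _
  have hR1 : 1 ≤ R := by
    rw [hR]
    apply Nat.le_floor
    rw [Nat.cast_one, Real.one_le_sqrt]
    exact hz1
  have hR1r : (1 : ℝ) ≤ R := by exact_mod_cast hR1
  have hlogR : ℓ / 2 ≤ Real.log ((R : ℝ) + 1) := by
    have h1 : Real.log (√z) ≤ Real.log ((R : ℝ) + 1) := Real.log_le_log (by positivity) hRz'.le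
    rwa [Real.log_sqrt hz0.le] at h1
  have hDz : ((R ^ 2 : ℕ) : ℝ) ≤ z := by
    push_cast
    calc (R : ℝ) ^ 2 ≤ (√z) ^ 2 := pow_le_pow_left₀ (by positivity) hRz 2
      _ = z := Real.sq_sqrt hz0.le
  have hRy : (R : ℝ) ≤ y := by nlinarith [hDz, hR1r, hzy, (by push_cast; ring : ((R ^ 2 : ℕ) : ℝ) = (R : ℝ) * R)]
  set D := R ^ 2 with hD
  have hD1 : 1 ≤ D := Nat.one_le_pow _ _ hR1
  set T := C * (k : ℝ) ^ ω with hTdef
  have hT : ∀ n : ℕ, 1 ≤ n → (n : ℝ) ≤ k * y → (n.divisors.card : ℝ) ≤ T := by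
    intro n hn1 hn2
    refine (hdiv n hn1).trans ?_
    rw [hTdef]
    apply mul_le_mul_of_nonneg_left _ hC.le
    calc (n : ℝ) ^ (ω / (A + 1)) ≤ ((k : ℝ) ^ (A + 1)) ^ (ω / (A + 1)) := by
          apply Real.rpow_le_rpow (by positivity) _ (by positivity)
          calc (n : ℝ) ≤ k * y := hn2
            _ ≤ k * (k : ℝ) ^ A := by gcongr
            _ = (k : ℝ) ^ (A + 1) := by rw [Real.rpow_add hk0, Real.rpow_one, mul_comm]
      _ = (k : ℝ) ^ ω := by
          rw [← Real.rpow_mul hk0.le]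
          congr 1
          field_simp
  refine ⟨hT, ?_⟩
  obtain ⟨ρ, w1, w2, w3, w4⟩ := wts k R hk1 hR1
  refine ⟨R, ρ, hR1, hDz, ?_, ?_⟩
  · intro d hd
    have hl2 : 1 / 2 < Real.log 2 := by
      have := Real.log_two_gt_d9
      linarith
    refine (w1 d hd).trans ?_
    rw [mem_DD] at hd
    have h1 : (d.divisors.card : ℝ) ≤ T := by
      apply hT d hd.1.1
      have h2 : (d : ℝ) ≤ D := by exact_mod_cast hd.1.2
      nlinarith
    have h2 : Real.log R ≤ A * L := (Real.log_le_log (by positivity) hRy).trans hlogy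
    have h3 : Real.log R / Real.log 2 ≤ 2 * A * L := by
      rw [div_le_iff₀ (by linarith)]
      nlinarith
    have h4 : 0 ≤ Real.log R := Real.log_nonneg hR1r
    have h5 : 0 ≤ Real.log R / Real.log 2 := by positivity
    gcongr
  set u := ⌊x - y⌋₊ with hu
  set v := ⌊x⌋₊ with hv
  have hxy0 : 0 ≤ x - y := by linarith
  have huv : u ≤ v := Nat.floor_le_floor (by linarith)
  have hvu : ((v : ℝ) - u) ≤ y + 1 := by
    have h1 : (v : ℝ) ≤ x := Nat.floor_le (by linarith)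
    have h2 : x - y < u + 1 := Nat.lt_floor_add_one _
    linarith
  have hvu0 : (0 : ℝ) ≤ (v : ℝ) - u := by
    have : (u : ℝ) ≤ v := by exact_mod_cast huv
    linarith
  have hφ0 : (1 : ℝ) ≤ Nat.totient k := by exact_mod_cast Nat.totient_pos.2 (by omega : 0 < k)
  have hφk : (Nat.totient k : ℝ) ≤ k := by exact_mod_cast Nat.totient_le k
  set Φ : ℝ := (Nat.totient k : ℝ) with hΦ
  have hyΦ : y / (k * (A * L)) ≤ y / (Φ * ℓ) := by
    apply div_le_div_of_nonneg_left hy0.le (by positivity)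
    exact mul_le_mul hφk hℓA hℓ0.le hk0.le
  have hbig : ε / 2 * (y / (k * (A * L))) ≤ (2 + ε) * y / (Φ * ℓ) - (R / k + 1) - (y + 1) / k * ((k / Φ) / Real.log ((R : ℝ) + 1)) := by
    have h1 : (y + 1) / k * ((k / Φ) / Real.log ((R : ℝ) + 1)) ≤ 2 * y / (Φ * ℓ) + 2 / (Φ * ℓ) := by
      calc (y + 1) / k * ((k / Φ) / Real.log ((R : ℝ) + 1)) ≤ (y + 1) / k * ((k / Φ) / (ℓ / 2)) := by gcongr
        _ = 2 * y / (Φ * ℓ) + 2 / (Φ * ℓ) := by field_simp
    have h2 : 2 / (Φ * ℓ) ≤ 2 / (ε * L) := by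
      apply div_le_div_of_nonneg_left (by norm_num) (by positivity)
      calc ε * L ≤ ℓ := hℓε
        _ = 1 * ℓ := by ring
        _ ≤ Φ * ℓ := by gcongr
    -- `y / (k A L)` is large
    have h4 : (k : ℝ) ^ ε ≤ y / k := by
      rw [le_div_iff₀ hk0]
      calc (k : ℝ) ^ ε * k = (k : ℝ) ^ (1 + ε) := by rw [add_comm 1 ε, Real.rpow_add hk0, Real.rpow_one]
        _ ≤ y := hy1
    have h5 : R / k ≤ ε / 4 * (y / (k * (A * L))) := by
      have h6 : (k : ℝ) ^ (1 / 2 : ℝ) ≤ √y := by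
        rw [← Real.sqrt_eq_rpow]
        exact Real.sqrt_le_sqrt hyk
      have h7 : (R : ℝ) ≤ √y := hRz.trans (Real.sqrt_le_sqrt hzy)
      have h8 : 4 * A / ε * L ≤ √y := by
        refine le_trans ?_ (e3.trans h6)
        rw [pow_one, one_mul]
        have : 0 ≤ 4 * A / ε := by positivity
        nlinarith
      have h9 : (R : ℝ) * (4 * A / ε * L) ≤ y := by
        calc (R : ℝ) * (4 * A / ε * L) ≤ √y * √y := mul_le_mul h7 h8 (by positivity) (by positivity)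
          _ = y := Real.mul_self_sqrt hy0.le
      calc R / k = (R * (4 * A / ε * L)) * (ε / 4 / (k * (A * L))) := by field_simp
        _ ≤ y * (ε / 4 / (k * (A * L))) := by gcongr
        _ = ε / 4 * (y / (k * (A * L))) := by ring
    have h10 : 1 + 2 / (ε * L) ≤ ε / 4 * (y / (k * (A * L))) := by
      have h11 : 48 * A / ε ^ 2 * (1 + L) ≤ y / k := by
        have := e2.trans h4
        rwa [pow_one, one_mul] at this
      have h12 : 1 + 2 / (ε * L) ≤ 3 / ε * ((1 + L) / L) := by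
        have hεinv : 1 ≤ 1 / ε := by rw [le_div_iff₀ hε]; linarith
        have e12 : 3 / ε * ((1 + L) / L) = 3 / ε + 3 / (ε * L) := by field_simp; ring
        rw [e12]
        have : 2 / (ε * L) ≤ 3 / (ε * L) := by gcongr; norm_num
        have : 3 / ε = 3 * (1 / ε) := by ring
        linarith
      refine h12.trans ?_
      calc 3 / ε * ((1 + L) / L) = (48 * A / ε ^ 2 * (1 + L)) * (ε / (16 * (A * L))) := by field_simp; ring
        _ ≤ y / k * (ε / (16 * (A * L))) := by gcongr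
        _ = ε / 16 * (y / (k * (A * L))) := by field_simp
        _ ≤ ε / 4 * (y / (k * (A * L))) := by
            apply mul_le_mul_of_nonneg_right _ (by positivity)
            linarith
    have e13 : (2 + ε) * y / (Φ * ℓ) = 2 * y / (Φ * ℓ) + ε * (y / (Φ * ℓ)) := by ring
    have h14 : ε * (y / (k * (A * L))) ≤ ε * (y / (Φ * ℓ)) := by gcongr
    rw [e13]
    linarith
  intro l hl
  unfold exc at hl
  unfold thr
  rw [mem_filter] at hl
  obtain ⟨_, hlk, hlt⟩ := hl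
  have h1 := pc_le (k := k) (u := u) (v := v) (l := l) (R := R) hk1 hlk w2 w3
  rw [th_sum k D u v l ρ hk1] at h1
  have h2 : ((v : ℝ) - u) / k * ∑ d ∈ DD k D, ρ d / d ≤ (y + 1) / k * ((k / Φ) / Real.log ((R : ℝ) + 1)) := by
    have h3 : 0 ≤ (k / Φ) / Real.log ((R : ℝ) + 1) := by
      have : 0 < Real.log ((R : ℝ) + 1) := by linarith
      positivity
    calc ((v : ℝ) - u) / k * ∑ d ∈ DD k D, ρ d / d ≤ ((v : ℝ) - u) / k * ((k / Φ) / Real.log ((R : ℝ) + 1)) := by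
          apply mul_le_mul_of_nonneg_left w4 (by positivity)
      _ ≤ _ := by
          apply mul_le_mul_of_nonneg_right _ h3
          gcongr
  linarith

end Pool.Agent.R502.BL
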