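import Pool.Agent.R502.BL.Fou

/-! The counting lemma for the second moment of a divisor sum over the classes modulo `k`. -/

set_option autoImplicit false
set_option maxHeartbeats 4000000

namespace Pool.Agent.R502.BL
open Finset
open Pool.Agent.H807R2.Dav

/-- the integers up to `D` prime to `k` -/
def DD (k D : ℕ) : Finset ℕ := (Icc 1 D).filter (fun d => d.Coprime k)

lemma mem_DD {k D d : ℕ} : d ∈ DD k D ↔ (1 ≤ d ∧ d ≤ D) ∧ d.Coprime k := by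
  unfold DD; rw [mem_filter, mem_Icc]

/-- the triples `(c, d₁, d₂)` -/
def SS (k D : ℕ) : Finset (ℕ × ℕ × ℕ) := Ico 1 k ×ˢ (DD k D ×ˢ DD k D)

/-- `h(d₁, c) d₂` -/
def NN (k : ℕ) (s : ℕ × ℕ × ℕ) : ℤ := hb k s.2.1 s.1 * (s.2.2 : ℤ)

/-- `h(d₂, c) d₁` -/
def NP (k : ℕ) (s : ℕ × ℕ × ℕ) : ℤ := hb k s.2.2 s.1 * (s.2.1 : ℤ)

def tt (k : ℕ) (s : ℕ × ℕ × ℕ) : ℤ := (NP k s - NN k s) / k

lemma tt_mul (k : ℕ) (s : ℕ × ℕ × ℕ) : (k : ℤ) * tt k s = NP k s - NN k s := by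
  unfold tt
  apply Int.mul_ediv_cancel'
  unfold NP NN
  have h1 := hb_dvd k s.2.2 s.1
  have h2 := hb_dvd k s.2.1 s.1
  have : hb k s.2.2 s.1 * (s.2.1 : ℤ) - hb k s.2.1 s.1 * (s.2.2 : ℤ) =
      (hb k s.2.2 s.1 - (s.2.2 : ℤ) * s.1) * s.2.1 - (hb k s.2.1 s.1 - (s.2.1 : ℤ) * s.1) * s.2.2 := by ring
  rw [this]
  exact dvd_sub (Dvd.dvd.mul_right h1 _) (Dvd.dvd.mul_right h2 _)

lemma mem_SS {k D : ℕ} {s : ℕ × ℕ × ℕ} (hs : s ∈ SS k D) :
    (1 ≤ s.1 ∧ s.1 < k) ∧ s.2.1 ∈ DD k D ∧ s.2.2 ∈ DD k D := by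
  unfold SS at hs
  rw [mem_product, mem_product, mem_Ico] at hs
  exact hs

lemma NN_ne {k D : ℕ} {s : ℕ × ℕ × ℕ} (hs : s ∈ SS k D) : NN k s ≠ 0 := by
  obtain ⟨h1, h2, h3⟩ := mem_SS hs
  rw [mem_DD] at h2 h3
  unfold NN
  exact mul_ne_zero (hb_ne h2.2 h1.1 h1.2) (by omega)

lemma NP_ne {k D : ℕ} {s : ℕ × ℕ × ℕ} (hs : s ∈ SS k D) : NP k s ≠ 0 := by
  obtain ⟨h1, h2, h3⟩ := mem_SS hs
  rw [mem_DD] at h2 h3
  unfold NP
  exact mul_ne_zero (hb_ne h3.2 h1.1 h1.2) (by omega)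

lemma NN_abs {k D : ℕ} {s : ℕ × ℕ × ℕ} (hs : s ∈ SS k D) : 2 * |NN k s| ≤ (k * D : ℕ) := by
  obtain ⟨h1, h2, h3⟩ := mem_SS hs
  rw [mem_DD] at h2 h3
  unfold NN
  rw [abs_mul, Nat.abs_cast]
  have h4 := hb_abs (k := k) (by omega) s.2.1 s.1
  have h5 : ((s.2.2 : ℕ) : ℤ) ≤ D := by exact_mod_cast h3.1.2
  push_cast
  calc 2 * (|hb k s.2.1 s.1| * (s.2.2 : ℤ)) = (2 * |hb k s.2.1 s.1|) * s.2.2 := by ring
    _ ≤ k * D := mul_le_mul h4 h5 (by positivity) (by positivity)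

lemma NP_abs {k D : ℕ} {s : ℕ × ℕ × ℕ} (hs : s ∈ SS k D) : 2 * |NP k s| ≤ (k * D : ℕ) := by
  obtain ⟨h1, h2, h3⟩ := mem_SS hs
  rw [mem_DD] at h2 h3
  unfold NP
  rw [abs_mul, Nat.abs_cast]
  have h4 := hb_abs (k := k) (by omega) s.2.2 s.1
  have h5 : ((s.2.1 : ℕ) : ℤ) ≤ D := by exact_mod_cast h2.1.2
  push_cast
  calc 2 * (|hb k s.2.2 s.1| * (s.2.1 : ℤ)) = (2 * |hb k s.2.2 s.1|) * s.2.1 := by ring
    _ ≤ k * D := mul_le_mul h4 h5 (by positivity) (by positivity)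

lemma tt_abs {k D : ℕ} {s : ℕ × ℕ × ℕ} (hs : s ∈ SS k D) : |tt k s| ≤ D := by
  have h1 := NN_abs hs
  have h2 := NP_abs hs
  have h3 := tt_mul k s
  obtain ⟨h4, -, -⟩ := mem_SS hs
  have hk : (0 : ℤ) < k := by exact_mod_cast (by omega : 0 < k)
  have h5 : (k : ℤ) * |tt k s| ≤ k * D := by
    have h6 : (k : ℤ) * |tt k s| = |(k : ℤ) * tt k s| := by rw [abs_mul, Nat.abs_cast]
    rw [h6, h3]
    have h7 := abs_sub (NP k s) (NN k s)
    push_cast at h1 h2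
    linarith
  exact le_of_mul_le_mul_left h5 hk

open Classical in
/-- few triples have given values of `N`, `N'` -/
lemma fiber {k D : ℕ} {T : ℝ}
    (hT : ∀ n : ℕ, 1 ≤ n → n ≤ k * D → (n.divisors.card : ℝ) ≤ T) (N t : ℤ) :
    (((SS k D).filter (fun s => NN k s = N ∧ tt k s = t)).card : ℝ) ≤ T ^ 2 := by
  by_cases hem : ((SS k D).filter (fun s => NN k s = N ∧ tt k s = t)) = ∅
  · rw [hem]; simp; positivity
  obtain ⟨s0, hs0⟩ := nonempty_iff_ne_empty.2 hem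
  rw [mem_filter] at hs0
  set N' : ℤ := N + k * t with hN'
  have hNP : ∀ s, NN k s = N → tt k s = t → NP k s = N' := by
    intro s h1 h2
    have := tt_mul k s
    rw [h1, h2] at this
    linarith
  have hN0 : N ≠ 0 := hs0.2.1 ▸ NN_ne hs0.1
  have hN0' : N' ≠ 0 := hNP s0 hs0.2.1 hs0.2.2 ▸ NP_ne hs0.1
  have b1 : N.natAbs ≤ k * D := by
    have := NN_abs hs0.1
    rw [hs0.2.1, Int.abs_eq_natAbs] at this
    omega
  have b2 : N'.natAbs ≤ k * D := by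
    have := NP_abs hs0.1
    rw [hNP s0 hs0.2.1 hs0.2.2, Int.abs_eq_natAbs] at this
    omega
  have c1 := hT N.natAbs (Int.natAbs_pos.2 hN0) b1
  have c2 := hT N'.natAbs (Int.natAbs_pos.2 hN0') b2
  have hcard : ((SS k D).filter (fun s => NN k s = N ∧ tt k s = t)).card ≤
      (N.natAbs.divisors ×ˢ N'.natAbs.divisors).card := by
    apply card_le_card_of_injOn (fun s => (s.2.2, s.2.1))
    · intro s hs
      simp only [coe_filter, Set.mem_ofPred_eq] at hs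
      simp only [coe_product, Set.mem_prod, mem_coe, Nat.mem_divisors]
      refine ⟨⟨?_, Int.natAbs_ne_zero.2 hN0⟩, ?_, Int.natAbs_ne_zero.2 hN0'⟩
      · rw [← hs.2.1]
        exact Int.natCast_dvd.1 ⟨hb k s.2.1 s.1, by unfold NN; ring⟩
      · rw [← hNP s hs.2.1 hs.2.2]
        exact Int.natCast_dvd.1 ⟨hb k s.2.2 s.1, by unfold NP; ring⟩
    · intro s hs s' hs' h
      simp only [coe_filter, Set.mem_ofPred_eq] at hs hs'
      simp only [Prod.mk.injEq] at h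
      obtain ⟨m1, m2, m3⟩ := mem_SS hs.1
      obtain ⟨m1', m2', m3'⟩ := mem_SS hs'.1
      rw [mem_DD] at m2 m3 m2' m3'
      have e1 : hb k s.2.1 s.1 = hb k s.2.1 s'.1 := by
        have h1 := hs.2.1.trans hs'.2.1.symm
        unfold NN at h1
        rw [← h.1, ← h.2] at h1
        exact mul_right_cancel₀ (by have := m3.1.1; omega) h1
      have e2 : (k : ℤ) ∣ (s.2.1 : ℤ) * s.1 - (s.2.1 : ℤ) * s'.1 := by
        have h1 := hb_dvd k s.2.1 s.1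
        have h2 := hb_dvd k s.2.1 s'.1
        rw [e1] at h1
        have := dvd_sub h2 h1
        have e : hb k s.2.1 s'.1 - (s.2.1 : ℤ) * s'.1 - (hb k s.2.1 s'.1 - (s.2.1 : ℤ) * s.1) =
          (s.2.1 : ℤ) * s.1 - (s.2.1 : ℤ) * s'.1 := by ring
        rwa [e] at this
      have e3 : s.1 = s'.1 := by
        have h3 : s.2.1 * s.1 ≡ s.2.1 * s'.1 [MOD k] := by
          rw [Nat.modEq_iff_dvd]
          have := (dvd_neg.2 e2)
          push_cast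
          rwa [neg_sub] at this
        have h4 : s.1 ≡ s'.1 [MOD k] := Nat.ModEq.cancel_left_of_coprime m2.2.symm h3
        exact Nat.ModEq.eq_of_lt_of_lt h4 m1.2 m1'.2
      ext
      · exact e3
      · exact h.2
      · exact h.1
  rw [card_product] at hcard
  calc (((SS k D).filter (fun s => NN k s = N ∧ tt k s = t)).card : ℝ)
      ≤ ((N.natAbs.divisors.card * N'.natAbs.divisors.card : ℕ) : ℝ) := by exact_mod_cast hcard
    _ = (N.natAbs.divisors.card : ℝ) * N'.natAbs.divisors.card := by push_cast; ring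
    _ ≤ T * T := mul_le_mul c1 c2 (Nat.cast_nonneg _) ((Nat.cast_nonneg _).trans c1)
    _ = T ^ 2 := by ring

/-- the nonzero integers of absolute value at most `X` -/
noncomputable def ZX (X : ℕ) : Finset ℤ := (Icc (-(X : ℤ)) X).erase 0

lemma mem_ZX {X : ℕ} {z : ℤ} : z ∈ ZX X ↔ z ≠ 0 ∧ |z| ≤ X := by
  unfold ZX
  rw [mem_erase, mem_Icc, abs_le]

lemma sum_ZX (X : ℕ) : ∑ z ∈ ZX X, 1 / |(z : ℝ)| ≤ 2 * (1 + Real.log X) := by
  have h1 : ∑ n ∈ Icc 1 X, 1 / (n : ℝ) ≤ 1 + Real.log X := by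
    have h := harmonic_le_one_add_log X
    rw [harmonic_eq_sum_Icc] at h
    push_cast at h
    refine le_trans (le_of_eq (sum_congr rfl fun n _ => ?_)) h
    rw [one_div]
  have hsub : ZX X ⊆ (Icc 1 X).image (fun n : ℕ => (n : ℤ)) ∪ (Icc 1 X).image (fun n : ℕ => -(n : ℤ)) := by
    intro z hz
    rw [mem_ZX] at hz
    obtain ⟨h0, h2⟩ := hz
    rw [mem_union, mem_image, mem_image]
    rcases le_total 0 z with h | h
    · left
      rw [abs_of_nonneg h] at h2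
      exact ⟨z.natAbs, mem_Icc.2 (by omega), by omega⟩
    · right
      rw [abs_of_nonpos h] at h2
      exact ⟨z.natAbs, mem_Icc.2 (by omega), by omega⟩
  have h2 : ∑ z ∈ (Icc 1 X).image (fun n : ℕ => (n : ℤ)), 1 / |(z : ℝ)| ≤ 1 + Real.log X := by
    rw [sum_image (by intro a _ b _ h; simpa using h)]
    refine le_trans (le_of_eq (sum_congr rfl fun n _ => ?_)) h1
    push_cast
    rw [Nat.abs_cast]
  have h3 : ∑ z ∈ (Icc 1 X).image (fun n : ℕ => -(n : ℤ)), 1 / |(z : ℝ)| ≤ 1 + Real.log X := by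
    rw [sum_image (by intro a _ b _ h; simpa using h)]
    refine le_trans (le_of_eq (sum_congr rfl fun n _ => ?_)) h1
    push_cast
    rw [abs_neg, Nat.abs_cast]
  have h4 := sum_le_sum_of_subset_of_nonneg hsub (f := fun z : ℤ => 1 / |(z : ℝ)|)
    (fun z _ _ => by positivity)
  have h5 := sum_union_inter (s₁ := (Icc 1 X).image (fun n : ℕ => (n : ℤ)))
    (s₂ := (Icc 1 X).image (fun n : ℕ => -(n : ℤ))) (f := fun z : ℤ => 1 / |(z : ℝ)|)
  have h6 : 0 ≤ ∑ z ∈ (Icc 1 X).image (fun n : ℕ => (n : ℤ)) ∩ (Icc 1 X).image (fun n : ℕ => -(n : ℤ)),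
      1 / |(z : ℝ)| := sum_nonneg fun z _ => by positivity
  linarith

open Classical in
/-- sums over the triples -/
lemma sum_fib {k D : ℕ} {T : ℝ}
    (hT : ∀ n : ℕ, 1 ≤ n → n ≤ k * D → (n.divisors.card : ℝ) ≤ T) (S : Finset (ℕ × ℕ × ℕ))
    (hS : S ⊆ SS k D) (Z : Finset (ℤ × ℤ)) (hZ : ∀ s ∈ S, (NN k s, tt k s) ∈ Z) (g : ℤ × ℤ → ℝ)
    (hg : ∀ z, 0 ≤ g z) : ∑ s ∈ S, g (NN k s, tt k s) ≤ T ^ 2 * ∑ z ∈ Z, g z := by
  rw [← sum_fiberwise_of_maps_to hZ, mul_sum]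
  apply sum_le_sum
  intro z _
  rw [sum_congr rfl (g := fun _ => g z) (by
    intro s hs
    rw [(mem_filter.1 hs).2]), sum_const, nsmul_eq_mul]
  apply mul_le_mul_of_nonneg_right _ (hg z)
  refine le_trans ?_ (fiber hT z.1 z.2)
  have : (S.filter (fun s => (NN k s, tt k s) = z)) ⊆ (SS k D).filter (fun s => NN k s = z.1 ∧ tt k s = z.2) := by
    intro s hs
    rw [mem_filter] at hs ⊢
    refine ⟨hS hs.1, ?_, ?_⟩
    · rw [← hs.2]
    · rw [← hs.2]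
  exact_mod_cast card_le_card this

/-- the majorant of the geometric sums -/
noncomputable def mm (k L d c : ℕ) : ℝ :=
  min (3 * ((L : ℝ) / d + 1)) (3 * k / (4 * |(hb k d c : ℝ)|))

lemma mm_nonneg (k L d c : ℕ) : 0 ≤ mm k L d c := le_min (by positivity) (by positivity)

/-- the two bounds for the products -/
lemma mm_mul {k L D : ℕ} {s : ℕ × ℕ × ℕ} (hs : s ∈ SS k D) :
    mm k L s.2.1 s.1 * mm k L s.2.2 s.1 ≤
      if tt k s = 0 then 9 / 4 * ((L : ℝ) + D) * k * (1 / |(NN k s : ℝ)|)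
      else 9 * k * D ^ 2 / 16 * (1 / (|(NN k s : ℝ)| * |(tt k s : ℝ)|) + 1 / (|(NP k s : ℝ)| * |(tt k s : ℝ)|)) := by
  obtain ⟨⟨hc1, hck⟩, m2, m3⟩ := mem_SS hs
  rw [mem_DD] at m2 m3
  have hk0 : (0 : ℝ) < k := by exact_mod_cast (by omega : 0 < k)
  have hd1 : (1 : ℝ) ≤ s.2.1 := by exact_mod_cast m2.1.1
  have hd2 : (1 : ℝ) ≤ s.2.2 := by exact_mod_cast m3.1.1
  have hD1 : (s.2.1 : ℝ) ≤ D := by exact_mod_cast m2.1.2
  have hD2 : (s.2.2 : ℝ) ≤ D := by exact_mod_cast m3.1.2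
  have hn1 : 0 < |(hb k s.2.1 s.1 : ℝ)| := abs_pos.2 (by exact_mod_cast hb_ne m2.2 hc1 hck)
  have hn2 : 0 < |(hb k s.2.2 s.1 : ℝ)| := abs_pos.2 (by exact_mod_cast hb_ne m3.2 hc1 hck)
  have eN : |(NN k s : ℝ)| = |(hb k s.2.1 s.1 : ℝ)| * s.2.2 := by
    unfold NN; push_cast; rw [abs_mul, Nat.abs_cast]
  have eP : |(NP k s : ℝ)| = |(hb k s.2.2 s.1 : ℝ)| * s.2.1 := by
    unfold NP; push_cast; rw [abs_mul, Nat.abs_cast]
  set h1 := |(hb k s.2.1 s.1 : ℝ)| with hh1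
  set h2 := |(hb k s.2.2 s.1 : ℝ)| with hh2
  set a1 := mm k L s.2.1 s.1 with ha1
  set a2 := mm k L s.2.2 s.1 with ha2
  have a10 : 0 ≤ a1 := mm_nonneg _ _ _ _
  have a20 : 0 ≤ a2 := mm_nonneg _ _ _ _
  have u1 : a1 ≤ 3 * k / (4 * h1) := min_le_right _ _
  have u2 : a2 ≤ 3 * k / (4 * h2) := min_le_right _ _
  have v1 : a1 ≤ 3 * ((L : ℝ) + D) / s.2.1 := by
    refine (min_le_left _ _).trans ?_
    rw [mul_div_assoc]
    apply mul_le_mul_of_nonneg_left _ (by norm_num)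
    rw [add_div]
    have : (1 : ℝ) ≤ D / s.2.1 := by rw [le_div_iff₀ (by linarith)]; linarith
    linarith
  have v2 : a2 ≤ 3 * ((L : ℝ) + D) / s.2.2 := by
    refine (min_le_left _ _).trans ?_
    rw [mul_div_assoc]
    apply mul_le_mul_of_nonneg_left _ (by norm_num)
    rw [add_div]
    have : (1 : ℝ) ≤ D / s.2.2 := by rw [le_div_iff₀ (by linarith)]; linarith
    linarith
  split_ifs with ht
  · have hNP : NP k s = NN k s := by
      have := tt_mul k s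
      rw [ht, mul_zero] at this
      linarith
    have hNP' : h2 * s.2.1 = h1 * s.2.2 := by rw [← eP, ← eN, hNP]
    rw [eN]
    apply le_of_sq_le_sq _ (by positivity)
    calc (a1 * a2) ^ 2 = (a1 * a1) * (a2 * a2) := by ring
      _ ≤ ((3 * ((L : ℝ) + D) / s.2.1) * (3 * k / (4 * h1))) * ((3 * ((L : ℝ) + D) / s.2.2) * (3 * k / (4 * h2))) := by
          apply mul_le_mul (mul_le_mul v1 u1 a10 (by positivity)) (mul_le_mul v2 u2 a20 (by positivity))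
            (by positivity) (by positivity)
      _ = (9 / 4 * ((L : ℝ) + D) * k) ^ 2 * (1 / ((h1 * s.2.2) * (h2 * s.2.1))) := by
          field_simp
          ring
      _ = (9 / 4 * ((L : ℝ) + D) * k * (1 / (h1 * s.2.2))) ^ 2 := by
          rw [hNP']; field_simp
  · have ht0 : 0 < |(tt k s : ℝ)| := abs_pos.2 (by exact_mod_cast ht)
    have htk : (k : ℝ) * |(tt k s : ℝ)| ≤ |(NN k s : ℝ)| + |(NP k s : ℝ)| := by
      have h3 : ((k : ℝ)) * (tt k s : ℝ) = (NP k s : ℝ) - NN k s := by exact_mod_cast tt_mul k s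
      have h4 : (k : ℝ) * |(tt k s : ℝ)| = |(k : ℝ) * (tt k s : ℝ)| := by rw [abs_mul, Nat.abs_cast]
      rw [h4, h3]
      have := abs_sub (NP k s : ℝ) (NN k s : ℝ)
      linarith
    set P := |(NP k s : ℝ)| with hP
    set N := |(NN k s : ℝ)| with hN
    set t := |(tt k s : ℝ)| with ht'
    have hN0 : 0 < N := by rw [eN]; positivity
    have hP0 : 0 < P := by rw [eP]; positivity
    calc a1 * a2 ≤ (3 * k / (4 * h1)) * (3 * k / (4 * h2)) := mul_le_mul u1 u2 a20 (by positivity)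
      _ = 9 * k ^ 2 * (s.2.1 * s.2.2) / 16 * (1 / (N * P)) := by
          rw [eN, eP]; field_simp; ring
      _ ≤ 9 * k ^ 2 * (D * D) / 16 * (1 / (N * P)) := by gcongr
      _ = 9 * k * D ^ 2 / 16 * (k * t / (N * P * t)) := by field_simp
      _ ≤ 9 * k * D ^ 2 / 16 * ((N + P) / (N * P * t)) := by gcongr
      _ = 9 * k * D ^ 2 / 16 * (1 / (N * t) + 1 / (P * t)) := by field_simp; ring

lemma swap_mem {k D : ℕ} {s : ℕ × ℕ × ℕ} (hs : s ∈ SS k D) : (s.1, s.2.2, s.2.1) ∈ SS k D := by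
  obtain ⟨h1, h2, h3⟩ := mem_SS hs
  unfold SS
  rw [mem_product, mem_product, mem_Ico]
  exact ⟨h1, h3, h2⟩

lemma tt_swap {k : ℕ} (hk : 1 ≤ k) (s : ℕ × ℕ × ℕ) : tt k (s.1, s.2.2, s.2.1) = - tt k s := by
  have h1 := tt_mul k s
  have h2 := tt_mul k (s.1, s.2.2, s.2.1)
  have h3 : NP k (s.1, s.2.2, s.2.1) = NN k s := rfl
  have h4 : NN k (s.1, s.2.2, s.2.1) = NP k s := rfl
  rw [h3, h4] at h2
  have hk0 : (k : ℤ) ≠ 0 := by exact_mod_cast (by omega : k ≠ 0)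
  apply mul_left_cancel₀ hk0
  linarith

/-- **the counting lemma** -/
theorem count {k L D : ℕ} {T : ℝ} (hk : 1 ≤ k) (hD : 1 ≤ D)
    (hT : ∀ n : ℕ, 1 ≤ n → n ≤ k * D → (n.divisors.card : ℝ) ≤ T) :
    ∑ c ∈ Ico 1 k, (∑ d ∈ DD k D, mm k L d c) ^ 2 ≤
      9 / 2 * T ^ 2 * k * ((L : ℝ) + 2 * D ^ 2) * (1 + Real.log (k * D)) ^ 2 := by
  classical
  have e1 : ∑ c ∈ Ico 1 k, (∑ d ∈ DD k D, mm k L d c) ^ 2 =
      ∑ s ∈ SS k D, mm k L s.2.1 s.1 * mm k L s.2.2 s.1 := by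
    unfold SS
    rw [sum_product]
    apply sum_congr rfl
    intro c _
    rw [sq, sum_mul_sum, sum_product]
  have hk0 : (0 : ℝ) < k := by exact_mod_cast hk
  have hD1 : (1 : ℝ) ≤ D := by exact_mod_cast hD
  have hk1 : (1 : ℝ) ≤ k := by exact_mod_cast hk
  set Λ : ℝ := 1 + Real.log (k * D) with hΛ
  have hΛ1 : 1 ≤ Λ := by
    have : 0 ≤ Real.log (k * D) := Real.log_nonneg (by nlinarith)
    linarith
  have hlogD : 1 + Real.log D ≤ Λ := by
    have : Real.log D ≤ Real.log (k * D) := Real.log_le_log (by linarith) (by nlinarith)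
    linarith
  have z1 : ∑ z ∈ ZX (k * D), 1 / |(z : ℝ)| ≤ 2 * Λ := by
    have := sum_ZX (k * D)
    push_cast at this
    exact this
  have z2 : ∑ z ∈ ZX D, 1 / |(z : ℝ)| ≤ 2 * Λ := (sum_ZX D).trans (by linarith)
  have hX : ∀ s ∈ SS k D, NN k s ∈ ZX (k * D) := by
    intro s hs
    rw [mem_ZX]
    refine ⟨NN_ne hs, ?_⟩
    have := NN_abs hs
    have := abs_nonneg (NN k s)
    omega
  rw [e1]
  set S0 := (SS k D).filter (fun s => tt k s = 0) with hS0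
  set S1 := (SS k D).filter (fun s => ¬ tt k s = 0) with hS1
  have s0 : ∑ s ∈ S0, 1 / |(NN k s : ℝ)| ≤ T ^ 2 * (2 * Λ) := by
    have h := sum_fib hT S0 (filter_subset _ _) (ZX (k * D) ×ˢ {0}) (by
      intro s hs
      rw [mem_filter] at hs
      rw [mem_product]
      exact ⟨hX s hs.1, by simp [hs.2]⟩) (fun z => 1 / |(z.1 : ℝ)|) (fun z => by positivity)
    refine h.trans ?_
    apply mul_le_mul_of_nonneg_left _ (sq_nonneg T)
    rw [sum_product]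
    simpa using z1
  have s1 : ∑ s ∈ S1, 1 / (|(NN k s : ℝ)| * |(tt k s : ℝ)|) ≤ T ^ 2 * (2 * Λ * (2 * Λ)) := by
    have h := sum_fib hT S1 (filter_subset _ _) (ZX (k * D) ×ˢ ZX D) (by
      intro s hs
      rw [mem_filter] at hs
      rw [mem_product, mem_ZX (X := D)]
      exact ⟨hX s hs.1, hs.2, tt_abs hs.1⟩) (fun z => 1 / (|(z.1 : ℝ)| * |(z.2 : ℝ)|)) (fun z => by positivity)
    refine h.trans ?_
    apply mul_le_mul_of_nonneg_left _ (sq_nonneg T)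
    rw [sum_product]
    have e2 : ∀ x ∈ ZX (k * D), ∑ y ∈ ZX D, 1 / (|(((x, y) : ℤ × ℤ).1 : ℝ)| * |(((x, y) : ℤ × ℤ).2 : ℝ)|) =
        1 / |(x : ℝ)| * ∑ y ∈ ZX D, 1 / |(y : ℝ)| := by
      intro x _
      rw [mul_sum]
      apply sum_congr rfl
      intro y _
      rw [one_div_mul_one_div]
    rw [sum_congr rfl e2, ← sum_mul]
    exact mul_le_mul z1 z2 (sum_nonneg fun _ _ => by positivity) (by positivity)
  have s2 : ∑ s ∈ S1, 1 / (|(NP k s : ℝ)| * |(tt k s : ℝ)|) ≤ T ^ 2 * (2 * Λ * (2 * Λ)) := by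
    refine le_trans (le_of_eq ?_) s1
    apply sum_bij (fun s _ => (s.1, s.2.2, s.2.1))
    · intro s hs
      rw [hS1, mem_filter] at hs ⊢
      refine ⟨swap_mem hs.1, ?_⟩
      rw [tt_swap hk]
      exact fun h => hs.2 (neg_eq_zero.1 h)
    · intro s _ s' _ h
      simp only [Prod.mk.injEq] at h
      ext
      · exact h.1
      · exact h.2.2
      · exact h.2.1
    · intro s hs
      refine ⟨(s.1, s.2.2, s.2.1), ?_, rfl⟩
      rw [hS1, mem_filter] at hs ⊢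
      refine ⟨swap_mem hs.1, ?_⟩
      rw [tt_swap hk]
      exact fun h => hs.2 (neg_eq_zero.1 h)
    · intro s _
      rw [tt_swap hk]
      have h4 : NN k (s.1, s.2.2, s.2.1) = NP k s := rfl
      rw [h4]
      push_cast
      rw [abs_neg]
  have hsplit : ∑ s ∈ SS k D, mm k L s.2.1 s.1 * mm k L s.2.2 s.1 ≤
      9 / 4 * ((L : ℝ) + D) * k * ∑ s ∈ S0, 1 / |(NN k s : ℝ)| +
      9 * k * D ^ 2 / 16 * (∑ s ∈ S1, 1 / (|(NN k s : ℝ)| * |(tt k s : ℝ)|) +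
        ∑ s ∈ S1, 1 / (|(NP k s : ℝ)| * |(tt k s : ℝ)|)) := by
    rw [← sum_filter_add_sum_filter_not (SS k D) (fun s => tt k s = 0), ← sum_add_distrib, mul_sum, mul_sum]
    apply add_le_add
    · apply sum_le_sum
      intro s hs
      rw [mem_filter] at hs
      have := mm_mul (L := L) hs.1
      rwa [if_pos hs.2] at this
    · apply sum_le_sum
      intro s hs
      rw [mem_filter] at hs
      have := mm_mul (L := L) hs.1
      rwa [if_neg hs.2] at this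
  have hT2 : 0 ≤ T ^ 2 := sq_nonneg T
  have hL0 : (0 : ℝ) ≤ L := Nat.cast_nonneg L
  calc ∑ s ∈ SS k D, mm k L s.2.1 s.1 * mm k L s.2.2 s.1
      ≤ 9 / 4 * ((L : ℝ) + D) * k * (T ^ 2 * (2 * Λ)) +
        9 * k * D ^ 2 / 16 * (T ^ 2 * (2 * Λ * (2 * Λ)) + T ^ 2 * (2 * Λ * (2 * Λ))) := by
        refine hsplit.trans ?_
        gcongr
    _ = 9 / 2 * T ^ 2 * k * (((L : ℝ) + D) * Λ + D ^ 2 * Λ ^ 2) := by ring
    _ ≤ 9 / 2 * T ^ 2 * k * (((L : ℝ) + D ^ 2) * Λ ^ 2 + D ^ 2 * Λ ^ 2) := by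
        have h1 : Λ ≤ Λ ^ 2 := by nlinarith
        have h2 : (D : ℝ) ≤ D ^ 2 := by nlinarith
        gcongr
    _ = 9 / 2 * T ^ 2 * k * ((L : ℝ) + 2 * D ^ 2) * Λ ^ 2 := by ring

end Pool.Agent.R502.BL
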