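import Pool.Agent.R502.BL.Two

/-! The second moment of a divisor sum in an interval over the classes modulo `k`. -/

set_option autoImplicit false
set_option maxHeartbeats 4000000

namespace Pool.Agent.R502.BL
open Finset
open Pool.Agent.H807R2.Dav

/-- the number of the multiples `n ≡ l (mod k)` of `d` in `(u, v]` -/
def cn (k u v d l : ℕ) : ℕ := ((Ioc u v).filter (fun n => d ∣ n ∧ n ≡ l [MOD k])).card

/-- the error term of a divisor sum -/
noncomputable def EE (ρ : ℕ → ℝ) (k D u v l : ℕ) : ℝ :=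
  ∑ d ∈ DD k D, ρ d * ((cn k u v d l : ℝ) - ((v : ℝ) - u) / (d * k))

lemma mult_sum {β : Type*} [AddCommMonoid β] (u v d : ℕ) (hd : 1 ≤ d) (F : ℕ → β) :
    ∑ m ∈ (Ioc u v).filter (fun m => d ∣ m), F m = ∑ j ∈ Ico (u / d + 1) (v / d + 1), F (d * j) := by
  symm
  apply sum_bij (fun j _ => d * j)
  · intro j hj
    rw [mem_Ico] at hj
    rw [mem_filter, mem_Ioc]
    refine ⟨⟨?_, ?_⟩, dvd_mul_right _ _⟩
    · have h1 : u / d < j := by omega
      rw [Nat.div_lt_iff_lt_mul (by omega)] at h1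
      rwa [mul_comm]
    · have h1 : j ≤ v / d := by omega
      rw [Nat.le_div_iff_mul_le (by omega)] at h1
      rwa [mul_comm]
  · intro a _ b _ h
    exact Nat.eq_of_mul_eq_mul_left (by omega) h
  · intro m hm
    rw [mem_filter, mem_Ioc] at hm
    obtain ⟨⟨h1, h2⟩, j, rfl⟩ := hm
    refine ⟨j, ?_, rfl⟩
    rw [mem_Ico]
    constructor
    · have : u / d < j := by
        rw [Nat.div_lt_iff_lt_mul (by omega)]
        rwa [mul_comm]
      omega
    · have : j ≤ v / d := by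
        rw [Nat.le_div_iff_mul_le (by omega)]
        rwa [mul_comm]
      omega
  · intro _ _; rfl

lemma dft_cn (k u v d r : ℕ) (hk : 1 ≤ k) :
    ∑ n ∈ range k, (cn k u v d n : ℂ) * ee ((n : ℝ) * ((r : ℝ) / k)) =
      ∑ m ∈ (Ioc u v).filter (fun m => d ∣ m), ee ((m : ℝ) * ((r : ℝ) / k)) := by
  have hk0 : (k : ℝ) ≠ 0 := by positivity
  rw [← sum_fiberwise_of_maps_to (s := (Ioc u v).filter (fun m => d ∣ m)) (t := range k) (g := fun n => n % k)
    (fun n _ => mem_range.2 (Nat.mod_lt n (by omega)))]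
  apply sum_congr rfl
  intro a ha
  rw [mem_range] at ha
  have hf : ((Ioc u v).filter (fun m => d ∣ m)).filter (fun n => n % k = a) =
      (Ioc u v).filter (fun n => d ∣ n ∧ n ≡ a [MOD k]) := by
    ext n
    simp only [mem_filter, and_assoc]
    unfold Nat.ModEq
    rw [Nat.mod_eq_of_lt ha]
  rw [hf]
  unfold cn
  rw [sum_congr rfl (g := fun _ => ee ((a : ℝ) * ((r : ℝ) / k))), sum_const, nsmul_eq_mul]
  intro m hm
  rw [mem_filter] at hm
  have h1 : m % k = a := by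
    have := hm.2.2
    unfold Nat.ModEq at this
    rwa [Nat.mod_eq_of_lt ha] at this
  have h2 := Nat.mod_add_div m k
  rw [h1] at h2
  have h3 : (m : ℝ) = (a : ℝ) + k * ((m / k : ℕ) : ℝ) := by exact_mod_cast h2.symm
  have h4 : (m : ℝ) * ((r : ℝ) / k) = (a : ℝ) * ((r : ℝ) / k) + (((m / k * r : ℕ) : ℤ) : ℝ) := by
    rw [Int.cast_natCast, Nat.cast_mul]
    generalize ((m / k : ℕ) : ℝ) = u at *
    rw [h3]
    field_simp
  rw [h4, ee_add_int]

lemma div_sub_le (u v d : ℕ) (hd : 1 ≤ d) :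
    |(((v / d : ℕ) : ℝ) - ((u / d : ℕ) : ℝ)) - ((v : ℝ) - u) / d| ≤ 1 := by
  have hd0 : (0 : ℝ) < d := by exact_mod_cast hd
  have h1 : ∀ w : ℕ, ((w / d : ℕ) : ℝ) ≤ (w : ℝ) / d ∧ (w : ℝ) / d < ((w / d : ℕ) : ℝ) + 1 := by
    intro w
    constructor
    · exact Nat.cast_div_le
    · rw [div_lt_iff₀ hd0]
      have := Nat.lt_div_mul_add (a := w) (b := d) (by omega)
      have h2 : (w : ℝ) < (w / d : ℕ) * d + d := by exact_mod_cast this
      linarith
  obtain ⟨a1, a2⟩ := h1 u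
  obtain ⟨b1, b2⟩ := h1 v
  rw [sub_div, abs_le]
  constructor <;> linarith

lemma sum_cn (k u v d : ℕ) (hk : 1 ≤ k) (hd : 1 ≤ d) (huv : u ≤ v) :
    |∑ l ∈ range k, ((cn k u v d l : ℝ) - ((v : ℝ) - u) / (d * k))| ≤ 1 := by
  have h1 : ∑ l ∈ range k, (cn k u v d l : ℝ) = ((v / d : ℕ) : ℝ) - ((u / d : ℕ) : ℝ) := by
    have h2 := dft_cn k u v d 0 hk
    simp only [Nat.cast_zero, zero_div, mul_zero, ee_zero, mul_one, sum_const, nsmul_eq_mul] at h2
    have h3 := mult_sum u v d hd (fun _ => (1 : ℕ))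
    simp only [sum_const, smul_eq_mul, mul_one, Nat.card_Ico] at h3
    rw [h3] at h2
    have h4 : ∑ l ∈ range k, cn k u v d l = v / d + 1 - (u / d + 1) := by exact_mod_cast h2
    have h5 : u / d ≤ v / d := Nat.div_le_div_right huv
    have h6 : ∑ l ∈ range k, cn k u v d l + u / d = v / d := by omega
    have h7 : ∑ l ∈ range k, (cn k u v d l : ℝ) + ((u / d : ℕ) : ℝ) = ((v / d : ℕ) : ℝ) := by exact_mod_cast h6
    linarith
  have hk0 : (0 : ℝ) < k := by exact_mod_cast hk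
  have hd0 : (0 : ℝ) < d := by exact_mod_cast hd
  rw [sum_sub_distrib, h1, sum_const, card_range, nsmul_eq_mul]
  have e : (k : ℝ) * (((v : ℝ) - u) / (d * k)) = ((v : ℝ) - u) / d := by field_simp
  rw [e]
  exact div_sub_le u v d hd

/-- **the second moment** -/
theorem variance {k D u v : ℕ} {T B : ℝ} (hk : 1 ≤ k) (hD : 1 ≤ D) (huv : u ≤ v)
    (hT : ∀ n : ℕ, 1 ≤ n → n ≤ k * D → (n.divisors.card : ℝ) ≤ T) (ρ : ℕ → ℝ) (hB : 0 ≤ B)
    (hρ : ∀ d ∈ DD k D, |ρ d| ≤ B) :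
    ∑ l ∈ range k, (EE ρ k D u v l) ^ 2 ≤
      B ^ 2 * ((D : ℝ) ^ 2 / k + 9 / 2 * T ^ 2 * (((v : ℝ) - u) + 2 * D ^ 2) * (1 + Real.log (k * D)) ^ 2) := by
  have hk0 : (0 : ℝ) < k := by exact_mod_cast hk
  have hpar := parsevalF hk (fun l => ((EE ρ k D u v l : ℝ) : ℂ))
  have e0 : ∀ l : ℕ, ‖((EE ρ k D u v l : ℝ) : ℂ)‖ ^ 2 = (EE ρ k D u v l) ^ 2 := by
    intro l
    rw [Complex.norm_real, Real.norm_eq_abs, sq_abs]
  rw [sum_congr rfl (fun l _ => e0 l)] at hpar
  -- the transform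
  have tr : ∀ r : ℕ, ∑ n ∈ range k, ((EE ρ k D u v n : ℝ) : ℂ) * ee ((n : ℝ) * ((r : ℝ) / k)) =
      ∑ d ∈ DD k D, (ρ d : ℂ) * (∑ n ∈ range k, (((cn k u v d n : ℝ) - ((v : ℝ) - u) / (d * k) : ℝ) : ℂ) *
        ee ((n : ℝ) * ((r : ℝ) / k))) := by
    intro r
    unfold EE
    simp only [Complex.ofReal_sum, sum_mul]
    rw [sum_comm]
    apply sum_congr rfl
    intro d _
    rw [mul_sum]
    apply sum_congr rfl
    intro n _
    rw [Complex.ofReal_mul]
    ring
  have hDc : ((DD k D).card : ℝ) ≤ D := by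
    have h1 : (DD k D).card ≤ (Icc 1 D).card := card_filter_le _ _
    rw [Nat.card_Icc, Nat.add_sub_cancel] at h1
    exact_mod_cast h1
  have c0 : ‖∑ n ∈ range k, ((EE ρ k D u v n : ℝ) : ℂ) * ee ((n : ℝ) * (((0 : ℕ) : ℝ) / k))‖ ≤ B * D := by
    rw [tr]
    refine (norm_sum_le _ _).trans ?_
    calc ∑ d ∈ DD k D, ‖(ρ d : ℂ) * (∑ n ∈ range k, (((cn k u v d n : ℝ) - ((v : ℝ) - u) / (d * k) : ℝ) : ℂ) *
        ee ((n : ℝ) * (((0 : ℕ) : ℝ) / k)))‖ ≤ ∑ d ∈ DD k D, B := by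
          apply sum_le_sum
          intro d hd
          rw [norm_mul, Complex.norm_real, Real.norm_eq_abs]
          have h1 : ‖∑ n ∈ range k, (((cn k u v d n : ℝ) - ((v : ℝ) - u) / (d * k) : ℝ) : ℂ) *
              ee ((n : ℝ) * (((0 : ℕ) : ℝ) / k))‖ ≤ 1 := by
            simp only [Nat.cast_zero, zero_div, mul_zero, ee_zero, mul_one]
            rw [← Complex.ofReal_sum, Complex.norm_real, Real.norm_eq_abs]
            exact sum_cn k u v d hk (mem_DD.1 hd).1.1 huv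
          calc |ρ d| * _ ≤ B * 1 := mul_le_mul (hρ d hd) h1 (norm_nonneg _) hB
            _ = B := mul_one B
      _ = (DD k D).card * B := by rw [sum_const, nsmul_eq_mul]
      _ ≤ B * D := by rw [mul_comm]; gcongr
  have c1 : ∀ r ∈ Ico 1 k, ‖∑ n ∈ range k, ((EE ρ k D u v n : ℝ) : ℂ) * ee ((n : ℝ) * ((r : ℝ) / k))‖ ≤
      B * ∑ d ∈ DD k D, mm k (v - u) d r := by
    intro r hr
    rw [mem_Ico] at hr
    rw [tr, mul_sum]
    refine (norm_sum_le _ _).trans ?_
    apply sum_le_sum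
    intro d hd
    rw [norm_mul, Complex.norm_real, Real.norm_eq_abs]
    apply mul_le_mul (hρ d hd) _ (norm_nonneg _) hB
    obtain ⟨⟨hd1, hdD⟩, hdk⟩ := mem_DD.1 hd
    have hd0 : (0 : ℝ) < d := by exact_mod_cast hd1
    have e1 : ∑ n ∈ range k, (((cn k u v d n : ℝ) - ((v : ℝ) - u) / (d * k) : ℝ) : ℂ) *
        ee ((n : ℝ) * ((r : ℝ) / k)) = ∑ j ∈ Ico (u / d + 1) (v / d + 1), ee ((j : ℝ) * ((d : ℝ) * ((r : ℝ) / k))) := by
      have h0 : ∑ n ∈ range k, ee ((n : ℝ) * ((r : ℝ) / k)) = 0 := by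
        have h1 := orth hk (r : ℤ)
        have h2 : ¬ (k : ℤ) ∣ r := by
          intro h
          have h3 : k ∣ r := by exact_mod_cast h
          have := Nat.le_of_dvd (by omega) h3
          omega
        rw [if_neg h2] at h1
        rw [← h1]
        apply sum_congr rfl
        intro n _
        congr 1
        push_cast
        ring
      calc ∑ n ∈ range k, (((cn k u v d n : ℝ) - ((v : ℝ) - u) / (d * k) : ℝ) : ℂ) * ee ((n : ℝ) * ((r : ℝ) / k))
          = ∑ n ∈ range k, (cn k u v d n : ℂ) * ee ((n : ℝ) * ((r : ℝ) / k)) -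
            ((((v : ℝ) - u) / (d * k) : ℝ) : ℂ) * ∑ n ∈ range k, ee ((n : ℝ) * ((r : ℝ) / k)) := by
            rw [mul_sum, ← sum_sub_distrib]
            apply sum_congr rfl
            intro n _
            push_cast
            ring
        _ = ∑ m ∈ (Ioc u v).filter (fun m => d ∣ m), ee ((m : ℝ) * ((r : ℝ) / k)) := by
            rw [h0, mul_zero, sub_zero, dft_cn k u v d r hk]
        _ = ∑ j ∈ Ico (u / d + 1) (v / d + 1), ee ((j : ℝ) * ((d : ℝ) * ((r : ℝ) / k))) := by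
            rw [mult_sum u v d hd1]
            apply sum_congr rfl
            intro j _
            congr 1
            push_cast
            ring
    rw [e1]
    have hM : (((v / d + 1 : ℕ) : ℝ) - ((u / d + 1 : ℕ) : ℝ)) ≤ ((v - u : ℕ) : ℝ) / d + 1 := by
      have h1 := (abs_le.1 (div_sub_le u v d hd1)).2
      push_cast
      rw [Nat.cast_sub huv]
      linarith
    have h2 := geo_bound (u / d + 1) (v / d + 1) (by
      have : u / d ≤ v / d := Nat.div_le_div_right huv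
      omega) hM ((d : ℝ) * ((r : ℝ) / k))
    have h3 := KK_hb (d := d) (k := k) (c := r) hdk hr.1 hr.2 (M := ((v - u : ℕ) : ℝ) / d + 1) (by positivity)
    unfold mm
    exact h2.trans (le_min h3.1 h3.2)
  have hsum : ∑ r ∈ range k, ‖∑ n ∈ range k, ((EE ρ k D u v n : ℝ) : ℂ) * ee ((n : ℝ) * ((r : ℝ) / k))‖ ^ 2 ≤
      (B * D) ^ 2 + B ^ 2 * (9 / 2 * T ^ 2 * k * (((v - u : ℕ) : ℝ) + 2 * D ^ 2) * (1 + Real.log (k * D)) ^ 2) := by
    have hr : range k = insert 0 (Ico 1 k) := by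
      ext r
      rw [mem_range, mem_insert, mem_Ico]
      omega
    rw [hr, sum_insert (by simp), ← hr]
    apply add_le_add
    · exact pow_le_pow_left₀ (norm_nonneg _) c0 2
    · refine le_trans (sum_le_sum fun r hr => pow_le_pow_left₀ (norm_nonneg _) (c1 r hr) 2) ?_
      simp only [mul_pow]
      rw [← mul_sum]
      apply mul_le_mul_of_nonneg_left _ (sq_nonneg B)
      have := count (k := k) (L := v - u) (D := D) (T := T) hk hD hT
      simpa only [mul_pow] using this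
  rw [hpar] at hsum
  have hfin : ∑ l ∈ range k, (EE ρ k D u v l) ^ 2 ≤
      ((B * D) ^ 2 + B ^ 2 * (9 / 2 * T ^ 2 * k * (((v - u : ℕ) : ℝ) + 2 * D ^ 2) * (1 + Real.log (k * D)) ^ 2)) / k := by
    rw [le_div_iff₀ hk0, mul_comm]
    exact hsum
  refine hfin.trans (le_of_eq ?_)
  rw [Nat.cast_sub huv]
  field_simp

end Pool.Agent.R502.BL
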